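import Mathlib

/-! Counting lemmas for random bijections `α ≃ Fin M` (rotations of the values). -/

namespace Pool.Agent.helper6.LA

open Finset

/-- rotation by `j` of the integers in `[lo,hi)`. -/
def rotFun (lo hi j v : ℕ) : ℕ := if lo ≤ v ∧ v < hi then lo + (v - lo + j) % (hi - lo) else v

lemma rotFun_lt {M lo hi j v : ℕ} (h : hi ≤ M) (hv : v < M) : rotFun lo hi j v < M := by
  unfold rotFun
  split_ifs with h1
  · have : (v - lo + j) % (hi - lo) < hi - lo := Nat.mod_lt _ (by omega)
    omega
  · exact hv

lemma rotFun_mem {lo hi j v : ℕ} (h1 : lo ≤ v) (h2 : v < hi) :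
    lo ≤ rotFun lo hi j v ∧ rotFun lo hi j v < hi := by
  unfold rotFun
  rw [if_pos ⟨h1, h2⟩]
  have : (v - lo + j) % (hi - lo) < hi - lo := Nat.mod_lt _ (by omega)
  omega

lemma rotFun_of_not {lo hi j v : ℕ} (h : ¬ (lo ≤ v ∧ v < hi)) : rotFun lo hi j v = v := by
  unfold rotFun
  rw [if_neg h]

lemma rotFun_inj {lo hi j v w : ℕ} (h : rotFun lo hi j v = rotFun lo hi j w) : v = w := by
  by_cases hv : lo ≤ v ∧ v < hi <;> by_cases hw : lo ≤ w ∧ w < hi
  · unfold rotFun at h
    rw [if_pos hv, if_pos hw] at h
    have h' : (v - lo + j) % (hi - lo) = (w - lo + j) % (hi - lo) := by omega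
    have h2 : v - lo ≡ w - lo [MOD (hi - lo)] := Nat.ModEq.add_right_cancel' j h'
    have h3 := Nat.ModEq.eq_of_lt_of_lt h2 (by omega) (by omega)
    omega
  · have h1 := rotFun_mem (j := j) hv.1 hv.2
    rw [h, rotFun_of_not hw] at h1
    exact absurd h1 hw
  · have h1 := rotFun_mem (j := j) hw.1 hw.2
    rw [← h, rotFun_of_not hv] at h1
    exact absurd h1 hv
  · rw [rotFun_of_not hv, rotFun_of_not hw] at h
    exact h

/-- the rotation as a permutation of `Fin M`. -/
noncomputable def rotP {M : ℕ} (lo hi : ℕ) (h : hi ≤ M) (j : ℕ) : Equiv.Perm (Fin M) :=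
  Equiv.ofBijective (fun v : Fin M => (⟨rotFun lo hi j v, rotFun_lt h v.2⟩ : Fin M))
    (Finite.injective_iff_bijective.mp (by
      intro v w hvw
      have := congrArg Fin.val hvw
      exact Fin.ext (rotFun_inj this)))

@[simp] lemma rotP_val {M lo hi : ℕ} (h : hi ≤ M) (j : ℕ) (v : Fin M) :
    ((rotP lo hi h j v : Fin M) : ℕ) = rotFun lo hi j v := rfl

/-- reflection `v ↦ p - v` on `[1,p)`. -/
def refFun (p v : ℕ) : ℕ := if 1 ≤ v ∧ v < p then p - v else v

lemma refFun_lt {M p v : ℕ} (hv : v < M) (hp : p ≤ M) : refFun p v < M := by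
  unfold refFun; split_ifs <;> omega

lemma refFun_invol (p v : ℕ) : refFun p (refFun p v) = v := by
  unfold refFun; split_ifs <;> omega

/-- the reflection as a permutation of `Fin M`. -/
def refP {M : ℕ} (p : ℕ) (hp : p ≤ M) : Equiv.Perm (Fin M) :=
  Function.Involutive.toPerm (fun v : Fin M => (⟨refFun p v, refFun_lt v.2 hp⟩ : Fin M))
    (by intro v; exact Fin.ext (refFun_invol p v))

@[simp] lemma refP_val {M p : ℕ} (hp : p ≤ M) (v : Fin M) :
    ((refP p hp v : Fin M) : ℕ) = refFun p v := rfl

section

variable {α : Type*} [Fintype α] [DecidableEq α] {M : ℕ}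

omit [DecidableEq α] in
/-- averaging over rotations. -/
lemma avg (S : Finset (α ≃ Fin M)) (L : ℕ) (ρ : ℕ → Equiv.Perm (Fin M))
    (hS : ∀ j < L, ∀ f ∈ S, f.trans (ρ j) ∈ S) (A : (α ≃ Fin M) → Prop) [DecidablePred A] :
    L * (S.filter A).card
      = ∑ f ∈ S, ((Finset.range L).filter (fun j => A (f.trans (ρ j)))).card := by
  have h1 : ∀ j ∈ Finset.range L, (∑ f ∈ S, if A (f.trans (ρ j)) then 1 else 0) = (S.filter A).card := by
    intro j hj
    have hinj : Function.Injective (fun f : α ≃ Fin M => f.trans (ρ j)) := by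
      intro f g hfg
      apply Equiv.ext
      intro a
      have := congrArg (fun e : α ≃ Fin M => e a) hfg
      simpa using this
    have himg : S.image (fun f : α ≃ Fin M => f.trans (ρ j)) = S := by
      apply Finset.eq_of_subset_of_card_le
      · intro g hg
        obtain ⟨f, hf, rfl⟩ := Finset.mem_image.mp hg
        exact hS j (Finset.mem_range.mp hj) f hf
      · rw [Finset.card_image_of_injective _ hinj]
    rw [Finset.card_filter]
    conv_rhs => rw [← himg]
    rw [Finset.sum_image (fun f _ g _ h => hinj h)]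
  have h2 : ∑ f ∈ S, ((Finset.range L).filter (fun j => A (f.trans (ρ j)))).card
      = ∑ f ∈ S, ∑ j ∈ Finset.range L, if A (f.trans (ρ j)) then 1 else 0 := by
    apply Finset.sum_congr rfl
    intro f _
    rw [Finset.card_filter]
  rw [h2, Finset.sum_comm, Finset.sum_congr rfl h1, Finset.sum_const, Finset.card_range, smul_eq_mul]

lemma card_dvd (L : ℕ) (hL : 0 < L) (c : ℤ) (d : ℕ) (hd : 1 ≤ d) :
    ((Finset.range L).filter (fun j : ℕ => (L : ℤ) ∣ c + d * j)).card ≤ d := by
  -- the quotients lie in an interval with `d` elements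
  set q0 : ℤ := (c + L - 1) / L with hq0
  have hLz : (0 : ℤ) < L := by exact_mod_cast hL
  have key : ((Finset.range L).filter (fun j : ℕ => (L : ℤ) ∣ c + d * j)).card
      ≤ (Finset.Ico q0 (q0 + d)).card := by
    apply Finset.card_le_card_of_injOn (fun j : ℕ => (c + d * j) / L)
    · intro j hj
      rw [Finset.mem_coe, Finset.mem_filter, Finset.mem_range] at hj
      obtain ⟨hj1, k, hk⟩ := hj
      rw [Finset.mem_coe, Finset.mem_Ico]
      have hq : (c + d * j) / (L : ℤ) = k := by
        rw [hk]; exact Int.mul_ediv_cancel_left _ (ne_of_gt hLz)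
      have e1 : (c + L - 1) / (L : ℤ) * L + (c + L - 1) % L = c + L - 1 := by
        rw [mul_comm]; exact Int.mul_ediv_add_emod _ _
      have e2 : 0 ≤ (c + L - 1) % (L : ℤ) := Int.emod_nonneg _ (ne_of_gt hLz)
      have e3 : (c + L - 1) % (L : ℤ) < L := Int.emod_lt_of_pos _ hLz
      have hjz : (j : ℤ) ≤ L - 1 := by
        have : (j : ℤ) < L := by exact_mod_cast hj1
        omega
      have hj0 : (0 : ℤ) ≤ j := by positivity
      have hdz : (1 : ℤ) ≤ d := by exact_mod_cast hd
      have f1 : (d : ℤ) * j ≤ d * (L - 1) := by nlinarith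
      have f2 : 0 ≤ (d : ℤ) * j := by positivity
      show q0 ≤ (c + d * j) / (L : ℤ) ∧ (c + d * j) / (L : ℤ) < q0 + d
      rw [hq]
      rw [← hq0] at e1
      constructor
      · -- q0 ≤ k
        by_contra hcon
        push Not at hcon
        have : k + 1 ≤ q0 := by omega
        have : (k + 1) * L ≤ q0 * L := by nlinarith
        nlinarith
      · by_contra hcon
        push Not at hcon
        have : (q0 + d) * L ≤ k * L := by nlinarith
        nlinarith
    · intro j hj j' hj' h
      rw [Finset.mem_coe, Finset.mem_filter, Finset.mem_range] at hj hj'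
      obtain ⟨hj1, k, hk⟩ := hj
      obtain ⟨hj1', k', hk'⟩ := hj'
      have h' : (c + d * j) / (L : ℤ) = (c + d * j') / (L : ℤ) := h
      rw [hk, hk', Int.mul_ediv_cancel_left _ (ne_of_gt hLz),
        Int.mul_ediv_cancel_left _ (ne_of_gt hLz)] at h'
      subst h'
      have hh : (d : ℤ) * j = d * j' := by linarith
      have hdz : (d : ℤ) ≠ 0 := by
        have : (1 : ℤ) ≤ d := by exact_mod_cast hd
        omega
      exact_mod_cast mul_left_cancel₀ hdz hh
  refine key.trans ?_
  rw [Int.card_Ico]
  omega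

lemma card_fix1 (hM : Fintype.card α = M) (c : α) (v : Fin M) :
    (univ.filter (fun f : α ≃ Fin M => f c = v)).card = (M - 1).factorial := by
  have hMpos : 0 < M := lt_of_le_of_lt (Nat.zero_le _) v.2
  have hall : ∀ w : Fin M, (univ.filter (fun f : α ≃ Fin M => f c = w)).card
      = (univ.filter (fun f : α ≃ Fin M => f c = v)).card := by
    intro w
    apply Finset.card_bij (fun f _ => f.trans (Equiv.swap w v))
    · intro f hf
      rw [Finset.mem_filter] at hf ⊢
      refine ⟨mem_univ _, ?_⟩
      rw [Equiv.trans_apply, hf.2, Equiv.swap_apply_left]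
    · intro f _ g _ h
      apply Equiv.ext
      intro a
      have := congrArg (fun e : α ≃ Fin M => e a) h
      simpa using this
    · intro g hg
      rw [Finset.mem_filter] at hg
      refine ⟨g.trans (Equiv.swap w v), ?_, ?_⟩
      · rw [Finset.mem_filter]
        refine ⟨mem_univ _, ?_⟩
        rw [Equiv.trans_apply, hg.2, Equiv.swap_apply_right]
      · apply Equiv.ext
        intro a
        simp
  have hsum : ∑ w : Fin M, (univ.filter (fun f : α ≃ Fin M => f c = w)).card = M.factorial := by
    rw [← Finset.card_eq_sum_card_fiberwise (s := (univ : Finset (α ≃ Fin M)))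
      (f := fun f : α ≃ Fin M => f c) (t := univ) (fun _ _ => by simp)]
    rw [Finset.card_univ, Fintype.card_equiv (Fintype.equivFinOfCardEq hM), hM]
  rw [Finset.sum_congr rfl (fun w _ => hall w), Finset.sum_const, Finset.card_univ,
    Fintype.card_fin, smul_eq_mul] at hsum
  have hf : M.factorial = M * (M - 1).factorial := by
    rw [Nat.mul_factorial_pred (by omega)]
  rw [hf] at hsum
  exact Nat.eq_of_mul_eq_mul_left hMpos hsum

lemma card_fix2 (hM : Fintype.card α = M) {a b : α} (hab : a ≠ b) {v w : Fin M} (hvw : v ≠ w) :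
    (univ.filter (fun f : α ≃ Fin M => f a = v ∧ f b = w)).card = (M - 2).factorial := by
  have hM2 : 2 ≤ M := by
    rcases Nat.lt_or_ge M 2 with h | h
    · exfalso
      apply hvw
      have := v.2
      have := w.2
      apply Fin.ext
      omega
    · exact h
  have hall : ∀ u : Fin M, u ∈ univ.filter (fun u : Fin M => u ≠ v) →
      (univ.filter (fun f : α ≃ Fin M => f a = v ∧ f b = u)).card
      = (univ.filter (fun f : α ≃ Fin M => f a = v ∧ f b = w)).card := by
    intro u hu
    rw [Finset.mem_filter] at hu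
    have huv := hu.2
    apply Finset.card_bij (fun f _ => f.trans (Equiv.swap u w))
    · intro f hf
      rw [Finset.mem_filter] at hf ⊢
      refine ⟨mem_univ _, ?_, ?_⟩
      · rw [Equiv.trans_apply, hf.2.1, Equiv.swap_apply_of_ne_of_ne huv.symm hvw]
      · rw [Equiv.trans_apply, hf.2.2, Equiv.swap_apply_left]
    · intro f _ g _ h
      apply Equiv.ext
      intro a
      have := congrArg (fun e : α ≃ Fin M => e a) h
      simpa using this
    · intro g hg
      rw [Finset.mem_filter] at hg
      refine ⟨g.trans (Equiv.swap u w), ?_, ?_⟩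
      · rw [Finset.mem_filter]
        refine ⟨mem_univ _, ?_, ?_⟩
        · rw [Equiv.trans_apply, hg.2.1, Equiv.swap_apply_of_ne_of_ne huv.symm hvw]
        · rw [Equiv.trans_apply, hg.2.2, Equiv.swap_apply_right]
      · apply Equiv.ext
        intro a
        simp
  have hsum : ∑ u ∈ univ.filter (fun u : Fin M => u ≠ v),
      (univ.filter (fun f : α ≃ Fin M => f a = v ∧ f b = u)).card = (M - 1).factorial := by
    rw [← card_fix1 hM a v]
    rw [Finset.card_eq_sum_card_fiberwise (s := univ.filter (fun f : α ≃ Fin M => f a = v))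
      (f := fun f : α ≃ Fin M => f b) (t := univ.filter (fun u : Fin M => u ≠ v))]
    · apply Finset.sum_congr rfl
      intro u _
      rw [Finset.filter_filter]
    · intro f hf
      have hf' : f a = v := by simpa using hf
      have : f b ≠ v := by
        rw [← hf']
        intro h
        exact hab (f.injective h).symm
      simpa using this
  rw [Finset.sum_congr rfl hall, Finset.sum_const, smul_eq_mul] at hsum
  have hc : (univ.filter (fun u : Fin M => u ≠ v)).card = M - 1 := by
    rw [Finset.filter_ne' univ v, Finset.card_erase_of_mem (mem_univ _), Finset.card_univ,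
      Fintype.card_fin]
  rw [hc] at hsum
  have hf : (M - 1).factorial = (M - 1) * (M - 2).factorial := by
    have := Nat.mul_factorial_pred (n := M - 1) (by omega)
    rw [show M - 1 - 1 = M - 2 by omega] at this
    exact this.symm
  rw [hf] at hsum
  exact Nat.eq_of_mul_eq_mul_left (by omega) hsum

lemma card_all (hM : Fintype.card α = M) :
    (univ : Finset (α ≃ Fin M)).card = M.factorial := by
  rw [Finset.card_univ, Fintype.card_equiv (Fintype.equivFinOfCardEq hM), hM]

/-- Lemma B1. -/
lemma B1 (hM : Fintype.card α = M) {a b : α} (hab : a ≠ b) (T : ℕ) (hT : 1 ≤ T) :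
    (univ.filter (fun f : α ≃ Fin M => ((f a : Fin M) : ℕ) = (f b : Fin M) + T)).card
      ≤ (M - T) * (M - 2).factorial := by
  classical
  have hsub : univ.filter (fun f : α ≃ Fin M => ((f a : Fin M) : ℕ) = (f b : Fin M) + T)
      ⊆ (univ.filter (fun w : Fin M => (w : ℕ) + T < M)).biUnion
        (fun w => univ.filter (fun f : α ≃ Fin M => ((f a : Fin M) : ℕ) = w + T ∧ f b = w)) := by
    intro f hf
    rw [Finset.mem_filter] at hf
    rw [Finset.mem_biUnion]
    refine ⟨f b, ?_, ?_⟩
    · rw [Finset.mem_filter]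
      refine ⟨mem_univ _, ?_⟩
      rw [← hf.2]
      exact (f a).2
    · rw [Finset.mem_filter]
      exact ⟨mem_univ _, hf.2, rfl⟩
  have hcard : (univ.filter (fun w : Fin M => (w : ℕ) + T < M)).card ≤ M - T := by
    calc (univ.filter (fun w : Fin M => (w : ℕ) + T < M)).card
        ≤ (Finset.range (M - T)).card := by
          apply Finset.card_le_card_of_injOn (fun w : Fin M => (w : ℕ))
          · intro w hw
            have : (w : ℕ) + T < M := by simpa using hw
            simp only [Finset.coe_range, Set.mem_Iio]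
            omega
          · intro w _ w' _ h
            exact Fin.ext h
      _ = M - T := Finset.card_range _
  calc _ ≤ _ := Finset.card_le_card hsub
    _ ≤ ∑ w ∈ univ.filter (fun w : Fin M => (w : ℕ) + T < M),
        (univ.filter (fun f : α ≃ Fin M => ((f a : Fin M) : ℕ) = w + T ∧ f b = w)).card :=
        Finset.card_biUnion_le
    _ ≤ ∑ w ∈ univ.filter (fun w : Fin M => (w : ℕ) + T < M), (M - 2).factorial := by
        apply Finset.sum_le_sum
        intro w hw
        rw [Finset.mem_filter] at hw
        have hne : (⟨(w : ℕ) + T, hw.2⟩ : Fin M) ≠ w := by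
          intro h
          have := congrArg Fin.val h
          simp only at this
          omega
        rw [← card_fix2 hM hab hne]
        apply Finset.card_le_card
        intro f hf
        rw [Finset.mem_filter] at hf ⊢
        exact ⟨mem_univ _, Fin.ext hf.2.1, hf.2.2⟩
    _ = (univ.filter (fun w : Fin M => (w : ℕ) + T < M)).card * (M - 2).factorial := by
        rw [Finset.sum_const, smul_eq_mul]
    _ ≤ (M - T) * (M - 2).factorial := Nat.mul_le_mul_right _ hcard

/-- difference of the sums over `A` and `B`. -/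
def D (A B : Finset α) (f : α ≃ Fin M) : ℤ :=
  ∑ a ∈ A, (((f a : Fin M) : ℕ) : ℤ) - ∑ b ∈ B, (((f b : Fin M) : ℕ) : ℤ)

lemma rotFun_cong (lo hi j v : ℕ) :
    ((hi - lo : ℕ) : ℤ) ∣ (rotFun lo hi j v : ℤ) - (v + (if lo ≤ v ∧ v < hi then (j : ℤ) else 0)) := by
  unfold rotFun
  split_ifs with h
  · have h1 : ((hi - lo : ℕ) : ℤ) ∣ (((v - lo + j) % (hi - lo) : ℕ) : ℤ) - ((v - lo + j : ℕ) : ℤ) := by
        exact (Nat.modEq_iff_dvd).mp (Nat.mod_modEq _ _).symm
    have h2 : ((lo + (v - lo + j) % (hi - lo) : ℕ) : ℤ) - ((v : ℤ) + j)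
        = (((v - lo + j) % (hi - lo) : ℕ) : ℤ) - ((v - lo + j : ℕ) : ℤ) := by
      push_cast [Nat.cast_sub h.1]
      ring
    rw [h2]
    exact h1
  · simp

end

end Pool.Agent.helper6.LA
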