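import Pool.Agent.helper6.LA.Count

/-! Counting lemma for two disjoint sets of equal size. -/

namespace Pool.Agent.helper6.LA

open Finset

section

variable {α : Type*} [Fintype α] [DecidableEq α] {M : ℕ}

omit [Fintype α] [DecidableEq α] in
lemma sum_rot (A : Finset α) (f : α ≃ Fin M) (lo hi j : ℕ) (h : hi ≤ M) :
    ((hi - lo : ℕ) : ℤ) ∣ (∑ a ∈ A, ((((f.trans (rotP lo hi h j)) a : Fin M) : ℕ) : ℤ))
      - ((∑ a ∈ A, (((f a : Fin M) : ℕ) : ℤ))
        + j * ((A.filter (fun a => lo ≤ ((f a : Fin M) : ℕ) ∧ ((f a : Fin M) : ℕ) < hi)).card : ℤ)) := by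
  have h1 : (j : ℤ) * ((A.filter (fun a => lo ≤ ((f a : Fin M) : ℕ) ∧ ((f a : Fin M) : ℕ) < hi)).card : ℤ)
      = ∑ a ∈ A, (if lo ≤ ((f a : Fin M) : ℕ) ∧ ((f a : Fin M) : ℕ) < hi then (j : ℤ) else 0) := by
    rw [← Finset.sum_filter, Finset.sum_const, nsmul_eq_mul, mul_comm]
  rw [h1, ← Finset.sum_add_distrib, ← Finset.sum_sub_distrib]
  apply Finset.dvd_sum
  intro a _
  exact rotFun_cong lo hi j _

omit [Fintype α] [DecidableEq α] in
lemma D_rot (A B : Finset α) (f : α ≃ Fin M) (lo hi j : ℕ) (h : hi ≤ M) :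
    ((hi - lo : ℕ) : ℤ) ∣ D A B (f.trans (rotP lo hi h j))
      - (D A B f + j * (((A.filter (fun a => lo ≤ ((f a : Fin M) : ℕ) ∧ ((f a : Fin M) : ℕ) < hi)).card : ℤ)
        - ((B.filter (fun a => lo ≤ ((f a : Fin M) : ℕ) ∧ ((f a : Fin M) : ℕ) < hi)).card : ℤ))) := by
  have hA := sum_rot A f lo hi j h
  have hB := sum_rot B f lo hi j h
  have := dvd_sub hA hB
  unfold D
  refine (dvd_iff_dvd_of_dvd_sub ?_).mp this
  have e : ∀ a b c d e f : ℤ, (a - (b + e)) - (c - (d + f)) - ((a - c) - (b - d + (e - f))) = 0 := by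
    intros; ring
  rw [mul_sub]
  rw [e]
  exact dvd_zero _

/-- the maximal value on `C`. -/
def mx (C : Finset α) (f : α ≃ Fin M) : ℕ := C.sup (fun c => ((f c : Fin M) : ℕ))

omit [Fintype α] [DecidableEq α] in
lemma mx_spec {C : Finset α} (hC : C.Nonempty) (f : α ≃ Fin M) :
    ∃ c0 ∈ C, ((f c0 : Fin M) : ℕ) = mx C f ∧ ∀ c ∈ C, c ≠ c0 → ((f c : Fin M) : ℕ) < mx C f := by
  obtain ⟨c0, h0, h1⟩ := Finset.exists_mem_eq_sup C hC (fun c => ((f c : Fin M) : ℕ))
  refine ⟨c0, h0, h1.symm, ?_⟩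
  intro c hc hne
  have h2 : ((f c : Fin M) : ℕ) ≤ mx C f := Finset.le_sup (f := fun c => ((f c : Fin M) : ℕ)) hc
  rcases Nat.lt_or_ge ((f c : Fin M) : ℕ) (mx C f) with h | h
  · exact h
  · exfalso
    apply hne
    apply f.injective
    apply Fin.ext
    have : mx C f = ((f c0 : Fin M) : ℕ) := h1
    omega

omit [Fintype α] [DecidableEq α] in
lemma mx_unique {C : Finset α} (f : α ≃ Fin M) (c0 : α) (h0 : c0 ∈ C)
    (h1 : ∀ c ∈ C, c ≠ c0 → ((f c : Fin M) : ℕ) < ((f c0 : Fin M) : ℕ)) :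
    mx C f = ((f c0 : Fin M) : ℕ) := by
  classical
  apply le_antisymm
  · apply Finset.sup_le
    intro c hc
    by_cases h : c = c0
    · rw [h]
    · exact (h1 c hc h).le
  · exact Finset.le_sup (f := fun c => ((f c : Fin M) : ℕ)) h0

omit [Fintype α] [DecidableEq α] in
lemma mx_lt {C : Finset α} (hC : C.Nonempty) (f : α ≃ Fin M) : mx C f < M := by
  obtain ⟨c0, _, h1, _⟩ := mx_spec hC f
  rw [← h1]; exact (f c0).2

omit [Fintype α] [DecidableEq α] in
lemma mx_rot {C : Finset α} (hC : C.Nonempty) (f : α ≃ Fin M) (p j : ℕ) (hp : p ≤ M) (h : mx C f = p) :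
    mx C (f.trans (rotP 0 p hp j)) = p := by
  obtain ⟨c0, h0, h1, h2⟩ := mx_spec hC f
  have e : (((f.trans (rotP 0 p hp j)) c0 : Fin M) : ℕ) = p := by
    rw [Equiv.trans_apply, rotP_val, rotFun_of_not (by omega)]
    omega
  rw [mx_unique (C := C) (f.trans (rotP 0 p hp j)) c0 h0, e]
  intro c hc hne
  rw [e, Equiv.trans_apply, rotP_val]
  have := h2 c hc hne
  exact (rotFun_mem (by omega) (by omega)).2

omit [Fintype α] [DecidableEq α] in
lemma mx_ref {C : Finset α} (hC : C.Nonempty) (f : α ≃ Fin M) (p : ℕ) (hp : p ≤ M) (h : mx C f = p)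
    (hz : ∀ c ∈ C, ((f c : Fin M) : ℕ) ≠ 0) :
    mx C (f.trans (refP p hp)) = p := by
  obtain ⟨c0, h0, h1, h2⟩ := mx_spec hC f
  have e : (((f.trans (refP p hp)) c0 : Fin M) : ℕ) = p := by
    rw [Equiv.trans_apply, refP_val]
    unfold refFun
    rw [if_neg (by omega)]
    omega
  rw [mx_unique (C := C) (f.trans (refP p hp)) c0 h0, e]
  intro c hc hne
  rw [e, Equiv.trans_apply, refP_val]
  have := h2 c hc hne
  have := hz c hc
  unfold refFun
  rw [if_pos (by omega)]
  omega

/-- an involution swapping two disjoint finsets of the same size. -/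
lemma exists_swap (A B : Finset α) (hd : Disjoint A B) (hc : A.card = B.card) :
    ∃ π : Equiv.Perm α, A.map π.toEmbedding = B ∧ B.map π.toEmbedding = A := by
  classical
  let e : A ≃ B := Finset.equivOfCardEq hc
  let g : α → α := fun x => if h : x ∈ A then (e ⟨x, h⟩ : α) else if h' : x ∈ B then (e.symm ⟨x, h'⟩ : α) else x
  have hgA : ∀ x (h : x ∈ A), g x = e ⟨x, h⟩ := fun x h => by simp only [g]; rw [dif_pos h]
  have hgB : ∀ x (h : x ∈ B), g x = e.symm ⟨x, h⟩ := fun x h => by
    have hx : x ∉ A := fun hA => (Finset.disjoint_left.mp hd hA) h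
    simp only [g]; rw [dif_neg hx, dif_pos h]
  have hinv : Function.Involutive g := by
    intro x
    by_cases hA : x ∈ A
    · rw [hgA x hA, hgB _ (e ⟨x, hA⟩).2]
      simp
    · by_cases hB : x ∈ B
      · rw [hgB x hB, hgA _ (e.symm ⟨x, hB⟩).2]
        simp
      · have : g x = x := by simp only [g]; rw [dif_neg hA, dif_neg hB]
        rw [this, this]
  refine ⟨hinv.toPerm, ?_, ?_⟩
  · apply Finset.eq_of_subset_of_card_le
    · intro y hy
      rw [Finset.mem_map] at hy
      obtain ⟨x, hx, rfl⟩ := hy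
      show g x ∈ B
      rw [hgA x hx]
      exact (e ⟨x, hx⟩).2
    · rw [Finset.card_map, hc]
  · apply Finset.eq_of_subset_of_card_le
    · intro y hy
      rw [Finset.mem_map] at hy
      obtain ⟨x, hx, rfl⟩ := hy
      show g x ∈ A
      rw [hgB x hx]
      exact (e.symm ⟨x, hx⟩).2
    · rw [Finset.card_map, hc]

/-- few zero values and prescribed difference. -/
lemma count_zero_D (hM : Fintype.card α = M) (A B : Finset α) (c : α) (hM2 : 2 ≤ M)
    (d : ℕ) (hd : 1 ≤ d) (ε : ℤ) (hε : ε = 1 ∨ ε = -1)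
    (hdc : (((A.erase c).card : ℤ) - ((B.erase c).card : ℤ)) = ε * d) (T : ℤ) :
    (univ.filter (fun f : α ≃ Fin M => ((f c : Fin M) : ℕ) = 0 ∧ D A B f = T)).card
      ≤ d * (M - 2).factorial := by
  classical
  set S : Finset (α ≃ Fin M) := univ.filter (fun f : α ≃ Fin M => ((f c : Fin M) : ℕ) = 0) with hS
  have hScard : S.card = (M - 1) * (M - 2).factorial := by
    have h1 := card_fix1 hM c (⟨0, by omega⟩ : Fin M)
    have h2 : S = univ.filter (fun f : α ≃ Fin M => f c = (⟨0, by omega⟩ : Fin M)) := by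
      rw [hS]
      apply Finset.filter_congr
      intro f _
      constructor
      · intro h; exact Fin.ext h
      · intro h; rw [h]
    rw [h2, h1]
    have := Nat.mul_factorial_pred (n := M - 1) (by omega)
    rw [show M - 1 - 1 = M - 2 by omega] at this
    exact this.symm
  have havg := avg S (M - 1) (fun j => rotP 1 M le_rfl j) (by
    intro j _ f hf
    rw [hS, Finset.mem_filter] at hf ⊢
    refine ⟨mem_univ _, ?_⟩
    rw [Equiv.trans_apply, rotP_val, rotFun_of_not (by omega)]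
    exact hf.2) (fun f => D A B f = T)
  have hle : ∑ f ∈ S, ((Finset.range (M - 1)).filter
      (fun j => D A B (f.trans (rotP 1 M le_rfl j)) = T)).card ≤ ∑ f ∈ S, d := by
    apply Finset.sum_le_sum
    intro f hf
    rw [hS, Finset.mem_filter] at hf
    have key : ∀ (X : Finset α), (X.filter (fun a => 1 ≤ ((f a : Fin M) : ℕ) ∧ ((f a : Fin M) : ℕ) < M))
        = X.erase c := by
      intro X
      ext a
      rw [Finset.mem_filter, Finset.mem_erase]
      constructor
      · rintro ⟨h1, h2, _⟩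
        refine ⟨?_, h1⟩
        rintro rfl
        omega
      · rintro ⟨h1, h2⟩
        refine ⟨h2, ?_, (f a).2⟩
        rcases Nat.eq_zero_or_pos ((f a : Fin M) : ℕ) with h | h
        · exfalso
          apply h1
          apply f.injective
          apply Fin.ext
          omega
        · exact h
    have hcond : ∀ j : ℕ, D A B (f.trans (rotP 1 M le_rfl j)) = T →
        ((M - 1 : ℕ) : ℤ) ∣ (ε * (D A B f - T)) + d * j := by
      intro j hj
      have h1 := D_rot A B f 1 M j le_rfl
      rw [hj, key, key, hdc] at h1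
      have h2 : (ε * (D A B f - T)) + d * j = (-ε) * (T - (D A B f + j * (ε * d))) := by
        rcases hε with rfl | rfl <;> ring
      rw [h2]
      exact Dvd.dvd.mul_left h1 _
    calc _ ≤ ((Finset.range (M - 1)).filter (fun j : ℕ => ((M - 1 : ℕ) : ℤ) ∣
              (ε * (D A B f - T)) + d * j)).card := by
            apply Finset.card_le_card
            intro j hj
            rw [Finset.mem_filter] at hj ⊢
            exact ⟨hj.1, hcond j hj.2⟩
      _ ≤ d := card_dvd (M - 1) (by omega) _ d hd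
  have hfin : (M - 1) * (S.filter (fun f => D A B f = T)).card ≤ (M - 1) * (d * (M - 2).factorial) := by
    rw [havg]
    refine hle.trans ?_
    rw [Finset.sum_const, smul_eq_mul, hScard]
    apply le_of_eq
    ring
  have := Nat.le_of_mul_le_mul_left hfin (by omega)
  rw [hS, Finset.filter_filter] at this
  exact this

end

end Pool.Agent.helper6.LA
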