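import Pool.Agent.helper6.LA.Count2

/-! Counting lemma B2: two disjoint sets of equal size. -/

namespace Pool.Agent.helper6.LA

open Finset

section

variable {α : Type*} [Fintype α] [DecidableEq α] {M : ℕ}

lemma sub_mod_inj {p v w : ℕ} (hv : v < p) (hw : w < p) (h : (p - v) % p = (p - w) % p) : v = w := by
  rcases Nat.eq_zero_or_pos v with h1 | h1 <;> rcases Nat.eq_zero_or_pos w with h2 | h2
  · omega
  · subst h1
    rw [Nat.sub_zero, Nat.mod_self, Nat.mod_eq_of_lt (by omega)] at h
    omega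
  · subst h2
    rw [Nat.sub_zero, Nat.mod_self, Nat.mod_eq_of_lt (by omega)] at h
    omega
  · rw [Nat.mod_eq_of_lt (by omega), Nat.mod_eq_of_lt (by omega)] at h
    omega

/-- rotations giving a zero. -/
lemma zero_rots (C : Finset α) (f : α ≃ Fin M) (p : ℕ) (hp : p ≤ M) (h : mx C f = p)
    (hC : C.Nonempty) :
    C.card - 1 ≤ ((Finset.range p).filter
      (fun j => ∃ c ∈ C, (((f.trans (rotP 0 p hp j)) c : Fin M) : ℕ) = 0)).card := by
  classical
  obtain ⟨c0, h0, h1, h2⟩ := mx_spec hC f
  rw [← Finset.card_erase_of_mem h0]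
  apply Finset.card_le_card_of_injOn (fun c => (p - ((f c : Fin M) : ℕ)) % p)
  · intro c hc
    rw [Finset.mem_coe, Finset.mem_erase] at hc
    have h3 := h2 c hc.2 hc.1
    rw [Finset.mem_coe, Finset.mem_filter, Finset.mem_range]
    refine ⟨Nat.mod_lt _ (by omega), c, hc.2, ?_⟩
    rw [Equiv.trans_apply, rotP_val]
    unfold rotFun
    rw [if_pos (by omega)]
    simp only [Nat.sub_zero, Nat.zero_add, Nat.add_mod_mod]
    rw [show ((f c : Fin M) : ℕ) + (p - ((f c : Fin M) : ℕ)) = p by omega, Nat.mod_self]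
  · intro c hc c' hc' hcc
    rw [Finset.mem_coe, Finset.mem_erase] at hc hc'
    have h3 := h2 c hc.2 hc.1
    have h4 := h2 c' hc'.2 hc'.1
    apply f.injective
    apply Fin.ext
    exact sub_mod_inj (by omega) (by omega) hcc

lemma card_range_part (A : Finset α) (f : α ≃ Fin M) (p : ℕ) (c0 : α) 
    (h1 : ((f c0 : Fin M) : ℕ) = p) (h2 : ∀ c ∈ A, c ≠ c0 → ((f c : Fin M) : ℕ) < p) :
    A.filter (fun a => 0 ≤ ((f a : Fin M) : ℕ) ∧ ((f a : Fin M) : ℕ) < p) = A.erase c0 := by
  ext a
  rw [Finset.mem_filter, Finset.mem_erase]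
  constructor
  · rintro ⟨h3, _, h4⟩
    refine ⟨?_, h3⟩
    rintro rfl
    omega
  · rintro ⟨h3, h4⟩
    exact ⟨h4, Nat.zero_le _, h2 a h4 h3⟩

/-- at most one rotation gives the right residue. -/
lemma residue_rots (A B : Finset α) (hd : Disjoint A B) (hc : A.card = B.card) (f : α ≃ Fin M)
    (p : ℕ) (hp : p ≤ M) (hp0 : 0 < p) (h : mx (A ∪ B) f = p) (hC : (A ∪ B).Nonempty) (T : ℤ) :
    ((Finset.range p).filter
      (fun j => (p : ℤ) ∣ D A B (f.trans (rotP 0 p hp j)) - T)).card ≤ 1 := by
  classical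
  obtain ⟨c0, h0, h1, h2⟩ := mx_spec hC f
  rw [h] at h1 h2
  have hA := card_range_part A f p c0 h1 (fun c hc => h2 c (Finset.mem_union_left _ hc))
  have hB := card_range_part B f p c0 h1 (fun c hc => h2 c (Finset.mem_union_right _ hc))
  have hmain : ∃ ε : ℤ, (ε = 1 ∨ ε = -1) ∧ (((A.erase c0).card : ℤ) - ((B.erase c0).card : ℤ)) = ε := by
    rcases Finset.mem_union.mp h0 with h3 | h3
    · have h4 : c0 ∉ B := Finset.disjoint_left.mp hd h3
      refine ⟨-1, Or.inr rfl, ?_⟩
      rw [Finset.card_erase_of_mem h3, Finset.erase_eq_of_notMem h4]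
      have : 0 < A.card := Finset.card_pos.mpr ⟨c0, h3⟩
      omega
    · have h4 : c0 ∉ A := fun h => Finset.disjoint_left.mp hd h h3
      refine ⟨1, Or.inl rfl, ?_⟩
      rw [Finset.card_erase_of_mem h3, Finset.erase_eq_of_notMem h4]
      have : 0 < B.card := Finset.card_pos.mpr ⟨c0, h3⟩
      omega
  obtain ⟨ε, hε, hdc⟩ := hmain
  have hcond : ∀ j : ℕ, (p : ℤ) ∣ D A B (f.trans (rotP 0 p hp j)) - T →
      (p : ℤ) ∣ (ε * (D A B f - T)) + (1 : ℕ) * j := by
    intro j hj
    have h1 := D_rot A B f 0 p j hp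
    rw [hA, hB, hdc, Nat.sub_zero] at h1
    have h3 := dvd_sub hj h1
    have h2 : (ε * (D A B f - T)) + (1 : ℕ) * j
        = ε * ((D A B (f.trans (rotP 0 p hp j)) - T)
          - (D A B (f.trans (rotP 0 p hp j)) - (D A B f + j * ε))) := by
      rcases hε with rfl | rfl <;> push_cast <;> ring
    rw [h2]
    exact Dvd.dvd.mul_left h3 _
  calc _ ≤ ((Finset.range p).filter (fun j : ℕ => (p : ℤ) ∣
            (ε * (D A B f - T)) + (1 : ℕ) * j)).card := by
          apply Finset.card_le_card
          intro j hj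
          rw [Finset.mem_filter] at hj ⊢
          exact ⟨hj.1, hcond j hj.2⟩
    _ ≤ 1 := card_dvd p hp0 _ 1 le_rfl

/-- main rotation estimate. -/
lemma residue_count (hM : Fintype.card α = M) (A B : Finset α) (hd : Disjoint A B)
    (hc : A.card = B.card) (hA : 1 ≤ A.card) (T : ℤ) :
    (2 * A.card - 1) * (univ.filter (fun f : α ≃ Fin M =>
        ((mx (A ∪ B) f : ℕ) : ℤ) ∣ D A B f - T)).card ≤ 2 * A.card * (M - 1).factorial := by
  classical
  have hCcard : (A ∪ B).card = 2 * A.card := by
    rw [Finset.card_union_of_disjoint hd, ← hc]; ring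
  have hC : (A ∪ B).Nonempty := by
    rw [← Finset.card_pos, hCcard]; omega
  -- level sets
  have hlevel : ∀ p ∈ Finset.range M,
      (2 * A.card - 1) * ((univ.filter (fun f : α ≃ Fin M =>
        ((mx (A ∪ B) f : ℕ) : ℤ) ∣ D A B f - T)).filter (fun f => mx (A ∪ B) f = p)).card
      ≤ ((univ.filter (fun f : α ≃ Fin M => ∃ c ∈ A ∪ B, ((f c : Fin M) : ℕ) = 0)).filter
          (fun f => mx (A ∪ B) f = p)).card := by
    intro p hpM
    rw [Finset.mem_range] at hpM
    have hp : p ≤ M := hpM.le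
    set S : Finset (α ≃ Fin M) := univ.filter (fun f : α ≃ Fin M => mx (A ∪ B) f = p) with hS
    have e1 : ((univ.filter (fun f : α ≃ Fin M =>
        ((mx (A ∪ B) f : ℕ) : ℤ) ∣ D A B f - T)).filter (fun f => mx (A ∪ B) f = p))
        = S.filter (fun f => (p : ℤ) ∣ D A B f - T) := by
      ext f
      rw [hS]
      simp only [Finset.mem_filter, Finset.mem_univ, true_and]
      constructor
      · rintro ⟨h1, h2⟩; rw [h2] at h1; exact ⟨h2, h1⟩
      · rintro ⟨h1, h2⟩; rw [h1]; exact ⟨h2, rfl⟩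
    have e2 : ((univ.filter (fun f : α ≃ Fin M => ∃ c ∈ A ∪ B, ((f c : Fin M) : ℕ) = 0)).filter
          (fun f => mx (A ∪ B) f = p))
        = S.filter (fun f => ∃ c ∈ A ∪ B, ((f c : Fin M) : ℕ) = 0) := by
      rw [hS, Finset.filter_filter, Finset.filter_filter]
      apply Finset.filter_congr
      intro f _
      exact and_comm
    rw [e1, e2]
    have hSstab : ∀ j < p, ∀ f ∈ S, f.trans (rotP 0 p hp j) ∈ S := by
      intro j _ f hf
      rw [hS, Finset.mem_filter] at hf ⊢
      exact ⟨mem_univ _, mx_rot hC f p j hp hf.2⟩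
    rcases Nat.eq_zero_or_pos p with hp0 | hp0
    · -- empty
      have : S = ∅ := by
        rw [Finset.eq_empty_iff_forall_notMem]
        intro f hf
        rw [hS, Finset.mem_filter] at hf
        have h2 : 1 < (A ∪ B).card := by rw [hCcard]; omega
        obtain ⟨a, ha, b, hb, hab⟩ := Finset.one_lt_card.mp h2
        have h3 : ((f a : Fin M) : ℕ) ≤ mx (A ∪ B) f :=
          Finset.le_sup (f := fun c => ((f c : Fin M) : ℕ)) ha
        have h4 : ((f b : Fin M) : ℕ) ≤ mx (A ∪ B) f :=
          Finset.le_sup (f := fun c => ((f c : Fin M) : ℕ)) hb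
        apply hab
        apply f.injective
        apply Fin.ext
        omega
      rw [this]
      simp
    · have a1 := avg S p (fun j => rotP 0 p hp j) hSstab (fun f => (p : ℤ) ∣ D A B f - T)
      have a2 := avg S p (fun j => rotP 0 p hp j) hSstab
        (fun f => ∃ c ∈ A ∪ B, ((f c : Fin M) : ℕ) = 0)
      have b1 : p * (S.filter (fun f => (p : ℤ) ∣ D A B f - T)).card ≤ S.card := by
        rw [a1]
        calc _ ≤ ∑ f ∈ S, 1 := by
              apply Finset.sum_le_sum
              intro f hf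
              rw [hS, Finset.mem_filter] at hf
              exact residue_rots A B hd hc f p hp hp0 hf.2 hC T
          _ = S.card := by simp
      have b2 : S.card * (2 * A.card - 1)
          ≤ p * (S.filter (fun f => ∃ c ∈ A ∪ B, ((f c : Fin M) : ℕ) = 0)).card := by
        rw [a2]
        calc S.card * (2 * A.card - 1) = ∑ f ∈ S, (2 * A.card - 1) := by
              rw [Finset.sum_const, smul_eq_mul]
          _ ≤ _ := by
              apply Finset.sum_le_sum
              intro f hf
              rw [hS, Finset.mem_filter] at hf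
              have := zero_rots (A ∪ B) f p hp hf.2 hC
              rw [hCcard] at this
              exact this
      have b3 : p * ((2 * A.card - 1) * (S.filter (fun f => (p : ℤ) ∣ D A B f - T)).card)
          ≤ p * (S.filter (fun f => ∃ c ∈ A ∪ B, ((f c : Fin M) : ℕ) = 0)).card := by
        calc p * ((2 * A.card - 1) * (S.filter (fun f => (p : ℤ) ∣ D A B f - T)).card)
            = (2 * A.card - 1) * (p * (S.filter (fun f => (p : ℤ) ∣ D A B f - T)).card) := by ring
          _ ≤ (2 * A.card - 1) * S.card := Nat.mul_le_mul_left _ b1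
          _ = S.card * (2 * A.card - 1) := mul_comm _ _
          _ ≤ _ := b2
      exact Nat.le_of_mul_le_mul_left b3 hp0
  have hsum1 := Finset.card_eq_sum_card_fiberwise
      (s := univ.filter (fun f : α ≃ Fin M => ((mx (A ∪ B) f : ℕ) : ℤ) ∣ D A B f - T))
      (f := fun f : α ≃ Fin M => mx (A ∪ B) f) (t := Finset.range M)
      (fun f _ => by
        rw [Finset.mem_coe, Finset.mem_range]
        exact mx_lt hC f)
  have hsum2 := Finset.card_eq_sum_card_fiberwise
      (s := univ.filter (fun f : α ≃ Fin M => ∃ c ∈ A ∪ B, ((f c : Fin M) : ℕ) = 0))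
      (f := fun f : α ≃ Fin M => mx (A ∪ B) f) (t := Finset.range M)
      (fun f _ => by
        rw [Finset.mem_coe, Finset.mem_range]
        exact mx_lt hC f)
  calc (2 * A.card - 1) * (univ.filter (fun f : α ≃ Fin M =>
        ((mx (A ∪ B) f : ℕ) : ℤ) ∣ D A B f - T)).card
      ≤ (univ.filter (fun f : α ≃ Fin M => ∃ c ∈ A ∪ B, ((f c : Fin M) : ℕ) = 0)).card := by
        rw [hsum1, hsum2, Finset.mul_sum]
        exact Finset.sum_le_sum hlevel
    _ ≤ ((A ∪ B).biUnion (fun c => univ.filter (fun f : α ≃ Fin M => ((f c : Fin M) : ℕ) = 0))).card := by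
        apply Finset.card_le_card
        intro f hf
        rw [Finset.mem_filter] at hf
        obtain ⟨_, c, hc, h⟩ := hf
        rw [Finset.mem_biUnion]
        exact ⟨c, hc, by rw [Finset.mem_filter]; exact ⟨mem_univ _, h⟩⟩
    _ ≤ ∑ c ∈ A ∪ B, (univ.filter (fun f : α ≃ Fin M => ((f c : Fin M) : ℕ) = 0)).card :=
        Finset.card_biUnion_le
    _ ≤ ∑ c ∈ A ∪ B, (M - 1).factorial := by
        apply Finset.sum_le_sum
        intro c _
        rcases Nat.eq_zero_or_pos M with h0 | h0
        · have hce : (univ.filter (fun f : α ≃ Fin M => ((f c : Fin M) : ℕ) = 0)).card ≤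
              (univ : Finset (α ≃ Fin M)).card := Finset.card_filter_le _ _
          rw [card_all hM, h0] at hce
          rw [h0]
          simpa using hce
        · rw [← card_fix1 hM c (⟨0, h0⟩ : Fin M)]
          apply Finset.card_le_card
          intro f hf
          rw [Finset.mem_filter] at hf ⊢
          exact ⟨mem_univ _, Fin.ext hf.2⟩
    _ = 2 * A.card * (M - 1).factorial := by
        rw [Finset.sum_const, smul_eq_mul, hCcard]

omit [Fintype α] in
lemma sum_ref (A : Finset α) (f : α ≃ Fin M) (p : ℕ) (hp : p ≤ M) (c0 : α)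
    (h1 : ((f c0 : Fin M) : ℕ) = p) (h2 : ∀ c ∈ A, c ≠ c0 → ((f c : Fin M) : ℕ) < p)
    (hz : ∀ c ∈ A, ((f c : Fin M) : ℕ) ≠ 0) :
    (∑ a ∈ A, ((((f.trans (refP p hp)) a : Fin M) : ℕ) : ℤ))
      = A.card * p - ∑ a ∈ A, (((f a : Fin M) : ℕ) : ℤ) + (if c0 ∈ A then (p : ℤ) else 0) := by
  classical
  have e1 : (if c0 ∈ A then (p : ℤ) else 0) = ∑ a ∈ A, (if a = c0 then (p : ℤ) else 0) := by
    rw [Finset.sum_ite_eq']
  have e2 : (A.card : ℤ) * p = ∑ a ∈ A, (p : ℤ) := by
    rw [Finset.sum_const, nsmul_eq_mul]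
  rw [e1, e2, ← Finset.sum_sub_distrib, ← Finset.sum_add_distrib]
  apply Finset.sum_congr rfl
  intro a ha
  rw [Equiv.trans_apply, refP_val]
  unfold refFun
  by_cases h : a = c0
  · subst h
    rw [if_neg (by omega), if_pos rfl, h1]
    ring
  · have := h2 a ha h
    have := hz a ha
    rw [if_pos (by omega), if_neg h, Nat.cast_sub (by omega)]
    ring

/-- Lemma B2. -/
lemma B2 (hM : Fintype.card α = M) (A B : Finset α) (hd : Disjoint A B)
    (hc : A.card = B.card) (hA : 1 ≤ A.card) (T : ℤ) :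
    2 * ((2 * A.card - 1) * (univ.filter (fun f : α ≃ Fin M => D A B f = T)).card)
      ≤ 2 * A.card * (M - 1).factorial + (2 * A.card - 1) * (2 * A.card * (M - 2).factorial) := by
  classical
  have hCcard : (A ∪ B).card = 2 * A.card := by
    rw [Finset.card_union_of_disjoint hd, ← hc]; ring
  have hC : (A ∪ B).Nonempty := by
    rw [← Finset.card_pos, hCcard]; omega
  have hM2 : 2 ≤ M := by
    have := Finset.card_le_univ (A ∪ B)
    rw [hCcard, hM] at this
    omega
  obtain ⟨π, hπA, hπB⟩ := exists_swap A B hd hc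
  have hπC : (A ∪ B).map π.toEmbedding = A ∪ B := by
    rw [Finset.map_union, hπA, hπB, Finset.union_comm]
  -- the three sets
  set N := univ.filter (fun f : α ≃ Fin M => D A B f = T) with hN
  set N0 := N.filter (fun f => ∀ c ∈ A ∪ B, ((f c : Fin M) : ℕ) ≠ 0) with hN0
  set N1 := N.filter (fun f => ¬ ∀ c ∈ A ∪ B, ((f c : Fin M) : ℕ) ≠ 0) with hN1
  have hsplit : N0.card + N1.card = N.card := Finset.card_filter_add_card_filter_not _
  have hN1le : N1.card ≤ 2 * A.card * (M - 2).factorial := by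
    calc N1.card ≤ ((A ∪ B).biUnion (fun c => univ.filter
            (fun f : α ≃ Fin M => ((f c : Fin M) : ℕ) = 0 ∧ D A B f = T))).card := by
          apply Finset.card_le_card
          intro f hf
          rw [hN1, Finset.mem_filter, hN, Finset.mem_filter] at hf
          obtain ⟨⟨_, h1⟩, h2⟩ := hf
          push Not at h2
          obtain ⟨c, hc, h3⟩ := h2
          rw [Finset.mem_biUnion]
          exact ⟨c, hc, by rw [Finset.mem_filter]; exact ⟨mem_univ _, h3, h1⟩⟩
      _ ≤ ∑ c ∈ A ∪ B, (univ.filter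
            (fun f : α ≃ Fin M => ((f c : Fin M) : ℕ) = 0 ∧ D A B f = T)).card :=
          Finset.card_biUnion_le
      _ ≤ ∑ c ∈ A ∪ B, 1 * (M - 2).factorial := by
          apply Finset.sum_le_sum
          intro c hcC
          rcases Finset.mem_union.mp hcC with h3 | h3
          · have h4 : c ∉ B := Finset.disjoint_left.mp hd h3
            apply count_zero_D hM A B c hM2 1 le_rfl (-1) (Or.inr rfl)
            rw [Finset.card_erase_of_mem h3, Finset.erase_eq_of_notMem h4]
            omega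
          · have h4 : c ∉ A := fun h => Finset.disjoint_left.mp hd h h3
            apply count_zero_D hM A B c hM2 1 le_rfl 1 (Or.inl rfl)
            rw [Finset.card_erase_of_mem h3, Finset.erase_eq_of_notMem h4]
            omega
      _ = 2 * A.card * (M - 2).factorial := by
          rw [Finset.sum_const, smul_eq_mul, hCcard, one_mul]
  set X := univ.filter (fun f : α ≃ Fin M => ((mx (A ∪ B) f : ℕ) : ℤ) ∣ D A B f - T) with hX
  -- the injection
  let Φ : (α ≃ Fin M) → (α ≃ Fin M) := fun f => π.trans (f.trans (refP (mx (A ∪ B) f) (mx_lt hC f).le))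
  have hmxπ : ∀ g : α ≃ Fin M, mx (A ∪ B) (π.trans g) = mx (A ∪ B) g := by
    intro g
    unfold mx
    conv_rhs => rw [← hπC]
    rw [Finset.sup_map]
    rfl
  have hDπ : ∀ g : α ≃ Fin M, D A B (π.trans g) = - D A B g := by
    intro g
    have e1 : ∑ a ∈ A, (((π.trans g) a : Fin M) : ℕ) = ∑ b ∈ B, ((g b : Fin M) : ℕ) := by
      rw [← hπA, Finset.sum_map]; rfl
    have e2 : ∑ b ∈ B, (((π.trans g) b : Fin M) : ℕ) = ∑ a ∈ A, ((g a : Fin M) : ℕ) := by
      conv_rhs => rw [← hπB]
      rw [Finset.sum_map]; rfl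
    unfold D
    have e1' : ∑ a ∈ A, ((((π.trans g) a : Fin M) : ℕ) : ℤ) = ∑ b ∈ B, (((g b : Fin M) : ℕ) : ℤ) := by
      exact_mod_cast e1
    have e2' : ∑ b ∈ B, ((((π.trans g) b : Fin M) : ℕ) : ℤ) = ∑ a ∈ A, (((g a : Fin M) : ℕ) : ℤ) := by
      exact_mod_cast e2
    rw [e1', e2']
    ring
  have hmxpos : ∀ f : α ≃ Fin M, 0 < mx (A ∪ B) f := by
    intro f
    by_contra hcon
    have h2 : 1 < (A ∪ B).card := by rw [hCcard]; omega
    obtain ⟨a, ha, b, hb, hab⟩ := Finset.one_lt_card.mp h2
    have h3 : ((f a : Fin M) : ℕ) ≤ mx (A ∪ B) f :=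
      Finset.le_sup (f := fun c => ((f c : Fin M) : ℕ)) ha
    have h4 : ((f b : Fin M) : ℕ) ≤ mx (A ∪ B) f :=
      Finset.le_sup (f := fun c => ((f c : Fin M) : ℕ)) hb
    apply hab
    apply f.injective
    apply Fin.ext
    omega
  have hΦmx : ∀ f ∈ N0, mx (A ∪ B) (Φ f) = mx (A ∪ B) f := by
    intro f hf
    rw [hN0, Finset.mem_filter] at hf
    show mx (A ∪ B) (π.trans _) = _
    rw [hmxπ, mx_ref hC f _ (mx_lt hC f).le rfl hf.2]
  have hΦD : ∀ f ∈ N0, D A B (Φ f) = D A B f - mx (A ∪ B) f ∨ D A B (Φ f) = D A B f + mx (A ∪ B) f := by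
    intro f hf
    rw [hN0, Finset.mem_filter] at hf
    obtain ⟨c0, h0, h1, h2⟩ := mx_spec hC f
    have s1 := sum_ref A f (mx (A ∪ B) f) (mx_lt hC f).le c0 h1
      (fun c hc => h2 c (Finset.mem_union_left _ hc)) (fun c hc => hf.2 c (Finset.mem_union_left _ hc))
    have s2 := sum_ref B f (mx (A ∪ B) f) (mx_lt hC f).le c0 h1
      (fun c hc => h2 c (Finset.mem_union_right _ hc)) (fun c hc => hf.2 c (Finset.mem_union_right _ hc))
    have s3 : D A B (Φ f) = - D A B (f.trans (refP (mx (A ∪ B) f) (mx_lt hC f).le)) := hDπ _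
    rw [s3]
    unfold D
    rw [s1, s2, hc]
    rcases Finset.mem_union.mp h0 with h3 | h3
    · have h4 : c0 ∉ B := Finset.disjoint_left.mp hd h3
      rw [if_pos h3, if_neg h4]
      left; ring
    · have h4 : c0 ∉ A := fun h => Finset.disjoint_left.mp hd h h3
      rw [if_neg h4, if_pos h3]
      right; ring
  have hinj : N0.card ≤ (X.filter (fun f => ¬ D A B f = T)).card := by
    apply Finset.card_le_card_of_injOn Φ
    · intro f hf
      rw [Finset.mem_coe] at hf
      have hf2 := hf
      rw [hN0, Finset.mem_filter, hN, Finset.mem_filter] at hf2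
      have hDT := hf2.1.2
      rw [Finset.mem_coe, Finset.mem_filter, hX, Finset.mem_filter]
      have hp := hmxpos f
      rw [hΦmx f hf]
      rcases hΦD f hf with h | h
      · rw [h, hDT]
        refine ⟨⟨mem_univ _, ?_⟩, ?_⟩
        · rw [show T - (mx (A ∪ B) f : ℤ) - T = -(mx (A ∪ B) f : ℤ) by ring]
          exact (dvd_neg).mpr (dvd_refl _)
        · omega
      · rw [h, hDT]
        refine ⟨⟨mem_univ _, ?_⟩, ?_⟩
        · rw [show T + (mx (A ∪ B) f : ℤ) - T = (mx (A ∪ B) f : ℤ) by ring]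
        · omega
    · intro f hf g hg hfg
      rw [Finset.mem_coe] at hf hg
      have h1 : mx (A ∪ B) f = mx (A ∪ B) g := by
        rw [← hΦmx f hf, ← hΦmx g hg, hfg]
      have hgen : ∀ p q (hp : p ≤ M) (hq : q ≤ M), p = q →
          π.trans (f.trans (refP p hp)) = π.trans (g.trans (refP q hq)) → f = g := by
        intro p q hp hq hpq h
        subst hpq
        apply Equiv.ext
        intro a
        have := congrArg (fun e : α ≃ Fin M => e (π.symm a)) h
        simpa using this
      exact hgen _ _ _ _ h1 hfg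
  have hXsplit : (X.filter (fun f => D A B f = T)).card + (X.filter (fun f => ¬ D A B f = T)).card
      = X.card := Finset.card_filter_add_card_filter_not _
  have hXN : X.filter (fun f => D A B f = T) = N := by
    ext f
    rw [hX, hN, Finset.mem_filter, Finset.mem_filter, Finset.mem_filter]
    constructor
    · rintro ⟨_, h⟩; exact ⟨mem_univ _, h⟩
    · rintro ⟨_, h⟩
      refine ⟨⟨mem_univ _, ?_⟩, h⟩
      rw [h, sub_self]; exact dvd_zero _
  have hres := residue_count hM A B hd hc hA T
  rw [← hX] at hres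
  have h1 : 2 * N.card ≤ X.card + 2 * A.card * (M - 2).factorial := by
    rw [← hXsplit, hXN]; omega
  calc 2 * ((2 * A.card - 1) * N.card) = (2 * A.card - 1) * (2 * N.card) := by ring
    _ ≤ (2 * A.card - 1) * (X.card + 2 * A.card * (M - 2).factorial) := Nat.mul_le_mul_left _ h1
    _ = (2 * A.card - 1) * X.card + (2 * A.card - 1) * (2 * A.card * (M - 2).factorial) := by ring
    _ ≤ _ := Nat.add_le_add_right hres _

end

end Pool.Agent.helper6.LA
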