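import Pool.Agent.helper6.LA.Count2

/-! Counting lemmas C0, C1: two disjoint sets of different sizes. -/

namespace Pool.Agent.helper6.LA

open Finset

section

variable {α : Type*} [Fintype α] [DecidableEq α] {M : ℕ}

omit [Fintype α] [DecidableEq α] in
/-- Lemma C0. -/
lemma C0 (A : Finset α) (f : α ≃ Fin M) (T : ℤ) (hT : (A.card : ℤ) * (M - 1) < T) :
    D A ∅ f ≠ T := by
  unfold D
  rw [Finset.sum_empty, sub_zero]
  have : ∑ a ∈ A, (((f a : Fin M) : ℕ) : ℤ) ≤ ∑ a ∈ A, ((M : ℤ) - 1) := by
    apply Finset.sum_le_sum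
    intro a _
    have := (f a).2
    omega
  rw [Finset.sum_const, nsmul_eq_mul] at this
  omega

/-- cyclically adjacent values and prescribed difference. -/
lemma count_adj (hM : Fintype.card α = M) (A B : Finset α) (δ : ℕ) (hδ : 1 ≤ δ)
    (hAB : A.card = B.card + δ) (h h2 : α) (hne : h ≠ h2) (T : ℤ) :
    (univ.filter (fun f : α ≃ Fin M => ((f h : Fin M) : ℕ) = (f h2 : Fin M) + 1 ∧ D A B f = T)).card
      ≤ δ * (M - 2).factorial := by
  classical
  have hM2 : 2 ≤ M := by
    rw [← hM]
    exact Fintype.one_lt_card_iff.mpr ⟨h, h2, hne⟩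
  set S : Finset (α ≃ Fin M) :=
    univ.filter (fun f : α ≃ Fin M => (((f h2 : Fin M) : ℕ) + 1) % M = (f h : Fin M)) with hS
  have hScard : S.card ≤ M * (M - 2).factorial := by
    calc S.card ≤ (univ.biUnion (fun w : Fin M => univ.filter (fun f : α ≃ Fin M =>
            f h = (⟨((w : ℕ) + 1) % M, Nat.mod_lt _ (by omega)⟩ : Fin M) ∧ f h2 = w))).card := by
          apply Finset.card_le_card
          intro f hf
          rw [hS, Finset.mem_filter] at hf
          rw [Finset.mem_biUnion]
          refine ⟨f h2, mem_univ _, ?_⟩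
          rw [Finset.mem_filter]
          exact ⟨mem_univ _, Fin.ext hf.2.symm, rfl⟩
      _ ≤ ∑ w : Fin M, (univ.filter (fun f : α ≃ Fin M =>
            f h = (⟨((w : ℕ) + 1) % M, Nat.mod_lt _ (by omega)⟩ : Fin M) ∧ f h2 = w)).card :=
          Finset.card_biUnion_le
      _ = ∑ w : Fin M, (M - 2).factorial := by
          apply Finset.sum_congr rfl
          intro w _
          apply card_fix2 hM hne
          intro heq
          have h1 := congrArg Fin.val heq
          simp only at h1
          have h2 := w.2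
          rcases Nat.lt_or_ge ((w : ℕ) + 1) M with h3 | h3
          · rw [Nat.mod_eq_of_lt h3] at h1; omega
          · have h4 : (w : ℕ) + 1 = M := by omega
            rw [h4, Nat.mod_self] at h1
            omega
      _ = M * (M - 2).factorial := by
          rw [Finset.sum_const, Finset.card_univ, Fintype.card_fin, smul_eq_mul]
  have hstab : ∀ j < M, ∀ f ∈ S, f.trans (rotP 0 M le_rfl j) ∈ S := by
    intro j _ f hf
    rw [hS, Finset.mem_filter] at hf ⊢
    refine ⟨mem_univ _, ?_⟩
    rw [Equiv.trans_apply, Equiv.trans_apply, rotP_val, rotP_val]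
    unfold rotFun
    rw [if_pos ⟨Nat.zero_le _, (f h2).2⟩, if_pos ⟨Nat.zero_le _, (f h).2⟩]
    simp only [Nat.sub_zero, Nat.zero_add]
    rw [← hf.2]
    simp only [Nat.mod_add_mod]
    congr 1
    omega
  have havg := avg S M (fun j => rotP 0 M le_rfl j) hstab (fun f => D A B f = T)
  have hfull : ∀ (f : α ≃ Fin M) (X : Finset α),
      (X.filter (fun a => 0 ≤ ((f a : Fin M) : ℕ) ∧ ((f a : Fin M) : ℕ) < M)) = X := by
    intro f X
    rw [Finset.filter_true_of_mem]
    intro a _
    exact ⟨Nat.zero_le _, (f a).2⟩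
  have hle : ∑ f ∈ S, ((Finset.range M).filter
      (fun j => D A B (f.trans (rotP 0 M le_rfl j)) = T)).card ≤ ∑ f ∈ S, δ := by
    apply Finset.sum_le_sum
    intro f _
    have hcond : ∀ j : ℕ, D A B (f.trans (rotP 0 M le_rfl j)) = T →
        (M : ℤ) ∣ (D A B f - T) + δ * j := by
      intro j hj
      have h1 := D_rot A B f 0 M j le_rfl
      rw [hj, hfull, hfull, hAB, Nat.sub_zero] at h1
      have h2 : (D A B f - T) + δ * j = -(T - (D A B f + j * (((B.card + δ : ℕ) : ℤ) - B.card))) := by
        push_cast; ring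
      rw [h2]
      exact (dvd_neg).mpr h1
    calc _ ≤ ((Finset.range M).filter (fun j : ℕ => (M : ℤ) ∣ (D A B f - T) + δ * j)).card := by
            apply Finset.card_le_card
            intro j hj
            rw [Finset.mem_filter] at hj ⊢
            exact ⟨hj.1, hcond j hj.2⟩
      _ ≤ δ := card_dvd M (by omega) _ δ hδ
  have hfin : M * (S.filter (fun f => D A B f = T)).card ≤ M * (δ * (M - 2).factorial) := by
    rw [havg]
    refine hle.trans ?_
    rw [Finset.sum_const, smul_eq_mul]
    calc S.card * δ ≤ (M * (M - 2).factorial) * δ := Nat.mul_le_mul_right _ hScard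
      _ = M * (δ * (M - 2).factorial) := by ring
  have h3 := Nat.le_of_mul_le_mul_left hfin (by omega)
  refine le_trans (Finset.card_le_card ?_) h3
  intro f hf
  rw [Finset.mem_filter] at hf
  rw [Finset.mem_filter, hS, Finset.mem_filter]
  refine ⟨⟨mem_univ _, ?_⟩, hf.2.2⟩
  rw [← hf.2.1]
  exact Nat.mod_eq_of_lt (f h).2

/-- reflection of the sum. -/
lemma D_ref (A B : Finset α) (f : α ≃ Fin M) (δ : ℕ) (hAB : A.card = B.card + δ) (h : α) (hA : h ∉ A)
    (hB : h ∈ B) (h0 : ((f h : Fin M) : ℕ) = 0) :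
    D A B (f.trans (refP M le_rfl)) = (δ + 1) * M - D A B f := by
  have hval : ∀ c, ((((f.trans (refP M le_rfl)) c : Fin M) : ℕ) : ℤ)
      = (M : ℤ) - (((f c : Fin M) : ℕ) : ℤ) - (if c = h then (M : ℤ) else 0) := by
    intro c
    rw [Equiv.trans_apply, refP_val]
    unfold refFun
    by_cases hc : c = h
    · subst hc
      rw [if_neg (by omega), if_pos rfl, h0]
      simp
    · have h1 : ((f c : Fin M) : ℕ) ≠ 0 := by
        intro h1
        apply hc
        apply f.injective
        apply Fin.ext
        omega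
      have h2 := (f c).2
      rw [if_pos (by omega), if_neg hc, Nat.cast_sub (by omega)]
      ring
  unfold D
  rw [Finset.sum_congr rfl (fun c _ => hval c), Finset.sum_congr rfl (fun c _ => hval c),
    Finset.sum_sub_distrib, Finset.sum_sub_distrib, Finset.sum_sub_distrib, Finset.sum_sub_distrib,
    Finset.sum_ite_eq', Finset.sum_ite_eq', if_neg hA, if_pos hB, Finset.sum_const, Finset.sum_const,
    nsmul_eq_mul, nsmul_eq_mul, hAB]
  push_cast
  ring

lemma count_Z (hM : Fintype.card α = M) (A B : Finset α) (δ : ℕ) (hδ : 1 ≤ δ) (hM3 : 3 ≤ M)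
    (hAB : A.card = B.card + δ) (h : α) (hA : h ∉ A) (hB : h ∈ B) (T : ℤ)
    (hT : (δ : ℤ) * (M - 1) + 1 ≤ T) :
    2 * (univ.filter (fun f : α ≃ Fin M => ((f h : Fin M) : ℕ) = 0 ∧ T ≤ D A B f)).card
      ≤ (M - 1).factorial + (if δ = 1 then 2 else 0) * (M - 2).factorial := by
  classical
  set S : Finset (α ≃ Fin M) := univ.filter (fun f : α ≃ Fin M => ((f h : Fin M) : ℕ) = 0) with hS
  have hScard : S.card = (M - 1).factorial := by
    rw [← card_fix1 hM h (⟨0, by omega⟩ : Fin M), hS]
    congr 1
    apply Finset.filter_congr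
    intro f _
    constructor
    · intro h; exact Fin.ext h
    · intro h; rw [h]
  have hR0 : ∀ f ∈ S, f.trans (refP M le_rfl) ∈ S := by
    intro f hf
    rw [hS, Finset.mem_filter] at hf ⊢
    refine ⟨mem_univ _, ?_⟩
    rw [Equiv.trans_apply, refP_val]
    unfold refFun
    rw [if_neg (by omega)]
    exact hf.2
  have hRinj : ∀ f g : α ≃ Fin M, f.trans (refP M le_rfl) = g.trans (refP M le_rfl) → f = g := by
    intro f g hfg
    apply Equiv.ext
    intro a
    have := congrArg (fun e : α ≃ Fin M => e a) hfg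
    simpa using this
  by_cases h1 : δ = 1
  · subst h1
    rw [if_pos rfl]
    set E := S.filter (fun f => D A B f = M) with hE
    set G := S.filter (fun f => (M : ℤ) < D A B f) with hG
    set L := S.filter (fun f => D A B f < (M : ℤ)) with hL
    have hGL : G.card ≤ L.card := by
      apply Finset.card_le_card_of_injOn (fun f => f.trans (refP M le_rfl))
      · intro f hf
        rw [Finset.mem_coe, hG, Finset.mem_filter] at hf
        rw [Finset.mem_coe, hL, Finset.mem_filter]
        have hf0 : ((f h : Fin M) : ℕ) = 0 := by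
          have := hf.1
          rw [hS, Finset.mem_filter] at this
          exact this.2
        refine ⟨hR0 f hf.1, ?_⟩
        rw [D_ref A B f 1 hAB h hA hB hf0]
        push_cast
        linarith [hf.2]
      · intro f _ g _ hfg
        exact hRinj f g hfg
    have hsum : E.card + G.card + L.card ≤ S.card := by
      rw [← Finset.card_union_of_disjoint, ← Finset.card_union_of_disjoint]
      · apply Finset.card_le_card
        intro f hf
        rw [Finset.mem_union, Finset.mem_union] at hf
        rcases hf with (hf | hf) | hf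
        · exact (Finset.mem_filter.mp hf).1
        · exact (Finset.mem_filter.mp hf).1
        · exact (Finset.mem_filter.mp hf).1
      · rw [Finset.disjoint_left]
        intro f hf hf2
        have h3 := (Finset.mem_filter.mp hf2).2
        rcases Finset.mem_union.mp hf with hf | hf
        · have h2 := (Finset.mem_filter.mp hf).2
          omega
        · have h2 := (Finset.mem_filter.mp hf).2
          omega
      · rw [Finset.disjoint_left]
        intro f hf hf2
        have h2 := (Finset.mem_filter.mp hf).2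
        have h3 := (Finset.mem_filter.mp hf2).2
        omega
    have hEle : E.card ≤ 2 * (M - 2).factorial := by
      have := count_zero_D hM A B h (by omega) 2 (by omega) 1 (Or.inl rfl) (by
        rw [Finset.erase_eq_of_notMem hA, Finset.card_erase_of_mem hB, hAB]
        have : 0 < B.card := Finset.card_pos.mpr ⟨h, hB⟩
        push_cast [Nat.cast_sub (show 1 ≤ B.card by omega)]
        ring) (M : ℤ)
      rw [hE, hS, Finset.filter_filter]
      exact this
    have hZ : (univ.filter (fun f : α ≃ Fin M => ((f h : Fin M) : ℕ) = 0 ∧ T ≤ D A B f)).card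
        ≤ E.card + G.card := by
      rw [← Finset.card_union_of_disjoint]
      · apply Finset.card_le_card
        intro f hf
        rw [Finset.mem_filter] at hf
        have hfS : f ∈ S := by
          rw [hS, Finset.mem_filter]
          exact ⟨mem_univ _, hf.2.1⟩
        have : (M : ℤ) ≤ D A B f := by
          have := hf.2.2
          push_cast at hT
          linarith
        rcases lt_or_eq_of_le this with h5 | h5
        · exact Finset.mem_union_right _ (Finset.mem_filter.mpr ⟨hfS, h5⟩)
        · exact Finset.mem_union_left _ (Finset.mem_filter.mpr ⟨hfS, h5.symm⟩)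
      · rw [Finset.disjoint_left]
        intro f hf hf2
        have h2 := (Finset.mem_filter.mp hf).2
        have h3 := (Finset.mem_filter.mp hf2).2
        omega
    omega
  · rw [if_neg h1, zero_mul, add_zero]
    have hδ2 : 2 ≤ δ := by omega
    set Z := S.filter (fun f => T ≤ D A B f) with hZ
    have hZL : Z.card ≤ (S.filter (fun f => ¬ T ≤ D A B f)).card := by
      apply Finset.card_le_card_of_injOn (fun f => f.trans (refP M le_rfl))
      · intro f hf
        rw [Finset.mem_coe, hZ, Finset.mem_filter] at hf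
        rw [Finset.mem_coe, Finset.mem_filter]
        have hf0 : ((f h : Fin M) : ℕ) = 0 := by
          have := hf.1
          rw [hS, Finset.mem_filter] at this
          exact this.2
        refine ⟨hR0 f hf.1, ?_⟩
        rw [D_ref A B f δ hAB h hA hB hf0]
        push Not
        have h2 := hf.2
        have h3 : (2 : ℤ) ≤ δ := by exact_mod_cast hδ2
        have h4 : (3 : ℤ) ≤ M := by exact_mod_cast hM3
        nlinarith
      · intro f _ g _ hfg
        exact hRinj f g hfg
    have hsum : Z.card + (S.filter (fun f => ¬ T ≤ D A B f)).card = S.card :=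
      Finset.card_filter_add_card_filter_not _
    have hZ' : univ.filter (fun f : α ≃ Fin M => ((f h : Fin M) : ℕ) = 0 ∧ T ≤ D A B f) = Z := by
      rw [hZ, hS, Finset.filter_filter]
    rw [hZ', ← hScard]
    omega

/-- values after moving the value of `h` to `0`. -/
lemma rot1_of_lt {t v : ℕ} (h : v < t) : rotFun 0 (t + 1) 1 v = v + 1 := by
  unfold rotFun
  rw [if_pos (by omega)]
  simp only [Nat.sub_zero, Nat.zero_add]
  exact Nat.mod_eq_of_lt (by omega)

lemma rot1_self (t : ℕ) : rotFun 0 (t + 1) 1 t = 0 := by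
  unfold rotFun
  rw [if_pos (by omega)]
  simp only [Nat.sub_zero, Nat.zero_add, Nat.mod_self]

lemma rot1_of_gt {t v : ℕ} (h : t < v) : rotFun 0 (t + 1) 1 v = v := by
  unfold rotFun
  rw [if_neg (by omega)]

lemma card_val_lt (X : Finset α) (f : α ≃ Fin M) (t : ℕ) :
    (X.filter (fun c => ((f c : Fin M) : ℕ) < t)).card ≤ t := by
  calc _ ≤ (Finset.range t).card := by
        apply Finset.card_le_card_of_injOn (fun c => ((f c : Fin M) : ℕ))
        · intro c hc
          rw [Finset.mem_coe, Finset.mem_filter] at hc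
          rw [Finset.mem_coe, Finset.mem_range]
          exact hc.2
        · intro c _ c' _ hcc
          exact f.injective (Fin.ext hcc)
    _ = t := Finset.card_range t

lemma D_move (A B : Finset α) (f : α ≃ Fin M) (h : α) (hA : h ∉ A) (hB : h ∈ B)
    (hle : ((f h : Fin M) : ℕ) + 1 ≤ M) :
    D A B f ≤ D A B (f.trans (rotP 0 (((f h : Fin M) : ℕ) + 1) hle 1)) := by
  set t := ((f h : Fin M) : ℕ) with ht
  have hval : ∀ c, ((((f.trans (rotP 0 (t + 1) hle 1)) c : Fin M) : ℕ) : ℤ)
      = (((f c : Fin M) : ℕ) : ℤ) + (if ((f c : Fin M) : ℕ) < t then (1 : ℤ) else 0)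
        - (if c = h then (t : ℤ) else 0) := by
    intro c
    rw [Equiv.trans_apply, rotP_val]
    by_cases hc : c = h
    · subst hc
      rw [if_neg (by omega), if_pos rfl, ← ht, rot1_self]
      simp
    · rw [if_neg hc]
      have hne : ((f c : Fin M) : ℕ) ≠ t := by
        intro h1
        apply hc
        apply f.injective
        apply Fin.ext
        omega
      rcases Nat.lt_or_ge ((f c : Fin M) : ℕ) t with h1 | h1
      · rw [if_pos h1, rot1_of_lt h1]
        push_cast; ring
      · rw [if_neg (by omega), rot1_of_gt (by omega)]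
        ring
  unfold D
  rw [Finset.sum_congr rfl (fun c _ => hval c), Finset.sum_congr rfl (fun c _ => hval c),
    Finset.sum_sub_distrib, Finset.sum_sub_distrib, Finset.sum_add_distrib, Finset.sum_add_distrib,
    Finset.sum_ite_eq', Finset.sum_ite_eq', if_neg hA, if_pos hB]
  have h1 : (0 : ℤ) ≤ ∑ a ∈ A, (if ((f a : Fin M) : ℕ) < t then (1 : ℤ) else 0) := by
    apply Finset.sum_nonneg
    intro a _
    split_ifs <;> norm_num
  have h2 : ∑ b ∈ B, (if ((f b : Fin M) : ℕ) < t then (1 : ℤ) else 0) ≤ t := by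
    rw [← Finset.sum_filter, Finset.sum_const, nsmul_eq_mul, mul_one]
    exact_mod_cast card_val_lt B f t
  linarith

lemma move_inj_aux (A B : Finset α) (f g : α ≃ Fin M) (h : α) (hA : h ∉ A) (hB : h ∈ B)
    (hf : ((f h : Fin M) : ℕ) + 1 ≤ M) (hg : ((g h : Fin M) : ℕ) + 1 ≤ M)
    (heq : f.trans (rotP 0 (((f h : Fin M) : ℕ) + 1) hf 1) = g.trans (rotP 0 (((g h : Fin M) : ℕ) + 1) hg 1))
    (hD : D A B f = D A B g) (hgB : ∀ h2 ∈ B.erase h, ((g h : Fin M) : ℕ) ≠ (g h2 : Fin M) + 1)
    (hlt : ((f h : Fin M) : ℕ) < (g h : Fin M)) : False := by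
  classical
  set t1 := ((f h : Fin M) : ℕ) with ht1
  set t2 := ((g h : Fin M) : ℕ) with ht2
  have hval0 : ∀ c, rotFun 0 (t1 + 1) 1 ((f c : Fin M) : ℕ) = rotFun 0 (t2 + 1) 1 ((g c : Fin M) : ℕ) := by
    intro c
    have := congrArg (fun e : α ≃ Fin M => ((e c : Fin M) : ℕ)) heq
    simpa using this
  have hne1 : ∀ c, c ≠ h → ((f c : Fin M) : ℕ) ≠ t1 := by
    intro c hc h1
    exact hc (f.injective (Fin.ext h1))
  have hne2 : ∀ c, c ≠ h → ((g c : Fin M) : ℕ) ≠ t2 := by
    intro c hc h1
    exact hc (g.injective (Fin.ext h1))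
  have hval : ∀ c, ((g c : Fin M) : ℕ) + (if t1 < ((f c : Fin M) : ℕ) ∧ ((f c : Fin M) : ℕ) ≤ t2 then 1 else 0)
      = ((f c : Fin M) : ℕ) + (if c = h then t2 - t1 else 0) := by
    intro c
    by_cases hc : c = h
    · subst hc
      rw [if_neg (by omega), if_pos rfl, ← ht1, ← ht2]
      omega
    · have h3 := hne1 c hc
      have h4 := hne2 c hc
      have h5 := hval0 c
      rw [if_neg hc]
      rcases Nat.lt_or_ge ((f c : Fin M) : ℕ) t1 with h6 | h6 <;>
        rcases Nat.lt_or_ge ((g c : Fin M) : ℕ) t2 with h7 | h7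
      · rw [rot1_of_lt h6, rot1_of_lt h7] at h5
        rw [if_neg (by omega)]; omega
      · rw [rot1_of_lt h6, rot1_of_gt (by omega)] at h5
        omega
      · rw [rot1_of_gt (by omega), rot1_of_lt h7] at h5
        rw [if_pos (by omega)]; omega
      · rw [rot1_of_gt (by omega), rot1_of_gt (by omega)] at h5
        rw [if_neg (by omega)]; omega
  have hsum : ∀ X : Finset α, (∑ c ∈ X, (((g c : Fin M) : ℕ) : ℤ))
      + ((X.filter (fun c => t1 < ((f c : Fin M) : ℕ) ∧ ((f c : Fin M) : ℕ) ≤ t2)).card : ℤ)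
      = (∑ c ∈ X, (((f c : Fin M) : ℕ) : ℤ)) + (if h ∈ X then ((t2 - t1 : ℕ) : ℤ) else 0) := by
    intro X
    have e1 : ∑ c ∈ X, (((g c : Fin M) : ℕ) + (if t1 < ((f c : Fin M) : ℕ) ∧ ((f c : Fin M) : ℕ) ≤ t2 then 1 else 0))
        = ∑ c ∈ X, (((f c : Fin M) : ℕ) + (if c = h then t2 - t1 else 0)) :=
      Finset.sum_congr rfl (fun c _ => hval c)
    rw [Finset.sum_add_distrib, Finset.sum_add_distrib, Finset.sum_ite_eq', ← Finset.card_filter] at e1
    have e2 : ((∑ c ∈ X, ((g c : Fin M) : ℕ)
      + (X.filter (fun c => t1 < ((f c : Fin M) : ℕ) ∧ ((f c : Fin M) : ℕ) ≤ t2)).card : ℕ) : ℤ)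
      = ((∑ c ∈ X, ((f c : Fin M) : ℕ) + (if h ∈ X then t2 - t1 else 0) : ℕ) : ℤ) := by
      exact_mod_cast e1
    push_cast at e2
    split_ifs at e2 ⊢ with hX
    · linarith
    · linarith
  have hsA := hsum A
  have hsB := hsum B
  rw [if_neg hA] at hsA
  rw [if_pos hB] at hsB
  unfold D at hD
  -- the number of elements of `B` in `(t1,t2]`
  have hcB : t2 - t1 ≤ (B.filter (fun c => t1 < ((f c : Fin M) : ℕ) ∧ ((f c : Fin M) : ℕ) ≤ t2)).card := by
    have h1 : (0 : ℤ) ≤ ((A.filter (fun c => t1 < ((f c : Fin M) : ℕ) ∧ ((f c : Fin M) : ℕ) ≤ t2)).card : ℤ) := by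
      positivity
    have : ((t2 - t1 : ℕ) : ℤ) ≤ ((B.filter (fun c => t1 < ((f c : Fin M) : ℕ) ∧ ((f c : Fin M) : ℕ) ≤ t2)).card : ℤ) := by
      linarith
    exact_mod_cast this
  set c0 : α := f.symm ⟨t2, (g h).2⟩ with hc0
  have hfc0 : ((f c0 : Fin M) : ℕ) = t2 := by rw [hc0, Equiv.apply_symm_apply]
  have hc0h : c0 ≠ h := by
    intro h1
    rw [h1, ← ht1] at hfc0
    omega
  by_cases hc0B : c0 ∈ B
  · apply hgB c0 (Finset.mem_erase.mpr ⟨hc0h, hc0B⟩)
    have := hval c0
    rw [if_pos (by omega), if_neg hc0h] at this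
    omega
  · have : (B.filter (fun c => t1 < ((f c : Fin M) : ℕ) ∧ ((f c : Fin M) : ℕ) ≤ t2)).card
        ≤ (Finset.Ioo t1 t2).card := by
      apply Finset.card_le_card_of_injOn (fun c => ((f c : Fin M) : ℕ))
      · intro c hc
        rw [Finset.mem_coe, Finset.mem_filter] at hc
        rw [Finset.mem_coe, Finset.mem_Ioo]
        refine ⟨hc.2.1, lt_of_le_of_ne hc.2.2 ?_⟩
        intro h1
        apply hc0B
        have : c = c0 := f.injective (Fin.ext (by rw [hfc0]; exact h1))
        rw [← this]
        exact hc.1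
      · intro c _ c' _ hcc
        exact f.injective (Fin.ext hcc)
    rw [Nat.card_Ioo] at this
    omega

/-- Lemma C1. -/
lemma C1 (hM : Fintype.card α = M) (A B : Finset α) (hd : Disjoint A B) (δ : ℕ) (hδ : 1 ≤ δ)
    (hM3 : 3 ≤ M) (hAB : A.card = B.card + δ) (hB1 : 1 ≤ B.card) (T : ℤ)
    (hT : (δ : ℤ) * (M - 1) + 1 ≤ T) :
    2 * (univ.filter (fun f : α ≃ Fin M => D A B f = T)).card
      ≤ (M - 1).factorial + ((if δ = 1 then 2 else 0) + 2 * ((B.card - 1) * δ)) * (M - 2).factorial := by
  classical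
  obtain ⟨h, hB⟩ := Finset.card_pos.mp hB1
  have hA : h ∉ A := fun h1 => Finset.disjoint_left.mp hd h1 hB
  set N := univ.filter (fun f : α ≃ Fin M => D A B f = T) with hN
  set N' := N.filter (fun f => ∀ h2 ∈ B.erase h, ((f h : Fin M) : ℕ) ≠ (f h2 : Fin M) + 1) with hN'
  set N'' := N.filter (fun f => ¬ ∀ h2 ∈ B.erase h, ((f h : Fin M) : ℕ) ≠ (f h2 : Fin M) + 1) with hN''
  have hsplit : N'.card + N''.card = N.card := Finset.card_filter_add_card_filter_not _
  have h1 : N''.card ≤ (B.card - 1) * δ * (M - 2).factorial := by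
    calc N''.card ≤ ((B.erase h).biUnion (fun h2 => univ.filter
            (fun f : α ≃ Fin M => ((f h : Fin M) : ℕ) = (f h2 : Fin M) + 1 ∧ D A B f = T))).card := by
          apply Finset.card_le_card
          intro f hf
          rw [hN'', Finset.mem_filter, hN, Finset.mem_filter] at hf
          obtain ⟨⟨_, h1⟩, h2⟩ := hf
          push Not at h2
          obtain ⟨h2, hh2, h3⟩ := h2
          rw [Finset.mem_biUnion]
          exact ⟨h2, hh2, by rw [Finset.mem_filter]; exact ⟨mem_univ _, h3, h1⟩⟩
      _ ≤ ∑ h2 ∈ B.erase h, (univ.filter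
            (fun f : α ≃ Fin M => ((f h : Fin M) : ℕ) = (f h2 : Fin M) + 1 ∧ D A B f = T)).card :=
          Finset.card_biUnion_le
      _ ≤ ∑ h2 ∈ B.erase h, δ * (M - 2).factorial := by
          apply Finset.sum_le_sum
          intro h2 hh2
          exact count_adj hM A B δ hδ hAB h h2 (Finset.ne_of_mem_erase hh2).symm T
      _ = (B.card - 1) * δ * (M - 2).factorial := by
          rw [Finset.sum_const, smul_eq_mul, Finset.card_erase_of_mem hB, mul_assoc]
  have h2 : N'.card ≤ (univ.filter (fun f : α ≃ Fin M => ((f h : Fin M) : ℕ) = 0 ∧ T ≤ D A B f)).card := by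
    apply Finset.card_le_card_of_injOn
      (fun f => f.trans (rotP 0 (((f h : Fin M) : ℕ) + 1) (f h).2 1))
    · intro f hf
      rw [Finset.mem_coe, hN', Finset.mem_filter, hN, Finset.mem_filter] at hf
      rw [Finset.mem_coe, Finset.mem_filter]
      refine ⟨mem_univ _, ?_, ?_⟩
      · rw [Equiv.trans_apply, rotP_val]
        exact rot1_self _
      · rw [← hf.1.2]
        exact D_move A B f h hA hB _
    · intro f hf g hg hfg
      rw [Finset.mem_coe, hN', Finset.mem_filter, hN, Finset.mem_filter] at hf hg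
      have hDfg : D A B f = D A B g := by rw [hf.1.2, hg.1.2]
      rcases lt_trichotomy ((f h : Fin M) : ℕ) ((g h : Fin M) : ℕ) with h3 | h3 | h3
      · exact (move_inj_aux A B f g h hA hB _ _ hfg hDfg hg.2 h3).elim
      · have hgen : ∀ p q (hp : p ≤ M) (hq : q ≤ M), p = q →
            f.trans (rotP 0 p hp 1) = g.trans (rotP 0 q hq 1) → f = g := by
          intro p q hp hq hpq h
          subst hpq
          apply Equiv.ext
          intro a
          have := congrArg (fun e : α ≃ Fin M => e a) h
          simpa using this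
        exact hgen _ _ _ _ (by omega) hfg
      · exact (move_inj_aux A B g f h hA hB _ _ hfg.symm hDfg.symm hf.2 h3).elim
  have h3 := count_Z hM A B δ hδ hM3 hAB h hA hB T hT
  have h4 : ((if δ = 1 then 2 else 0) + 2 * ((B.card - 1) * δ)) * (M - 2).factorial
      = (if δ = 1 then 2 else 0) * (M - 2).factorial + 2 * ((B.card - 1) * δ * (M - 2).factorial) := by
    ring
  rw [h4]
  omega

end

end Pool.Agent.helper6.LA
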