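import Mathlib

/-! Numerical lemmas. -/

namespace Pool.Agent.helper6.LA

open Finset

/-- even offsets -/
def xe (i : ℕ) : ℕ := if i % 2 = 0 then 2 * i + 1 else 2 * i + 2
def ye (i : ℕ) : ℕ := if i % 2 = 0 then 2 * i + 2 else 2 * i + 1

/-- odd offsets -/
def xo (i : ℕ) : ℕ := if i = 0 then 3 else if i = 1 then 4 else if i % 2 = 0 then 2 * i + 2 else 2 * i + 3
def yo (i : ℕ) : ℕ := if i = 0 then 1 else if i = 1 then 5 else if i % 2 = 0 then 2 * i + 3 else 2 * i + 2

lemma xe_mono : StrictMono xe := strictMono_nat_of_lt_succ (fun i => by unfold xe; split_ifs <;> omega)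
lemma ye_mono : StrictMono ye := strictMono_nat_of_lt_succ (fun i => by unfold ye; split_ifs <;> omega)
lemma xo_mono : StrictMono xo := strictMono_nat_of_lt_succ (fun i => by
  rcases i with _ | _ | i
  · decide
  · decide
  · unfold xo
    rw [if_neg (show ¬ (i + 1 + 1 = 0) by omega), if_neg (show ¬ (i + 1 + 1 = 1) by omega),
      if_neg (show ¬ (i + 1 + 1 + 1 = 0) by omega), if_neg (show ¬ (i + 1 + 1 + 1 = 1) by omega)]
    split_ifs <;> omega)
lemma yo_mono : StrictMono yo := strictMono_nat_of_lt_succ (fun i => by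
  rcases i with _ | _ | i
  · decide
  · decide
  · unfold yo
    rw [if_neg (show ¬ (i + 1 + 1 = 0) by omega), if_neg (show ¬ (i + 1 + 1 = 1) by omega),
      if_neg (show ¬ (i + 1 + 1 + 1 = 0) by omega), if_neg (show ¬ (i + 1 + 1 + 1 = 1) by omega)]
    split_ifs <;> omega)

lemma xe_ne_ye (i j : ℕ) : xe i ≠ ye j := by unfold xe ye; split_ifs <;> omega
lemma xo_ne_yo (i j : ℕ) : xo i ≠ yo j := by unfold xo yo; split_ifs <;> omega

lemma xe_pos (i : ℕ) : 1 ≤ xe i := by unfold xe; split_ifs <;> omega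
lemma ye_pos (i : ℕ) : 1 ≤ ye i := by unfold ye; split_ifs <;> omega
lemma xo_three (i : ℕ) : 3 ≤ xo i := by unfold xo; split_ifs <;> omega
lemma yo_pos (i : ℕ) : 1 ≤ yo i := by unfold yo; split_ifs <;> omega
lemma yo_ne_two (i : ℕ) : yo i ≠ 2 := by unfold yo; split_ifs <;> omega
lemma yo_three (i : ℕ) (h : 1 ≤ i) : 3 ≤ yo i := by unfold yo; split_ifs <;> omega
lemma yo_lt (i : ℕ) : yo i < xo i + 2 := by unfold xo yo; split_ifs <;> omega

lemma sum_xe (k : ℕ) : ∑ i ∈ range (2 * k), xe i = k * (4 * k + 1) := by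
  induction k with
  | zero => simp
  | succ k ih =>
    rw [show 2 * (k + 1) = 2 * k + 1 + 1 by ring, Finset.sum_range_succ, Finset.sum_range_succ, ih]
    have h1 : xe (2 * k) = 4 * k + 1 := by unfold xe; rw [if_pos (by omega)]; ring
    have h2 : xe (2 * k + 1) = 4 * k + 4 := by unfold xe; rw [if_neg (by omega)]; ring
    rw [h1, h2]; ring

lemma sum_ye (k : ℕ) : ∑ i ∈ range (2 * k), ye i = k * (4 * k + 1) := by
  induction k with
  | zero => simp
  | succ k ih =>
    rw [show 2 * (k + 1) = 2 * k + 1 + 1 by ring, Finset.sum_range_succ, Finset.sum_range_succ, ih]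
    have h1 : ye (2 * k) = 4 * k + 2 := by unfold ye; rw [if_pos (by omega)]; ring
    have h2 : ye (2 * k + 1) = 4 * k + 3 := by unfold ye; rw [if_neg (by omega)]; ring
    rw [h1, h2]; ring

lemma sum_xo (k : ℕ) : ∑ i ∈ range (2 * (k + 1) + 1), xo i = 4 * (k + 1) * (k + 1) + 7 * (k + 1) + 2 := by
  induction k with
  | zero => decide
  | succ k ih =>
    rw [show 2 * (k + 1 + 1) + 1 = 2 * (k + 1) + 1 + 1 + 1 by ring, Finset.sum_range_succ,
      Finset.sum_range_succ, ih]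
    have h1 : xo (2 * (k + 1) + 1) = 4 * k + 9 := by
      unfold xo; rw [if_neg (by omega), if_neg (by omega), if_neg (by omega)]; ring
    have h2 : xo (2 * (k + 1) + 1 + 1) = 4 * k + 10 := by
      unfold xo; rw [if_neg (by omega), if_neg (by omega), if_pos (by omega)]; ring
    rw [h1, h2]; ring

lemma sum_yo (k : ℕ) : ∑ i ∈ range (2 * (k + 1) + 1), yo i = 4 * (k + 1) * (k + 1) + 7 * (k + 1) + 2 := by
  induction k with
  | zero => decide
  | succ k ih =>
    rw [show 2 * (k + 1 + 1) + 1 = 2 * (k + 1) + 1 + 1 + 1 by ring, Finset.sum_range_succ,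
      Finset.sum_range_succ, ih]
    have h1 : yo (2 * (k + 1) + 1) = 4 * k + 8 := by
      unfold yo; rw [if_neg (by omega), if_neg (by omega), if_neg (by omega)]; ring
    have h2 : yo (2 * (k + 1) + 1 + 1) = 4 * k + 11 := by
      unfold yo; rw [if_neg (by omega), if_neg (by omega), if_pos (by omega)]; ring
    rw [h1, h2]; ring

lemma cov_e (r l : ℕ) (hr : r % 2 = 0) (h1 : 1 ≤ l) (h2 : l ≤ 2 * r) :
    (∃ i < r, xe i = l) ∨ (∃ i < r, ye i = l) ∨ 0 = l := by
  by_cases h : xe ((l - 1) / 2) = l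
  · exact Or.inl ⟨(l - 1) / 2, by omega, h⟩
  · right; left
    refine ⟨(l - 1) / 2, by omega, ?_⟩
    unfold xe at h
    unfold ye
    split_ifs at h ⊢ <;> omega

lemma cov_o (r l : ℕ) (hr : r % 2 = 1) (hr3 : 3 ≤ r) (h1 : 1 ≤ l) (h2 : l ≤ 2 * r + 1) :
    (∃ i < r, xo i = l) ∨ (∃ i < r, yo i = l) ∨ 2 = l := by
  by_cases h5 : l ≤ 5
  · interval_cases l
    · exact Or.inr (Or.inl ⟨0, by omega, rfl⟩)
    · exact Or.inr (Or.inr rfl)
    · exact Or.inl ⟨0, by omega, rfl⟩
    · exact Or.inl ⟨1, by omega, rfl⟩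
    · exact Or.inr (Or.inl ⟨1, by omega, rfl⟩)
  · by_cases h : xo ((l - 2) / 2) = l
    · exact Or.inl ⟨(l - 2) / 2, by omega, h⟩
    · right; left
      refine ⟨(l - 2) / 2, by omega, ?_⟩
      unfold xo at h
      unfold yo
      split_ifs at h ⊢ <;> omega

lemma xe_le {r i : ℕ} (hr : r % 2 = 0) (h : i < r) : xe i ≤ 2 * r := by unfold xe; split_ifs <;> omega
lemma ye_le {r i : ℕ} (h : i < r) : ye i ≤ 2 * r := by unfold ye; split_ifs <;> omega
lemma xo_le {r i : ℕ} (hr : 3 ≤ r) (h : i < r) : xo i ≤ 2 * r + 1 := by unfold xo; split_ifs <;> omega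
lemma yo_le {r i : ℕ} (hr : 3 ≤ r) (h : i < r) : yo i ≤ 2 * r + 1 := by unfold yo; split_ifs <;> omega

lemma fac1 {M : ℕ} (hM : 2 ≤ M) : (M - 1).factorial = (M - 1) * (M - 2).factorial := by
  have := Nat.mul_factorial_pred (n := M - 1) (by omega)
  rw [show M - 1 - 1 = M - 2 by omega] at this
  exact this.symm

lemma fac0 {M : ℕ} (hM : 1 ≤ M) : M.factorial = M * (M - 1).factorial :=
  (Nat.mul_factorial_pred (n := M) (by omega)).symm

/-- bound (iii), general version. -/
lemma num_iii {M s N : ℕ} (hM : 2 ≤ M)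
    (h : 2 * ((2 * s - 1) * N) ≤ 2 * s * (M - 1).factorial + (2 * s - 1) * (2 * s * (M - 2).factorial)) :
    (2 * s - 1) * N ≤ s * (M + 2 * s - 2) * (M - 2).factorial := by
  rcases Nat.eq_zero_or_pos s with h0 | h0
  · subst h0; simp
  rw [fac1 hM] at h
  obtain ⟨m, rfl⟩ := Nat.exists_eq_add_of_le hM
  obtain ⟨t, rfl⟩ := Nat.exists_eq_add_of_le (show 1 ≤ s from h0)
  rw [show 2 * (1 + t) - 1 = 2 * t + 1 by omega, show 2 + m - 1 = m + 1 by omega,
    show 2 + m - 2 = m by omega] at h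
  rw [show 2 * (1 + t) - 1 = 2 * t + 1 by omega, show 2 + m + 2 * (1 + t) - 2 = m + 2 + 2 * t by omega,
    show 2 + m - 2 = m by omega]
  have : 2 * ((2 * t + 1) * N) ≤ 2 * ((1 + t) * (m + 2 + 2 * t) * m.factorial) := by
    refine h.trans (le_of_eq ?_)
    ring
  omega

lemma num_iii_even {M s N : ℕ} (hs : 2 ≤ s) (hM : 2 * s + 4 ≤ M)
    (h : 2 * ((2 * s - 1) * N) ≤ 2 * s * (M - 1).factorial + (2 * s - 1) * (2 * s * (M - 2).factorial)) :
    N < (M - 1).factorial := by
  have h1 := num_iii (by omega) h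
  rw [fac1 (by omega)]
  have hF : 0 < (M - 2).factorial := Nat.factorial_pos _
  have h2 : s * (M + 2 * s - 2) < (2 * s - 1) * (M - 1) := by
    obtain ⟨m, rfl⟩ := Nat.exists_eq_add_of_le hM
    obtain ⟨t, rfl⟩ := Nat.exists_eq_add_of_le hs
    rw [show 2 * (2 + t) + 4 + m + 2 * (2 + t) - 2 = 4 * t + 10 + m by omega,
      show 2 * (2 + t) - 1 = 2 * t + 3 by omega, show 2 * (2 + t) + 4 + m - 1 = 2 * t + 7 + m by omega]
    nlinarith
  have h3 : (2 * s - 1) * N < (2 * s - 1) * ((M - 1) * (M - 2).factorial) := by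
    calc (2 * s - 1) * N ≤ s * (M + 2 * s - 2) * (M - 2).factorial := h1
      _ < (2 * s - 1) * (M - 1) * (M - 2).factorial := Nat.mul_lt_mul_of_pos_right h2 hF
      _ = (2 * s - 1) * ((M - 1) * (M - 2).factorial) := by ring
  exact Nat.lt_of_mul_lt_mul_left h3

lemma num_iii_odd {M s N : ℕ} (hs : 2 ≤ s) (hM : 3 * s + 2 ≤ M) (hM2 : 12 ≤ M)
    (h : 2 * ((2 * s - 1) * N) ≤ 2 * s * (M - 1).factorial + (2 * s - 1) * (2 * s * (M - 2).factorial)) :
    (M + 1) * N < M.factorial := by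
  have h1 := num_iii (by omega) h
  rw [fac0 (by omega), fac1 (by omega)]
  have hF : 0 < (M - 2).factorial := Nat.factorial_pos _
  have h2 : (M + 1) * (s * (M + 2 * s - 2)) < (2 * s - 1) * (M * (M - 1)) := by
    rcases Nat.lt_or_ge s 3 with h3 | h3
    · have : s = 2 := by omega
      subst this
      obtain ⟨m, rfl⟩ := Nat.exists_eq_add_of_le hM2
      rw [show 12 + m + 2 * 2 - 2 = 14 + m by omega, show 2 * 2 - 1 = 3 by omega,
        show 12 + m - 1 = 11 + m by omega]
      nlinarith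
    · obtain ⟨m, rfl⟩ := Nat.exists_eq_add_of_le hM
      obtain ⟨t, rfl⟩ := Nat.exists_eq_add_of_le h3
      rw [show 3 * (3 + t) + 2 + m + 2 * (3 + t) - 2 = 5 * t + 15 + m by omega,
        show 2 * (3 + t) - 1 = 2 * t + 5 by omega, show 3 * (3 + t) + 2 + m - 1 = 3 * t + 10 + m by omega]
      nlinarith [Nat.zero_le (t * m), Nat.zero_le (t * t), Nat.zero_le (t * t * m), Nat.zero_le (t * m * m),
        Nat.zero_le (t * t * t)]
  have h3 : (2 * s - 1) * ((M + 1) * N) < (2 * s - 1) * (M * ((M - 1) * (M - 2).factorial)) := by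
    calc (2 * s - 1) * ((M + 1) * N) = (M + 1) * ((2 * s - 1) * N) := by ring
      _ ≤ (M + 1) * (s * (M + 2 * s - 2) * (M - 2).factorial) := Nat.mul_le_mul_left _ h1
      _ = (M + 1) * (s * (M + 2 * s - 2)) * (M - 2).factorial := by ring
      _ < (2 * s - 1) * (M * (M - 1)) * (M - 2).factorial := Nat.mul_lt_mul_of_pos_right h2 hF
      _ = (2 * s - 1) * (M * ((M - 1) * (M - 2).factorial)) := by ring
  exact Nat.lt_of_mul_lt_mul_left h3

lemma num_ii_even {M X N : ℕ} (hM : 2 ≤ M) (hX : X < M - 1)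
    (h : 2 * N ≤ (M - 1).factorial + X * (M - 2).factorial) : N < (M - 1).factorial := by
  rw [fac1 hM] at h ⊢
  have hF : 0 < (M - 2).factorial := Nat.factorial_pos _
  have : X * (M - 2).factorial < (M - 1) * (M - 2).factorial := Nat.mul_lt_mul_of_pos_right hX hF
  omega

lemma num_ii_odd {M X N : ℕ} (hM : 3 ≤ M) (hX : X ≤ M - 3)
    (h : 2 * N ≤ (M - 1).factorial + X * (M - 2).factorial) : (M + 1) * N < M.factorial := by
  rw [fac0 (by omega), fac1 (by omega)]
  rw [fac1 (by omega)] at h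
  have hF : 0 < (M - 2).factorial := Nat.factorial_pos _
  obtain ⟨m, rfl⟩ := Nat.exists_eq_add_of_le hM
  rw [show 3 + m - 1 = m + 2 by omega, show 3 + m - 2 = m + 1 by omega] at *
  rw [show 3 + m - 3 = m by omega] at hX
  have h1 : X * (m + 1).factorial ≤ m * (m + 1).factorial := Nat.mul_le_mul_right _ hX
  have h2 : 2 * N ≤ (2 * m + 2) * (m + 1).factorial := by
    calc 2 * N ≤ (m + 2) * (m + 1).factorial + m * (m + 1).factorial := h.trans (Nat.add_le_add_left h1 _)
      _ = _ := by ring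
  have h3 : N ≤ (m + 1) * (m + 1).factorial := by
    have : 2 * N ≤ 2 * ((m + 1) * (m + 1).factorial) := by
      refine h2.trans (le_of_eq ?_); ring
    omega
  calc (3 + m + 1) * N ≤ (3 + m + 1) * ((m + 1) * (m + 1).factorial) := Nat.mul_le_mul_left _ h3
    _ = ((m + 4) * (m + 1)) * (m + 1).factorial := by ring
    _ < ((3 + m) * (m + 2)) * (m + 1).factorial := by
        apply Nat.mul_lt_mul_of_pos_right _ hF
        nlinarith
    _ = (3 + m) * ((m + 2) * (m + 1).factorial) := by ring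

end Pool.Agent.helper6.LA
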