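import Pool.Agent.helper6.LA.Prior
import Pool.Agent.helper6.LA.Num

/-! The even case. -/

namespace Pool.Agent.helper6.LA

open Finset

section

variable {V : Type*} [Fintype V] [DecidableEq V] (G : SimpleGraph V) [DecidableRel G.Adj]

/-- the conclusion. -/
def Concl (x y : V) : Prop := ∃ f : Sym2 V → ℕ, Set.BijOn f G.edgeSet (Set.Icc 1 G.edgeFinset.card) ∧
      (∀ u v, G.Adj u v → wt G f u ≠ wt G f v) ∧ wt G f x = wt G f y

variable {G}

lemma card_edges {r : ℕ} (hreg : ∀ v, G.degree v = r) : Fintype.card V * r = 2 * G.edgeFinset.card := by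
  have := G.sum_degrees_eq_twice_card_edges
  rw [Finset.sum_congr rfl (fun v _ => hreg v), Finset.sum_const, Finset.card_univ, smul_eq_mul] at this
  exact this

lemma card_PE_QE (q : Sym2 V → ℕ) : (PE G q).card + (QE G q).card = G.edgeFinset.card := by
  unfold PE QE
  exact Finset.card_filter_add_card_filter_not _

lemma card_ge {r : ℕ} (hreg : ∀ v, G.degree v = r) {x y : V} (hxy : x ≠ y) (hn : ¬ G.Adj x y) :
    r + 2 ≤ Fintype.card V := by
  have h1 : (insert x (insert y (G.neighborFinset x))).card = r + 2 := by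
    rw [Finset.card_insert_of_notMem, Finset.card_insert_of_notMem,
      SimpleGraph.card_neighborFinset_eq_degree, hreg]
    · rw [SimpleGraph.mem_neighborFinset]; exact hn
    · rw [Finset.mem_insert, SimpleGraph.mem_neighborFinset, not_or]
      exact ⟨hxy, G.loopless.irrefl x⟩
  rw [← h1]
  exact Finset.card_le_univ _

lemma all_adj {r : ℕ} (hreg : ∀ v, G.degree v = r) {x y : V} (hxy : x ≠ y) (hn : ¬ G.Adj x y)
    (hcard : Fintype.card V = r + 2) {v : V} (hvx : v ≠ x) (hvy : v ≠ y) : G.Adj x v := by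
  have h1 : (insert x (insert y (G.neighborFinset x))).card = r + 2 := by
    rw [Finset.card_insert_of_notMem, Finset.card_insert_of_notMem,
      SimpleGraph.card_neighborFinset_eq_degree, hreg]
    · rw [SimpleGraph.mem_neighborFinset]; exact hn
    · rw [Finset.mem_insert, SimpleGraph.mem_neighborFinset, not_or]
      exact ⟨hxy, G.loopless.irrefl x⟩
  have h2 : insert x (insert y (G.neighborFinset x)) = univ := by
    rw [← Finset.card_eq_iff_eq_univ, h1, hcard]
  have h3 : v ∈ insert x (insert y (G.neighborFinset x)) := by rw [h2]; exact mem_univ _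
  rw [Finset.mem_insert, Finset.mem_insert, SimpleGraph.mem_neighborFinset] at h3
  tauto

/-- hypothesis (P4) -/
lemma P4_gen {r : ℕ} {xl yl : ℕ → ℕ} {c : ℕ} {ρ : V → ℕ} {x y z b : V}
    (h : Cfg G r xl yl c ρ x y z b) (hr : 1 ≤ r)
    (hS : xl (r - 1) + yl (r - 1) + c < ∑ i ∈ Finset.range r, xl i) {u : V} (hux : u ≠ x) (huy : u ≠ y) :
    JJ G (qq G xl yl c ρ x y z b) u < JJ G (qq G xl yl c ρ x y z b) x := by
  rw [h.J_x, h.J_eq hux huy]
  have h1 : Jx G xl ρ x u ≤ xl (r - 1) := by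
    unfold Jx
    split_ifs with h1
    · apply h.hxl.monotone
      have := rk_lt (ρ := ρ) h1
      rw [h.hreg] at this
      omega
    · omega
  have h2 : Jx G yl ρ y u ≤ yl (r - 1) := by
    unfold Jx
    split_ifs with h1
    · apply h.hyl.monotone
      have := rk_lt (ρ := ρ) h1
      rw [h.hreg] at this
      omega
    · omega
  have h3 : (if u = z ∨ u = b then c else 0) ≤ c := by split_ifs <;> omega
  omega

section even

variable {r : ℕ} {ρ : V → ℕ} {x y z b : V} (h : Cfg G r xe ye 0 ρ x y z b) (hr : r % 2 = 0)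
  (hκ : ∀ u v, kap G x y z b u < kap G x y z b v → ρ u < ρ v)

include h

lemma ev_k {v : V} (hvx : v ≠ x) (hvy : v ≠ y) :
    kk G (qq G xe ye 0 ρ x y z b) v = k' G x y v := by
  rw [h.k_eq hvx hvy, if_pos rfl, ite_self, Nat.add_zero]

lemma ev_k_le {v : V} (hvx : v ≠ x) (hvy : v ≠ y) : kk G (qq G xe ye 0 ρ x y z b) v ≤ 2 := by
  rw [ev_k h hvx hvy]
  unfold k'
  split_ifs <;> omega

include hr

lemma ev_Q : (QE G (qq G xe ye 0 ρ x y z b)).card = 2 * r :=
  Cfg.card_of_bij (h.q_bij (2 * r) (fun _ hi => xe_le hr hi) (fun _ hi => ye_le hi) (by omega)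
    (fun l h1 h2 => cov_e r l hr h1 h2))

lemma ev_bij : Set.BijOn (qq G xe ye 0 ρ x y z b) (QE G (qq G xe ye 0 ρ x y z b) : Set (Sym2 V))
    (Set.Icc 1 (QE G (qq G xe ye 0 ρ x y z b)).card) := by
  rw [ev_Q h hr]
  exact h.q_bij (2 * r) (fun _ hi => xe_le hr hi) (fun _ hi => ye_le hi) (by omega)
    (fun l h1 h2 => cov_e r l hr h1 h2)

lemma ev_M : 2 * (PE G (qq G xe ye 0 ρ x y z b)).card + 4 * r = Fintype.card V * r := by
  have h1 := card_PE_QE (G := G) (qq G xe ye 0 ρ x y z b)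
  rw [ev_Q h hr] at h1
  have h2 := card_edges h.hreg
  omega

lemma ev_J : JJ G (qq G xe ye 0 ρ x y z b) x = JJ G (qq G xe ye 0 ρ x y z b) y := by
  obtain ⟨k, rfl⟩ : ∃ k, r = 2 * k := ⟨r / 2, by omega⟩
  rw [h.J_x, h.J_y, sum_xe, sum_ye]

lemma ev_P4 (hr4 : 4 ≤ r) {u : V} (hux : u ≠ x) (huy : u ≠ y) :
    JJ G (qq G xe ye 0 ρ x y z b) u < JJ G (qq G xe ye 0 ρ x y z b) x := by
  apply P4_gen h (by omega) _ hux huy
  obtain ⟨k, rfl⟩ : ∃ k, r = 2 * k := ⟨r / 2, by omega⟩
  rw [sum_xe]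
  have h1 : xe (2 * k - 1) = 4 * k := by
    unfold xe
    rw [if_neg (by omega)]
    omega
  have h2 : ye (2 * k - 1) = 4 * k - 1 := by
    unfold ye
    rw [if_neg (by omega)]
    omega
  rw [h1, h2]
  have : 2 ≤ k := by omega
  have h3 : 4 * k + 4 * k ≤ k * (4 * k + 1) := by nlinarith
  omega

/-- master criterion in the even case. -/
lemma ev_master (hr4 : 4 ≤ r) (B : Sym2 V → ℕ)
    (hB : ∀ u v, G.Adj u v → u ≠ x → u ≠ y → v ≠ x → v ≠ y →
      kk G (qq G xe ye 0 ρ x y z b) u ≤ kk G (qq G xe ye 0 ρ x y z b) v →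
      (bad G (qq G xe ye 0 ρ x y z b) u v).card ≤ B s(u, v))
    (hsum : ∑ e ∈ PE G (qq G xe ye 0 ρ x y z b), B e
      < ((PE G (qq G xe ye 0 ρ x y z b)).card).factorial) : Concl G x y := by
  apply framework h.hreg (ev_bij h hr) h.k_x h.k_y (ev_J h hr) _ _ B
  · intro u v huv hx hy
    rw [Sym2.mem_iff, not_or] at hx hy
    rcases Nat.le_total (kk G (qq G xe ye 0 ρ x y z b) u) (kk G (qq G xe ye 0 ρ x y z b) v) with h1 | h1
    · exact hB u v huv (Ne.symm hx.1) (Ne.symm hy.1) (Ne.symm hx.2) (Ne.symm hy.2) h1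
    · rw [bad_comm, Sym2.eq_swap]
      exact hB v u huv.symm (Ne.symm hx.2) (Ne.symm hy.2) (Ne.symm hx.1) (Ne.symm hy.1) h1
  · refine lt_of_le_of_lt ?_ hsum
    apply Finset.sum_le_sum_of_subset
    intro e he
    rw [Finset.mem_filter, SimpleGraph.mem_edgeFinset] at he
    induction e using Sym2.ind with
    | _ u v =>
      rw [Cfg.pool_iff he.1 he.2.1 he.2.2]
      exact Or.inl rfl
  · intro u hu
    left
    exact ev_P4 h hr hr4 hu.ne' (by rintro rfl; exact h.hnxy hu)
  · intro u hu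
    left
    exact ev_P4 h hr hr4 (by rintro rfl; exact h.hnxy hu.symm) hu.ne'

include hκ

/-- the three types of bounds. -/
lemma ev_types (hr4 : 4 ≤ r) (hM : 3 ≤ (PE G (qq G xe ye 0 ρ x y z b)).card) {u v : V}
    (huv : G.Adj u v) (hux : u ≠ x) (huy : u ≠ y) (hvx : v ≠ x) (hvy : v ≠ y)
    (hk : k' G x y u ≤ k' G x y v) :
    (∃ δ b', 1 ≤ δ ∧ 1 ≤ b' ∧ k' G x y v = k' G x y u + δ ∧ k' G x y v + 1 + b' = r ∧
      2 * (bad G (qq G xe ye 0 ρ x y z b) u v).card ≤
        ((PE G (qq G xe ye 0 ρ x y z b)).card - 1).factorial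
        + ((if δ = 1 then 2 else 0) + 2 * ((b' - 1) * δ))
          * ((PE G (qq G xe ye 0 ρ x y z b)).card - 2).factorial) ∨
    (∃ s, 2 ≤ s ∧ k' G x y v = k' G x y u ∧ k' G x y v + 1 + s = r ∧
      2 * ((2 * s - 1) * (bad G (qq G xe ye 0 ρ x y z b) u v).card) ≤
        2 * s * ((PE G (qq G xe ye 0 ρ x y z b)).card - 1).factorial
        + (2 * s - 1) * (2 * s * ((PE G (qq G xe ye 0 ρ x y z b)).card - 2).factorial)) ∨
    (k' G x y u = 2 ∧ k' G x y v = 2 ∧ r = 4 ∧
      (bad G (qq G xe ye 0 ρ x y z b) u v).card ≤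
        ((PE G (qq G xe ye 0 ρ x y z b)).card - 2)
          * ((PE G (qq G xe ye 0 ρ x y z b)).card - 2).factorial) := by
  have hxe : x ∉ s(u, v) := by
    rw [Sym2.mem_iff, not_or]; exact ⟨hux.symm, hvx.symm⟩
  have hye : y ∉ s(u, v) := by
    rw [Sym2.mem_iff, not_or]; exact ⟨huy.symm, hvy.symm⟩
  have hpool : s(u, v) ∈ PE G (qq G xe ye 0 ρ x y z b) := (Cfg.pool_iff huv hxe hye).mpr (Or.inl rfl)
  have hcc := cc_eq_one huv.ne hpool
  have hku := ev_k h hux huy
  have hkv := ev_k h hvx hvy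
  have hk2 : k' G x y v ≤ 2 := by unfold k'; split_ifs <;> omega
  rcases Nat.lt_or_ge (k' G x y u) (k' G x y v) with h1 | h1
  · left
    refine ⟨k' G x y v - k' G x y u, r - k' G x y v - 1, by omega, by omega, by omega, by omega, ?_⟩
    apply bad_ii h.hreg (by omega) (by omega) _ (by omega) (by omega) hM
    exact h.P1_even hκ rfl hux huy hvx hvy (by omega)
  · right
    have h2 : k' G x y u = k' G x y v := by omega
    by_cases h3 : k' G x y v + 3 ≤ r
    · left
      refine ⟨r - 1 - k' G x y v, by omega, by omega, by omega, ?_⟩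
      exact bad_iii h.hreg (by omega) (by omega) (by omega)
    · right
      refine ⟨by omega, by omega, by omega, ?_⟩
      exact bad_iv h.hreg (T := 2) (by omega) (by omega) (by omega)
        (h.P2_even hκ rfl hux huy hvx hvy huv.ne (by omega) (by omega))

omit h hr hκ in
lemma const_sum {M : ℕ} (S : Finset (Sym2 V)) (hS : S.card = M) :
    ∑ _e ∈ S, ((M - 1).factorial - 1) < M.factorial := by
  rw [Finset.sum_const, smul_eq_mul, hS]
  rcases Nat.eq_zero_or_pos M with h0 | h0
  · subst h0; simp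
  · rw [fac0 h0]
    have := Nat.factorial_pos (M - 1)
    exact Nat.mul_lt_mul_of_pos_left (by omega) h0

/-- even case for large `n`. -/
theorem ev_large (hr4 : 4 ≤ r) (hn : 9 ≤ Fintype.card V) : Concl G x y := by
  have hM := ev_M h hr
  have hnr := card_ge h.hreg h.hxy h.hnxy
  set M := (PE G (qq G xe ye 0 ρ x y z b)).card with hMdef
  set n := Fintype.card V with hndef
  have h9 : 9 * r ≤ n * r := Nat.mul_le_mul_right _ hn
  have h12 : 12 * r < n * r + 30 := by
    rcases Nat.lt_or_ge n 12 with h1 | h1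
    · have h2 : n = 9 ∨ n = 10 ∨ n = 11 := by omega
      rcases h2 with h2 | h2 | h2 <;> rw [h2] <;> omega
    · have := Nat.mul_le_mul_right r h1
      omega
  apply ev_master h hr hr4 (fun _ => (M - 1).factorial - 1) _ (const_sum _ rfl)
  intro u v huv hux huy hvx hvy hk
  rw [ev_k h hux huy, ev_k h hvx hvy] at hk
  have hlt : (bad G (qq G xe ye 0 ρ x y z b) u v).card < (M - 1).factorial := by
    have hk2 : k' G x y v ≤ 2 := by unfold k'; split_ifs <;> omega
    rcases ev_types h hr hκ hr4 (by omega) huv hux huy hvx hvy hk with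
      ⟨δ, b', hδ, hb', h1, h2, h3⟩ | ⟨s, hs, h1, h2, h3⟩ | ⟨_, _, h2, h3⟩
    · apply num_ii_even (by omega) _ h3
      have hδ2 : δ = 1 ∨ δ = 2 := by omega
      rcases hδ2 with rfl | rfl
      · rw [if_pos rfl]; omega
      · rw [if_neg (by omega)]; omega
    · exact num_iii_even hs (by omega) h3
    · refine lt_of_le_of_lt h3 ?_
      show (M - 2) * (M - 2).factorial < (M - 1).factorial
      rw [fac1 (by omega)]
      exact Nat.mul_lt_mul_of_pos_right (by omega) (Nat.factorial_pos _)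
  omega

/-- even case `n = r + 2`. -/
theorem ev_cocktail (hr4 : 4 ≤ r) (hn : Fintype.card V = r + 2) : Concl G x y := by
  have hM := ev_M h hr
  set M := (PE G (qq G xe ye 0 ρ x y z b)).card with hMdef
  rw [hn] at hM
  have h2 : ∀ v, v ≠ x → v ≠ y → k' G x y v = 2 := by
    intro v hvx hvy
    have h1 := all_adj h.hreg h.hxy h.hnxy hn hvx hvy
    have h2 := all_adj h.hreg h.hxy.symm (fun h' => h.hnxy h'.symm) hn hvy hvx
    unfold k'
    rw [if_pos h1, if_pos h2]
  have hM4 : 4 ≤ M := by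
    have : 6 * r ≤ (r + 2) * r := Nat.mul_le_mul_right _ (by omega)
    omega
  apply ev_master h hr hr4 (fun _ => (M - 1).factorial - 1) _ (const_sum _ rfl)
  intro u v huv hux huy hvx hvy hk
  have hlt : (bad G (qq G xe ye 0 ρ x y z b) u v).card < (M - 1).factorial := by
    have hku := h2 u hux huy
    have hkv := h2 v hvx hvy
    rcases ev_types h hr hκ hr4 (by omega) huv hux huy hvx hvy (by omega) with
      ⟨δ, b', hδ, hb', h1, h2, h3⟩ | ⟨s, hs, h1, h2, h3⟩ | ⟨_, _, h2, h3⟩
    · omega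
    · apply num_iii_even hs _ h3
      have : 8 * r ≤ (r + 2) * r := Nat.mul_le_mul_right _ (by omega)
      rcases Nat.lt_or_ge r 7 with h4 | h4
      · have : r = 6 := by omega
        subst this
        omega
      · have : 10 * r ≤ (r + 2) * r := Nat.mul_le_mul_right _ (by omega)
        omega
    · refine lt_of_le_of_lt h3 ?_
      show (M - 2) * (M - 2).factorial < (M - 1).factorial
      rw [fac1 (by omega)]
      exact Nat.mul_lt_mul_of_pos_right (by omega) (Nat.factorial_pos _)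
  omega

end even

end

end Pool.Agent.helper6.LA
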