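import Pool.Agent.helper6.LA.Even

/-! The even case, small graphs. -/

namespace Pool.Agent.helper6.LA

open Finset

section

variable {V : Type*} [Fintype V] [DecidableEq V] {G : SimpleGraph V} [DecidableRel G.Adj]

/-- few edges inside a set with at most two vertices. -/
lemma sum_le_two (W : Finset V) (hW : W.card ≤ 2) (S : Finset (Sym2 V)) (hS : ∀ e ∈ S, ¬ e.IsDiag)
    (β0 β1 : ℕ) (hβ : β0 ≤ β1) [DecidablePred (fun e : Sym2 V => ∀ v ∈ e, v ∈ W)] :
    ∑ e ∈ S, (if ∀ v ∈ e, v ∈ W then β1 else β0) ≤ S.card * β0 + (β1 - β0) := by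
  classical
  have h1 : (S.filter (fun e => ∀ v ∈ e, v ∈ W)).card ≤ 1 := by
    rw [Finset.card_le_one]
    intro e he e' he'
    rw [Finset.mem_filter] at he he'
    obtain ⟨heS, he⟩ := he
    obtain ⟨heS', he'⟩ := he'
    have hd := hS e heS
    have hd' := hS e' heS'
    induction e using Sym2.ind with
    | _ a b =>
      induction e' using Sym2.ind with
      | _ a' b' =>
        rw [Sym2.mk_isDiag_iff] at hd hd'
        have ha := he a (Sym2.mem_mk_left a b)
        have hb := he b (Sym2.mem_mk_right a b)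
        have ha' := he' a' (Sym2.mem_mk_left a' b')
        have hb' := he' b' (Sym2.mem_mk_right a' b')
        have hsub : W = {a, b} := by
          symm
          apply Finset.eq_of_subset_of_card_le
          · intro t ht
            rw [Finset.mem_insert, Finset.mem_singleton] at ht
            rcases ht with rfl | rfl
            · exact ha
            · exact hb
          · rw [Finset.card_pair hd]; exact hW
        rw [hsub, Finset.mem_insert, Finset.mem_singleton] at ha' hb'
        rw [Sym2.eq_iff]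
        rcases ha' with h1 | h1 <;> rcases hb' with h2 | h2
        · exact absurd (h1.trans h2.symm) hd'
        · left; exact ⟨h1.symm, h2.symm⟩
        · right; exact ⟨h2.symm, h1.symm⟩
        · exact absurd (h1.trans h2.symm) hd'
  have h2 : ∀ e ∈ S, (if ∀ v ∈ e, v ∈ W then β1 else β0)
      = β0 + (if ∀ v ∈ e, v ∈ W then (β1 - β0) else 0) := by
    intro e _
    split_ifs <;> omega
  rw [Finset.sum_congr rfl h2, Finset.sum_add_distrib, Finset.sum_const, smul_eq_mul,
    ← Finset.sum_filter, Finset.sum_const, smul_eq_mul]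
  have : (S.filter (fun e => ∀ v ∈ e, v ∈ W)).card * (β1 - β0) ≤ 1 * (β1 - β0) :=
    Nat.mul_le_mul_right _ h1
  omega

variable (G) in
/-- non-neighbours of `x`. -/
def NX (x y : V) : Finset V := univ.filter (fun v => v ≠ x ∧ v ≠ y ∧ ¬ G.Adj x v)

lemma card_NX {r : ℕ} (hreg : ∀ v, G.degree v = r) {x y : V} (hxy : x ≠ y) (hn : ¬ G.Adj x y) :
    (NX G x y).card + r + 2 = Fintype.card V := by
  have h1 : (insert x (insert y (G.neighborFinset x))).card = r + 2 := by
    rw [Finset.card_insert_of_notMem, Finset.card_insert_of_notMem,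
      SimpleGraph.card_neighborFinset_eq_degree, hreg]
    · rw [SimpleGraph.mem_neighborFinset]; exact hn
    · rw [Finset.mem_insert, SimpleGraph.mem_neighborFinset, not_or]
      exact ⟨hxy, G.loopless.irrefl x⟩
  have h2 : NX G x y = (insert x (insert y (G.neighborFinset x)))ᶜ := by
    ext v
    unfold NX
    rw [Finset.mem_filter, Finset.mem_compl, Finset.mem_insert, Finset.mem_insert,
      SimpleGraph.mem_neighborFinset]
    simp only [Finset.mem_univ, true_and]
    tauto
  rw [h2, add_assoc, ← h1, Finset.card_compl_add_card]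

lemma mem_NX {x y v : V} : v ∈ NX G x y ↔ v ≠ x ∧ v ≠ y ∧ ¬ G.Adj x v := by
  unfold NX
  rw [Finset.mem_filter]
  simp only [Finset.mem_univ, true_and]

section even

variable {ρ : V → ℕ} {x y z b : V} (h : Cfg G 4 xe ye 0 ρ x y z b)
  (hκ : ∀ u v, kap G x y z b u < kap G x y z b v → ρ u < ρ v)

include h hκ

theorem ev_84 (hn : Fintype.card V = 8) : Concl G x y := by
  classical
  have hM := ev_M h rfl
  rw [hn] at hM
  have hM8 : (PE G (qq G xe ye 0 ρ x y z b)).card = 8 := by omega
  have hW := card_NX h.hreg h.hxy h.hnxy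
  have f0 : ((PE G (qq G xe ye 0 ρ x y z b)).card).factorial = 40320 := by rw [hM8]; rfl
  have f1 : ((PE G (qq G xe ye 0 ρ x y z b)).card - 1).factorial = 5040 := by rw [hM8]; rfl
  have f2 : ((PE G (qq G xe ye 0 ρ x y z b)).card - 2).factorial = 720 := by rw [hM8]; rfl
  have f3 : (PE G (qq G xe ye 0 ρ x y z b)).card - 2 = 6 := by rw [hM8]
  apply ev_master h rfl (by omega) (fun e => if ∀ v ∈ e, v ∈ NX G x y then 5184 else 4800)
  · intro u v huv hux huy hvx hvy hk
    rw [ev_k h hux huy, ev_k h hvx hvy] at hk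
    have hWiff : (∀ w ∈ s(u, v), w ∈ NX G x y) ↔ (u ∈ NX G x y ∧ v ∈ NX G x y) := by
      constructor
      · intro h1
        exact ⟨h1 u (Sym2.mem_mk_left u v), h1 v (Sym2.mem_mk_right u v)⟩
      · rintro ⟨h1, h2⟩ w hw
        rcases Sym2.mem_iff.mp hw with rfl | rfl
        · exact h1
        · exact h2
    have h00 : k' G x y u = 0 → k' G x y v = 0 → (u ∈ NX G x y ∧ v ∈ NX G x y) := by
      intro h1 h2
      rw [mem_NX, mem_NX]
      unfold k' at h1 h2
      refine ⟨⟨hux, huy, ?_⟩, ⟨hvx, hvy, ?_⟩⟩
      · intro h3; rw [if_pos h3] at h1; omega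
      · intro h3; rw [if_pos h3] at h2; omega
    have hbound : (bad G (qq G xe ye 0 ρ x y z b) u v).card ≤ 5184 ∧
        (¬ (k' G x y u = 0 ∧ k' G x y v = 0) →
          (bad G (qq G xe ye 0 ρ x y z b) u v).card ≤ 4800) := by
      rcases ev_types h rfl hκ (by omega) (by omega) huv hux huy hvx hvy hk with
        ⟨δ, b', hδ, hb', h1, h2, h3⟩ | ⟨s, hs, h1, h2, h3⟩ | ⟨_, _, h2, h3⟩
      · rw [f1, f2] at h3
        have : δ = 1 ∨ δ = 2 := by omega
        rcases this with rfl | rfl
        · rw [if_pos rfl] at h3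
          have : b' = 1 ∨ b' = 2 := by omega
          rcases this with rfl | rfl <;> omega
        · rw [if_neg (by omega)] at h3
          have : b' = 1 := by omega
          subst this
          omega
      · rw [f1, f2] at h3
        have : s = 2 ∨ s = 3 := by omega
        rcases this with rfl | rfl <;> omega
      · rw [f2, f3] at h3
        omega
    show _ ≤ if ∀ w ∈ s(u, v), w ∈ NX G x y then 5184 else 4800
    by_cases hc : ∀ w ∈ s(u, v), w ∈ NX G x y
    · rw [if_pos hc]; exact hbound.1
    · rw [if_neg hc]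
      apply hbound.2
      rintro ⟨h1, h2⟩
      exact hc (hWiff.mpr (h00 h1 h2))
  · rw [f0]
    refine lt_of_le_of_lt (sum_le_two (NX G x y) (by omega) _ ?_ 4800 5184 (by omega)) ?_
    · intro e he
      exact G.not_isDiag_of_mem_edgeSet (mem_PE.mp he).1
    · rw [hM8]; norm_num

theorem ev_74 (hn : Fintype.card V = 7) : Concl G x y := by
  classical
  have hM := ev_M h rfl
  rw [hn] at hM
  have hM8 : (PE G (qq G xe ye 0 ρ x y z b)).card = 6 := by omega
  have hW := card_NX h.hreg h.hxy h.hnxy
  have hW' := card_NX h.hreg h.hxy.symm (fun h' => h.hnxy h'.symm)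
  have f0 : ((PE G (qq G xe ye 0 ρ x y z b)).card).factorial = 720 := by rw [hM8]; rfl
  have f1 : ((PE G (qq G xe ye 0 ρ x y z b)).card - 1).factorial = 120 := by rw [hM8]; rfl
  have f2 : ((PE G (qq G xe ye 0 ρ x y z b)).card - 2).factorial = 24 := by rw [hM8]; rfl
  have f3 : (PE G (qq G xe ye 0 ρ x y z b)).card - 2 = 4 := by rw [hM8]
  apply ev_master h rfl (by omega)
    (fun e => if ∀ v ∈ e, v ∈ NX G x y ∪ NX G y x then 144 else 96)
  · intro u v huv hux huy hvx hvy hk
    rw [ev_k h hux huy, ev_k h hvx hvy] at hk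
    have hWiff : (∀ w ∈ s(u, v), w ∈ NX G x y ∪ NX G y x) ↔
        (u ∈ NX G x y ∪ NX G y x ∧ v ∈ NX G x y ∪ NX G y x) := by
      constructor
      · intro h1
        exact ⟨h1 u (Sym2.mem_mk_left u v), h1 v (Sym2.mem_mk_right u v)⟩
      · rintro ⟨h1, h2⟩ w hw
        rcases Sym2.mem_iff.mp hw with rfl | rfl
        · exact h1
        · exact h2
    have hmem : ∀ w, w ≠ x → w ≠ y → k' G x y w ≤ 1 → w ∈ NX G x y ∪ NX G y x := by
      intro w hwx hwy h1
      rw [Finset.mem_union, mem_NX, mem_NX]
      by_cases h2 : G.Adj x w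
      · right
        refine ⟨hwy, hwx, ?_⟩
        intro h3
        unfold k' at h1
        rw [if_pos h2, if_pos h3] at h1
        omega
      · left
        exact ⟨hwx, hwy, h2⟩
    have hk2 : k' G x y v ≤ 2 := by unfold k'; split_ifs <;> omega
    have hbound : (bad G (qq G xe ye 0 ρ x y z b) u v).card ≤ 144 ∧
        (k' G x y v = 2 →
          (bad G (qq G xe ye 0 ρ x y z b) u v).card ≤ 96) := by
      rcases ev_types h rfl hκ (by omega) (by omega) huv hux huy hvx hvy hk with
        ⟨δ, b', hδ, hb', h1, h2, h3⟩ | ⟨s, hs, h1, h2, h3⟩ | ⟨_, _, h2, h3⟩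
      · rw [f1, f2] at h3
        have : δ = 1 ∨ δ = 2 := by omega
        rcases this with rfl | rfl
        · rw [if_pos rfl] at h3
          have : b' = 1 ∨ b' = 2 := by omega
          rcases this with rfl | rfl <;> omega
        · rw [if_neg (by omega)] at h3
          have : b' = 1 := by omega
          subst this
          omega
      · rw [f1, f2] at h3
        have : s = 2 ∨ s = 3 := by omega
        rcases this with rfl | rfl <;> omega
      · rw [f2, f3] at h3
        omega
    show _ ≤ if ∀ w ∈ s(u, v), w ∈ NX G x y ∪ NX G y x then 144 else 96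
    by_cases hc : ∀ w ∈ s(u, v), w ∈ NX G x y ∪ NX G y x
    · rw [if_pos hc]; exact hbound.1
    · rw [if_neg hc]
      apply hbound.2
      by_contra hcon
      exact hc (hWiff.mpr ⟨hmem u hux huy (by omega), hmem v hvx hvy (by omega)⟩)
  · rw [f0]
    have hcard : (NX G x y ∪ NX G y x).card ≤ 2 :=
      (Finset.card_union_le _ _).trans (by omega)
    refine lt_of_le_of_lt (sum_le_two (NX G x y ∪ NX G y x) hcard _ ?_ 96 144 (by omega)) ?_
    · intro e he
      exact G.not_isDiag_of_mem_edgeSet (mem_PE.mp he).1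
    · rw [hM8]; norm_num

end even

end

end Pool.Agent.helper6.LA
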