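import Pool.Agent.helper6.LA.CountB
import Pool.Agent.helper6.LA.CountC

/-! Random labellings with prescribed offsets on special edges. -/

namespace Pool.Agent.helper6.LA

open Finset

section

variable {V : Type*} [Fintype V] [DecidableEq V] (G : SimpleGraph V) [DecidableRel G.Adj]
  (q : Sym2 V → ℕ)

/-- pool edges. -/
def PE : Finset (Sym2 V) := G.edgeFinset.filter (fun e => q e = 0)

/-- special edges. -/
def QE : Finset (Sym2 V) := G.edgeFinset.filter (fun e => q e ≠ 0)

/-- number of special edges at `v`. -/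
def kk (v : V) : ℕ := ((G.neighborFinset v).filter (fun u => q s(v, u) ≠ 0)).card

/-- sum of offsets at `v`. -/
def JJ (v : V) : ℕ := ∑ u ∈ G.neighborFinset v, q s(v, u)

/-- weight. -/
def wt (f : Sym2 V → ℕ) (v : V) : ℕ := ∑ u ∈ G.neighborFinset v, f s(v, u)

variable {G q}

/-- the labelling given by a bijection of the pool edges. -/
def lab {M : ℕ} (φ : {e // e ∈ PE G q} ≃ Fin M) (e : Sym2 V) : ℕ :=
  if h : e ∈ PE G q then ((φ ⟨e, h⟩ : Fin M) : ℕ) + 1 else M + q e

variable (G q)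

/-- pool edges at `v`. -/
def PV (v : V) : Finset {e // e ∈ PE G q} := univ.filter (fun e => v ∈ e.1)

variable {G q}

lemma mem_PE {e : Sym2 V} : e ∈ PE G q ↔ e ∈ G.edgeSet ∧ q e = 0 := by
  unfold PE
  rw [Finset.mem_filter, SimpleGraph.mem_edgeFinset]

lemma mem_QE {e : Sym2 V} : e ∈ QE G q ↔ e ∈ G.edgeSet ∧ q e ≠ 0 := by
  unfold QE
  rw [Finset.mem_filter, SimpleGraph.mem_edgeFinset]

lemma mem_PV {v : V} {e : {e // e ∈ PE G q}} : e ∈ PV G q v ↔ v ∈ e.1 := by
  unfold PV
  rw [Finset.mem_filter]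
  exact ⟨fun h => h.2, fun h => ⟨mem_univ _, h⟩⟩

lemma sum_PV (v : V) (g : Sym2 V → ℕ) :
    ∑ u ∈ (G.neighborFinset v).filter (fun u => q s(v, u) = 0), g s(v, u) = ∑ e ∈ PV G q v, g e.1 := by
  apply Finset.sum_bij (fun u hu => (⟨s(v, u), by
    rw [Finset.mem_filter, SimpleGraph.mem_neighborFinset] at hu
    rw [mem_PE]
    exact ⟨hu.1, hu.2⟩⟩ : {e // e ∈ PE G q}))
  · intro u hu
    rw [mem_PV]
    exact Sym2.mem_mk_left v u
  · intro u _ u' _ h
    have h1 := congrArg Subtype.val h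
    simp only at h1
    exact Sym2.congr_right.mp h1
  · intro e he
    rw [mem_PV] at he
    obtain ⟨u, hu⟩ := Sym2.mem_iff_exists.mp he
    have hpe := e.2
    rw [mem_PE, hu] at hpe
    refine ⟨u, ?_, ?_⟩
    · rw [Finset.mem_filter, SimpleGraph.mem_neighborFinset]
      exact ⟨hpe.1, hpe.2⟩
    · apply Subtype.ext
      exact hu.symm
  · intro u _
    rfl

lemma card_PV (v : V) : (PV G q v).card + kk G q v = G.degree v := by
  have h1 := sum_PV (G := G) (q := q) v (fun _ => 1)
  rw [Finset.sum_const, Finset.sum_const, smul_eq_mul, smul_eq_mul, mul_one, mul_one] at h1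
  rw [← h1]
  unfold kk
  rw [← SimpleGraph.card_neighborFinset_eq_degree]
  exact Finset.card_filter_add_card_filter_not _

lemma wt_lab {M : ℕ} (φ : {e // e ∈ PE G q} ≃ Fin M) (v : V) :
    wt G (lab φ) v = ∑ e ∈ PV G q v, ((φ e : Fin M) : ℕ) + (PV G q v).card + kk G q v * M + JJ G q v := by
  unfold wt
  rw [← Finset.sum_filter_add_sum_filter_not (G.neighborFinset v) (fun u => q s(v, u) = 0), sum_PV]
  have h1 : ∑ e ∈ PV G q v, lab φ e.1 = ∑ e ∈ PV G q v, ((φ e : Fin M) : ℕ) + (PV G q v).card := by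
    rw [Finset.card_eq_sum_ones, ← Finset.sum_add_distrib]
    apply Finset.sum_congr rfl
    intro e _
    unfold lab
    rw [dif_pos e.2]
  have h2 : ∑ u ∈ (G.neighborFinset v).filter (fun u => ¬ q s(v, u) = 0), lab φ s(v, u)
      = kk G q v * M + JJ G q v := by
    have h3 : JJ G q v = ∑ u ∈ (G.neighborFinset v).filter (fun u => ¬ q s(v, u) = 0), q s(v, u) := by
      unfold JJ
      rw [← Finset.sum_filter_add_sum_filter_not (G.neighborFinset v) (fun u => q s(v, u) = 0)]
      rw [Finset.sum_eq_zero (s := (G.neighborFinset v).filter (fun u => q s(v, u) = 0)), zero_add]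
      intro u hu
      exact (Finset.mem_filter.mp hu).2
    rw [h3]
    unfold kk
    rw [← smul_eq_mul, ← Finset.sum_const, ← Finset.sum_add_distrib]
    apply Finset.sum_congr rfl
    intro u hu
    unfold lab
    rw [dif_neg]
    intro h4
    exact (Finset.mem_filter.mp hu).2 (mem_PE.mp h4).2
  rw [h1, h2]
  ring

lemma D_sdiff {α : Type*} [DecidableEq α] {M : ℕ} (X Y : Finset α) (f : α ≃ Fin M) :
    D (X \ Y) (Y \ X) f = D X Y f := by
  unfold D
  exact Finset.sum_sdiff_sub_sum_sdiff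

/-- the target difference of a conflict. -/
def TT (G : SimpleGraph V) [DecidableRel G.Adj] (q : Sym2 V → ℕ) (M : ℕ) (u v : V) : ℤ :=
  ((kk G q v : ℤ) - kk G q u) * ((M : ℤ) - 1) + ((JJ G q v : ℤ) - JJ G q u)

lemma conflict_iff {M r : ℕ} (hreg : ∀ v, G.degree v = r) (φ : {e // e ∈ PE G q} ≃ Fin M) (u v : V) :
    wt G (lab φ) u = wt G (lab φ) v ↔
      D (PV G q u \ PV G q v) (PV G q v \ PV G q u) φ = TT G q M u v := by
  rw [D_sdiff]
  have h1 := card_PV (G := G) (q := q) u
  have h2 := card_PV (G := G) (q := q) v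
  rw [hreg] at h1 h2
  rw [wt_lab, wt_lab]
  unfold D TT
  have h1' : ((PV G q u).card : ℤ) = r - kk G q u := by omega
  have h2' : ((PV G q v).card : ℤ) = r - kk G q v := by omega
  have e1 : (∑ e ∈ PV G q u, ((φ e : Fin M) : ℕ) + (PV G q u).card + kk G q u * M + JJ G q u
      = ∑ e ∈ PV G q v, ((φ e : Fin M) : ℕ) + (PV G q v).card + kk G q v * M + JJ G q v)
      ↔ (((∑ e ∈ PV G q u, ((φ e : Fin M) : ℕ) + (PV G q u).card + kk G q u * M + JJ G q u : ℕ) : ℤ)
      = ((∑ e ∈ PV G q v, ((φ e : Fin M) : ℕ) + (PV G q v).card + kk G q v * M + JJ G q v : ℕ) : ℤ)) := by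
    exact Int.natCast_inj.symm
  rw [e1]
  push_cast
  rw [h1', h2']
  constructor
  · intro h; linarith
  · intro h; linarith

/-- number of common pool edges. -/
def cc (G : SimpleGraph V) [DecidableRel G.Adj] (q : Sym2 V → ℕ) (u v : V) : ℕ :=
  (PV G q u ∩ PV G q v).card

lemma cc_le_one {u v : V} (h : u ≠ v) : cc G q u v ≤ 1 := by
  unfold cc
  rw [Finset.card_le_one]
  intro a ha b hb
  rw [Finset.mem_inter, mem_PV, mem_PV] at ha hb
  apply Subtype.ext
  rw [(Sym2.mem_and_mem_iff h).mp ha, (Sym2.mem_and_mem_iff h).mp hb]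

lemma cc_eq_one {u v : V} (h : u ≠ v) (he : s(u, v) ∈ PE G q) : cc G q u v = 1 := by
  apply le_antisymm (cc_le_one h)
  unfold cc
  rw [Nat.one_le_iff_ne_zero, Finset.card_ne_zero]
  refine ⟨⟨s(u, v), he⟩, ?_⟩
  rw [Finset.mem_inter, mem_PV, mem_PV]
  exact ⟨Sym2.mem_mk_left u v, Sym2.mem_mk_right u v⟩

lemma cc_eq_zero {u v : V} (h : u ≠ v) (he : s(u, v) ∉ PE G q) : cc G q u v = 0 := by
  unfold cc
  rw [Finset.card_eq_zero, Finset.eq_empty_iff_forall_notMem]
  intro a ha
  rw [Finset.mem_inter, mem_PV, mem_PV] at ha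
  apply he
  rw [← (Sym2.mem_and_mem_iff h).mp ha]
  exact a.2

lemma cc_comm (u v : V) : cc G q u v = cc G q v u := by
  unfold cc
  rw [Finset.inter_comm]

lemma card_A (u v : V) : (PV G q u \ PV G q v).card + cc G q u v + kk G q u = G.degree u := by
  rw [← card_PV (q := q) u]
  unfold cc
  rw [Finset.card_sdiff_add_card_inter]

lemma card_B (u v : V) : (PV G q v \ PV G q u).card + cc G q u v + kk G q v = G.degree v := by
  rw [cc_comm, card_A]

/-- the set of bad bijections for a pair. -/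
def bad (G : SimpleGraph V) [DecidableRel G.Adj] (q : Sym2 V → ℕ) (u v : V) :
    Finset ({e // e ∈ PE G q} ≃ Fin (PE G q).card) :=
  univ.filter (fun φ => wt G (lab φ) u = wt G (lab φ) v)

lemma bad_comm (u v : V) : bad G q u v = bad G q v u := by
  unfold bad
  apply Finset.filter_congr
  intro φ _
  exact eq_comm

lemma bad_eq {r : ℕ} (hreg : ∀ v, G.degree v = r) (u v : V) :
    bad G q u v = univ.filter (fun φ =>
      D (PV G q u \ PV G q v) (PV G q v \ PV G q u) φ = TT G q (PE G q).card u v) := by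
  unfold bad
  apply Finset.filter_congr
  intro φ _
  exact conflict_iff hreg φ u v

/-- (i) -/
lemma bad_i {r : ℕ} (hreg : ∀ v, G.degree v = r) {u v : V} (hk : kk G q u < kk G q v)
    (hJ : JJ G q u < JJ G q v) (hb : kk G q v + cc G q u v = r) : (bad G q u v).card = 0 := by
  rw [bad_eq hreg, Finset.card_eq_zero, Finset.filter_eq_empty_iff]
  intro φ _
  have h1 := card_A (G := G) (q := q) u v
  have h2 := card_B (G := G) (q := q) u v
  rw [hreg] at h1 h2
  have hB : PV G q v \ PV G q u = ∅ := by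
    rw [← Finset.card_eq_zero]; omega
  rw [hB]
  apply C0
  have h3 : ((PV G q u \ PV G q v).card : ℤ) = (kk G q v : ℤ) - kk G q u := by omega
  unfold TT
  rw [h3]
  have : (JJ G q u : ℤ) < JJ G q v := by exact_mod_cast hJ
  linarith

/-- (ii) -/
lemma bad_ii {r : ℕ} (hreg : ∀ v, G.degree v = r) {u v : V} {δ b : ℕ} (hδ : 1 ≤ δ)
    (hk : kk G q v = kk G q u + δ)
    (hJ : JJ G q u < JJ G q v) (hb : kk G q v + cc G q u v + b = r) (hb1 : 1 ≤ b)
    (hM : 3 ≤ (PE G q).card) :
    2 * (bad G q u v).card ≤ ((PE G q).card - 1).factorial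
      + ((if δ = 1 then 2 else 0) + 2 * ((b - 1) * δ)) * ((PE G q).card - 2).factorial := by
  rw [bad_eq hreg]
  have h1 := card_A (G := G) (q := q) u v
  have h2 := card_B (G := G) (q := q) u v
  rw [hreg] at h1 h2
  have hb2 : (PV G q v \ PV G q u).card = b := by omega
  have h3 := C1 (α := {e // e ∈ PE G q}) (M := (PE G q).card) (Fintype.card_coe _)
    (PV G q u \ PV G q v) (PV G q v \ PV G q u) disjoint_sdiff_sdiff δ hδ hM (by omega) (by omega)
    (TT G q (PE G q).card u v) (by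
      unfold TT
      have : (JJ G q u : ℤ) + 1 ≤ JJ G q v := by exact_mod_cast hJ
      rw [hk]
      push_cast
      linarith)
  rw [hb2] at h3
  exact h3

/-- (iii) -/
lemma bad_iii {r : ℕ} (hreg : ∀ v, G.degree v = r) {u v : V} {s : ℕ} (hs : 1 ≤ s)
    (hk : kk G q u = kk G q v) (hb : kk G q v + cc G q u v + s = r) :
    2 * ((2 * s - 1) * (bad G q u v).card) ≤ 2 * s * ((PE G q).card - 1).factorial
      + (2 * s - 1) * (2 * s * ((PE G q).card - 2).factorial) := by
  rw [bad_eq hreg]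
  have h1 := card_A (G := G) (q := q) u v
  have h2 := card_B (G := G) (q := q) u v
  rw [hreg] at h1 h2
  have hb1 : (PV G q u \ PV G q v).card = s := by omega
  have hb2 : (PV G q v \ PV G q u).card = s := by omega
  have h3 := B2 (α := {e // e ∈ PE G q}) (M := (PE G q).card) (Fintype.card_coe _)
    (PV G q u \ PV G q v) (PV G q v \ PV G q u) disjoint_sdiff_sdiff (by omega) (by omega)
    (TT G q (PE G q).card u v)
  rw [hb1] at h3
  exact h3

lemma bad_iv_aux {r : ℕ} (hreg : ∀ v, G.degree v = r) {u v : V} {T : ℕ} (hT : 1 ≤ T)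
    (hk : kk G q u = kk G q v) (hb : kk G q v + cc G q u v + 1 = r) (hJ : JJ G q v = JJ G q u + T) :
    (bad G q u v).card ≤ ((PE G q).card - T) * ((PE G q).card - 2).factorial := by
  rw [bad_eq hreg]
  have h1 := card_A (G := G) (q := q) u v
  have h2 := card_B (G := G) (q := q) u v
  rw [hreg] at h1 h2
  have hb1 : (PV G q u \ PV G q v).card = 1 := by omega
  have hb2 : (PV G q v \ PV G q u).card = 1 := by omega
  obtain ⟨a, ha⟩ := Finset.card_eq_one.mp hb1
  obtain ⟨b, hb⟩ := Finset.card_eq_one.mp hb2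
  have hdisj : Disjoint (PV G q u \ PV G q v) (PV G q v \ PV G q u) := disjoint_sdiff_sdiff
  rw [ha, hb] at hdisj ⊢
  have hab : a ≠ b := by
    rw [Finset.disjoint_singleton] at hdisj
    exact hdisj
  refine le_trans (Finset.card_le_card ?_) (B1 (α := {e // e ∈ PE G q}) (M := (PE G q).card)
    (Fintype.card_coe _) hab T hT)
  intro φ hφ
  rw [Finset.mem_filter] at hφ ⊢
  refine ⟨mem_univ _, ?_⟩
  have h3 := hφ.2
  unfold D TT at h3
  rw [Finset.sum_singleton, Finset.sum_singleton, hk, hJ] at h3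
  push_cast at h3
  have h4 : (((φ a : Fin _) : ℕ) : ℤ) = ((φ b : Fin _) : ℕ) + T := by linarith
  exact_mod_cast h4

/-- (iv) -/
lemma bad_iv {r : ℕ} (hreg : ∀ v, G.degree v = r) {u v : V} {T : ℕ} (hT : 1 ≤ T)
    (hk : kk G q u = kk G q v) (hb : kk G q v + cc G q u v + 1 = r)
    (hJ : JJ G q u + T ≤ JJ G q v ∨ JJ G q v + T ≤ JJ G q u) :
    (bad G q u v).card ≤ ((PE G q).card - T) * ((PE G q).card - 2).factorial := by
  rcases hJ with h | h
  · obtain ⟨d, hd⟩ := Nat.exists_eq_add_of_le h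
    refine (bad_iv_aux hreg (T := T + d) (by omega) hk hb (by omega)).trans ?_
    exact Nat.mul_le_mul_right _ (by omega)
  · obtain ⟨d, hd⟩ := Nat.exists_eq_add_of_le h
    rw [bad_comm]
    refine (bad_iv_aux hreg (T := T + d) (by omega) hk.symm (by rw [cc_comm]; omega) (by omega)).trans ?_
    exact Nat.mul_le_mul_right _ (by omega)

/-- (v) -/
lemma bad_v {r : ℕ} (hreg : ∀ v, G.degree v = r) {u v : V} (hk : kk G q u = kk G q v)
    (hJ : JJ G q u ≠ JJ G q v) (hb : kk G q v + cc G q u v = r) : (bad G q u v).card = 0 := by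
  rw [bad_eq hreg, Finset.card_eq_zero, Finset.filter_eq_empty_iff]
  intro φ _
  have h1 := card_A (G := G) (q := q) u v
  have h2 := card_B (G := G) (q := q) u v
  rw [hreg] at h1 h2
  have hA : PV G q u \ PV G q v = ∅ := by
    rw [← Finset.card_eq_zero]; omega
  have hB : PV G q v \ PV G q u = ∅ := by
    rw [← Finset.card_eq_zero]; omega
  rw [hA, hB]
  unfold D TT
  rw [Finset.sum_empty, hk]
  intro h
  apply hJ
  have : (JJ G q u : ℤ) = JJ G q v := by linarith
  exact_mod_cast this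

/-- the labelling is a bijection onto the labels. -/
lemma lab_bij (hq : Set.BijOn q (QE G q : Set (Sym2 V)) (Set.Icc 1 (QE G q).card))
    (φ : {e // e ∈ PE G q} ≃ Fin (PE G q).card) :
    Set.BijOn (lab φ) G.edgeSet (Set.Icc 1 G.edgeFinset.card) := by
  have hcard : (PE G q).card + (QE G q).card = G.edgeFinset.card := by
    unfold PE QE
    exact Finset.card_filter_add_card_filter_not _
  have hP : ∀ e (h : e ∈ PE G q), lab φ e = ((φ ⟨e, h⟩ : Fin _) : ℕ) + 1 := by
    intro e h; unfold lab; rw [dif_pos h]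
  have hQ : ∀ e, e ∉ PE G q → lab φ e = (PE G q).card + q e := by
    intro e h; unfold lab; rw [dif_neg h]
  have hQmem : ∀ e ∈ G.edgeSet, e ∉ PE G q → e ∈ QE G q := by
    intro e he h
    rw [mem_QE]
    refine ⟨he, fun h0 => h (mem_PE.mpr ⟨he, h0⟩)⟩
  refine ⟨?_, ?_, ?_⟩
  · intro e he
    by_cases h : e ∈ PE G q
    · rw [hP e h, Set.mem_Icc]
      have := (φ ⟨e, h⟩).2
      omega
    · rw [hQ e h, Set.mem_Icc]
      have := hq.mapsTo (hQmem e he h)
      rw [Set.mem_Icc] at this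
      omega
  · intro e he e' he' hee
    by_cases h : e ∈ PE G q <;> by_cases h' : e' ∈ PE G q
    · rw [hP e h, hP e' h'] at hee
      have : φ ⟨e, h⟩ = φ ⟨e', h'⟩ := Fin.ext (by omega)
      have := φ.injective this
      exact congrArg Subtype.val this
    · rw [hP e h, hQ e' h'] at hee
      have h1 := (φ ⟨e, h⟩).2
      have h2 := hq.mapsTo (hQmem e' he' h')
      rw [Set.mem_Icc] at h2
      omega
    · rw [hQ e h, hP e' h'] at hee
      have h1 := (φ ⟨e', h'⟩).2
      have h2 := hq.mapsTo (hQmem e he h)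
      rw [Set.mem_Icc] at h2
      omega
    · rw [hQ e h, hQ e' h'] at hee
      exact hq.injOn (hQmem e he h) (hQmem e' he' h') (by omega)
  · intro l hl
    rw [Set.mem_Icc] at hl
    rcases Nat.lt_or_ge (PE G q).card l with h | h
    · have : l - (PE G q).card ∈ Set.Icc 1 (QE G q).card := by
        rw [Set.mem_Icc]; omega
      obtain ⟨e, he, hel⟩ := hq.surjOn this
      have he' : e ∈ QE G q := he
      rw [mem_QE] at he'
      refine ⟨e, he'.1, ?_⟩
      rw [hQ e (fun h0 => he'.2 (mem_PE.mp h0).2), hel]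
      omega
    · set e := φ.symm ⟨l - 1, by omega⟩ with he
      refine ⟨e.1, (mem_PE.mp e.2).1, ?_⟩
      rw [hP e.1 e.2]
      have : φ ⟨e.1, e.2⟩ = ⟨l - 1, by omega⟩ := by
        rw [he]; exact Equiv.apply_symm_apply _ _
      rw [this]
      simp only
      omega

lemma wt_le {M r : ℕ} (hreg : ∀ v, G.degree v = r) (φ : {e // e ∈ PE G q} ≃ Fin M) (v : V) :
    wt G (lab φ) v ≤ r * M + JJ G q v := by
  rw [wt_lab]
  have h1 := card_PV (G := G) (q := q) v
  rw [hreg] at h1
  have h2 : ∑ e ∈ PV G q v, ((φ e : Fin M) : ℕ) + (PV G q v).card ≤ (PV G q v).card * M := by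
    rw [Finset.card_eq_sum_ones, ← Finset.sum_add_distrib, ← Finset.card_eq_sum_ones,
      ← smul_eq_mul, ← Finset.sum_const]
    apply Finset.sum_le_sum
    intro e _
    exact (φ e).2
  have h3 : (PV G q v).card * M + kk G q v * M = r * M := by rw [← add_mul, h1]
  omega

lemma wt_full {M r : ℕ} (hreg : ∀ v, G.degree v = r) (φ : {e // e ∈ PE G q} ≃ Fin M) (v : V)
    (hk : kk G q v = r) : wt G (lab φ) v = r * M + JJ G q v := by
  rw [wt_lab]
  have h1 := card_PV (G := G) (q := q) v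
  rw [hreg, hk] at h1
  have h2 : PV G q v = ∅ := by
    rw [← Finset.card_eq_zero]; omega
  rw [h2, Finset.sum_empty, Finset.card_empty, hk]
  ring

/-- The abstract framework: union bound. -/
theorem framework {r : ℕ} (hreg : ∀ v, G.degree v = r) {x y : V} 
    (hq : Set.BijOn q (QE G q : Set (Sym2 V)) (Set.Icc 1 (QE G q).card))
    (hkx : kk G q x = r) (hky : kk G q y = r) (hJ : JJ G q x = JJ G q y)
    (hx : ∀ u, G.Adj x u → JJ G q u < JJ G q x ∨ (kk G q u = r ∧ JJ G q u ≠ JJ G q x))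
    (hy : ∀ u, G.Adj y u → JJ G q u < JJ G q x ∨ (kk G q u = r ∧ JJ G q u ≠ JJ G q x))
    (B : Sym2 V → ℕ)
    (hB : ∀ u v, G.Adj u v → x ∉ s(u, v) → y ∉ s(u, v) → (bad G q u v).card ≤ B s(u, v))
    (hsum : ∑ e ∈ G.edgeFinset.filter (fun e => x ∉ e ∧ y ∉ e), B e < ((PE G q).card).factorial) :
    ∃ f : Sym2 V → ℕ, Set.BijOn f G.edgeSet (Set.Icc 1 G.edgeFinset.card) ∧
      (∀ u v, G.Adj u v → wt G f u ≠ wt G f v) ∧ wt G f x = wt G f y := by
  classical
  -- bad set of an edge
  let bd : Sym2 V → Finset ({e // e ∈ PE G q} ≃ Fin (PE G q).card) := fun e =>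
    univ.filter (fun φ => ∃ u v, e = s(u, v) ∧ wt G (lab φ) u = wt G (lab φ) v)
  have hbd : ∀ u v, bd s(u, v) = bad G q u v := by
    intro u v
    ext φ
    simp only [bd, bad, Finset.mem_filter, Finset.mem_univ, true_and]
    constructor
    · rintro ⟨a, b, h1, h2⟩
      rw [Sym2.eq_iff] at h1
      rcases h1 with ⟨rfl, rfl⟩ | ⟨rfl, rfl⟩
      · exact h2
      · exact h2.symm
    · intro h
      exact ⟨u, v, rfl, h⟩
  have hlt : ((G.edgeFinset.filter (fun e => x ∉ e ∧ y ∉ e)).biUnion bd).card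
      < (univ : Finset ({e // e ∈ PE G q} ≃ Fin (PE G q).card)).card := by
    rw [card_all (Fintype.card_coe _)]
    refine lt_of_le_of_lt ?_ hsum
    refine Finset.card_biUnion_le.trans ?_
    apply Finset.sum_le_sum
    intro e he
    rw [Finset.mem_filter, SimpleGraph.mem_edgeFinset] at he
    induction e using Sym2.ind with
    | _ u v =>
      rw [hbd]
      exact hB u v he.1 he.2.1 he.2.2
  obtain ⟨φ, _, hφ⟩ := Finset.exists_mem_notMem_of_card_lt_card hlt
  refine ⟨lab φ, lab_bij hq φ, ?_, ?_⟩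
  · have hxy : ∀ u, (JJ G q u < JJ G q x ∨ (kk G q u = r ∧ JJ G q u ≠ JJ G q x)) →
        wt G (lab φ) u ≠ r * (PE G q).card + JJ G q x := by
      intro u hu
      rcases hu with h | ⟨h1, h2⟩
      · have := wt_le hreg φ u
        omega
      · rw [wt_full hreg φ u h1]
        omega
    have hwx : wt G (lab φ) x = r * (PE G q).card + JJ G q x := wt_full hreg φ x hkx
    have hwy : wt G (lab φ) y = r * (PE G q).card + JJ G q x := by
      rw [wt_full hreg φ y hky, hJ]
    intro u v huv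
    by_cases h1 : x ∈ s(u, v)
    · rcases Sym2.mem_iff.mp h1 with h | h
      · subst h
        rw [hwx]
        exact (hxy v (hx v huv)).symm
      · subst h
        rw [hwx]
        exact hxy u (hx u huv.symm)
    · by_cases h2 : y ∈ s(u, v)
      · rcases Sym2.mem_iff.mp h2 with h | h
        · subst h
          rw [hwy]
          exact (hxy v (hy v huv)).symm
        · subst h
          rw [hwy]
          exact hxy u (hy u huv.symm)
      · intro hcon
        apply hφ
        rw [Finset.mem_biUnion]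
        refine ⟨s(u, v), ?_, ?_⟩
        · rw [Finset.mem_filter, SimpleGraph.mem_edgeFinset]
          exact ⟨huv, h1, h2⟩
        · rw [hbd]
          unfold bad
          rw [Finset.mem_filter]
          exact ⟨mem_univ _, hcon⟩
  · rw [wt_full hreg φ x hkx, wt_full hreg φ y hky, hJ]

end

end Pool.Agent.helper6.LA
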