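import Pool.Agent.helper6.LA.OddSmall

/-! Every connected non-complete regular graph has a local antimagic labelling with a repeated
weight. -/

namespace Pool.Agent.helper6.LA

open Finset

section

variable {V : Type*} [Fintype V] [DecidableEq V] {G : SimpleGraph V} [DecidableRel G.Adj]

/-- cycles: every labelling is proper. -/
lemma two_proper (hreg : ∀ v, G.degree v = 2) (f : Sym2 V → ℕ) (hf : Set.InjOn f G.edgeSet)
    {u v : V} (huv : G.Adj u v) : wt G f u ≠ wt G f v := by
  have key : ∀ u v : V, G.Adj u v → ∃ a, G.Adj u a ∧ a ≠ v ∧ wt G f u = f s(u, v) + f s(u, a) := by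
    intro u v huv
    have hv : v ∈ G.neighborFinset u := (SimpleGraph.mem_neighborFinset _ _ _).mpr huv
    have h1 : ((G.neighborFinset u).erase v).card = 1 := by
      rw [Finset.card_erase_of_mem hv, SimpleGraph.card_neighborFinset_eq_degree, hreg]
    obtain ⟨a, ha⟩ := Finset.card_eq_one.mp h1
    have ha' : a ∈ (G.neighborFinset u).erase v := by rw [ha]; exact Finset.mem_singleton_self a
    rw [Finset.mem_erase, SimpleGraph.mem_neighborFinset] at ha'
    refine ⟨a, ha'.2, ha'.1, ?_⟩
    unfold wt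
    rw [← Finset.add_sum_erase _ _ hv, ha, Finset.sum_singleton]
  obtain ⟨a, ha1, ha2, ha3⟩ := key u v huv
  obtain ⟨c, hc1, hc2, hc3⟩ := key v u huv.symm
  rw [ha3, hc3, Sym2.eq_swap (a := v) (b := u)]
  intro h
  have h1 : f s(u, a) = f s(v, c) := by omega
  have h2 := hf ha1 hc1 h1
  rw [Sym2.eq_iff] at h2
  rcases h2 with ⟨h3, _⟩ | ⟨_, h3⟩
  · exact huv.ne h3
  · exact ha2 h3

theorem main_two {x y z : V} (hreg : ∀ v, G.degree v = 2) (hxy : x ≠ y) (hnxy : ¬ G.Adj x y)
    (hxz : G.Adj x z) (hyz : G.Adj y z) : Concl G x y := by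
  obtain ⟨ρ, hρ, _⟩ := exists_prior G x y z z
  have h : Cfg G 2 xe ye 0 ρ x y z z :=
    { hreg := hreg, hxy := hxy, hnxy := hnxy, hxz := hxz, hyz := hyz
      hzb := fun h => absurd rfl h
      hbx := hxz.ne', hby := hyz.ne', hρ := hρ, hxl := xe_mono, hyl := ye_mono
      hx1 := xe_pos, hy1 := ye_pos, hdis := xe_ne_ye
      hxc := fun i => by have := xe_pos i; omega
      hyc := fun i => by have := ye_pos i; omega }
  let φ : {e // e ∈ PE G (qq G xe ye 0 ρ x y z z)} ≃ Fin (PE G (qq G xe ye 0 ρ x y z z)).card :=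
    (PE G (qq G xe ye 0 ρ x y z z)).equivFin
  have hbij := lab_bij (ev_bij h rfl) φ
  refine ⟨lab φ, hbij, ?_, ?_⟩
  · intro u v huv
    exact two_proper hreg _ hbij.injOn huv
  · rw [wt_full hreg φ x h.k_x, wt_full hreg φ y h.k_y, ev_J h rfl]

theorem main_even {r : ℕ} (hr : r % 2 = 0) {x y z : V} (hreg : ∀ v, G.degree v = r) (hxy : x ≠ y)
    (hnxy : ¬ G.Adj x y) (hxz : G.Adj x z) (hyz : G.Adj y z) (hr4 : 4 ≤ r) : Concl G x y := by
  obtain ⟨ρ, hρ, hκ⟩ := exists_prior G x y z z
  have h : Cfg G r xe ye 0 ρ x y z z :=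
    { hreg := hreg, hxy := hxy, hnxy := hnxy, hxz := hxz, hyz := hyz
      hzb := fun h => absurd rfl h
      hbx := hxz.ne', hby := hyz.ne', hρ := hρ, hxl := xe_mono, hyl := ye_mono
      hx1 := xe_pos, hy1 := ye_pos, hdis := xe_ne_ye
      hxc := fun i => by have := xe_pos i; omega
      hyc := fun i => by have := ye_pos i; omega }
  have hn := card_ge hreg hxy hnxy
  rcases Nat.lt_or_ge (Fintype.card V) 9 with h9 | h9
  · by_cases h2 : Fintype.card V = r + 2
    · exact ev_cocktail h hr hκ hr4 h2
    · have hr' : r = 4 := by omega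
      subst hr'
      have : Fintype.card V = 7 ∨ Fintype.card V = 8 := by omega
      rcases this with h7 | h8
      · exact ev_74 h hκ h7
      · exact ev_84 h hκ h8
  · exact ev_large h hr hκ hr4 h9

theorem main_odd_aux {r : ℕ} (hr : r % 2 = 1) {x y z b : V} (hreg : ∀ v, G.degree v = r) (hxy : x ≠ y)
    (hnxy : ¬ G.Adj x y) (hxz : G.Adj x z) (hyz : G.Adj y z) (hr3 : 3 ≤ r) (hzb : G.Adj z b)
    (hbx : b ≠ x) (hby : b ≠ y) (hb : G.Adj y b → G.Adj x b) : Concl G x y := by
  obtain ⟨ρ, hρ, hκ⟩ := exists_prior G x y z b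
  have h : Cfg G r xo yo 2 ρ x y z b :=
    { hreg := hreg, hxy := hxy, hnxy := hnxy, hxz := hxz, hyz := hyz
      hzb := fun _ => hzb
      hbx := hbx, hby := hby, hρ := hρ, hxl := xo_mono, hyl := yo_mono
      hx1 := fun i => by have := xo_three i; omega
      hy1 := yo_pos, hdis := xo_ne_yo
      hxc := fun i => by have := xo_three i; omega
      hyc := yo_ne_two }
  have hn := card_ge hreg hxy hnxy
  have hev : Fintype.card V % 2 = 0 := by
    have h1 := card_edges hreg
    have h2 : (Fintype.card V * r) % 2 = 0 := by rw [h1]; omega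
    rw [Nat.mul_mod, hr, Nat.mul_one, Nat.mod_mod] at h2
    exact h2
  rcases Nat.lt_or_ge r 5 with h5 | h5
  · have hr' : r = 3 := by omega
    subst hr'
    rcases Nat.lt_or_ge (Fintype.card V) 10 with h10 | h10
    · have : Fintype.card V = 6 ∨ Fintype.card V = 8 := by omega
      rcases this with h6 | h8
      · exact th_six h hκ hb h6
      · exact th_eight h hκ hb h8
    · exact th_large h hκ hb h10
  · rcases Nat.lt_or_ge (Fintype.card V) 10 with h10 | h10
    · have hr' : r = 5 := by omega
      subst hr'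
      exact od_85 h hκ hb (by omega)
    · exact od_large h hr hr3 hκ hb h5 h10

/-- Main theorem, finite version. -/
theorem main_fin {r : ℕ} {x y z : V} (hreg : ∀ v, G.degree v = r) (hxy : x ≠ y)
    (hnxy : ¬ G.Adj x y) (hxz : G.Adj x z) (hyz : G.Adj y z) : ∃ x y : V, x ≠ y ∧ Concl G x y := by
  have hz2 : 2 ≤ r := by
    rw [← hreg z, ← SimpleGraph.card_neighborFinset_eq_degree, ← Finset.card_pair hxy]
    apply Finset.card_le_card
    intro t ht
    rw [Finset.mem_insert, Finset.mem_singleton] at ht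
    rw [SimpleGraph.mem_neighborFinset]
    rcases ht with rfl | rfl
    · exact hxz.symm
    · exact hyz.symm
  rcases Nat.mod_two_eq_zero_or_one r with hr | hr
  · refine ⟨x, y, hxy, ?_⟩
    rcases Nat.lt_or_ge r 4 with h4 | h4
    · have : r = 2 := by omega
      subst this
      exact main_two hreg hxy hnxy hxz hyz
    · exact main_even hr hreg hxy hnxy hxz hyz h4
  · have hr3 : 3 ≤ r := by omega
    -- a third neighbour of z
    have hex : ∃ b, G.Adj z b ∧ b ≠ x ∧ b ≠ y := by
      have h1 : 0 < (((G.neighborFinset z).erase x).erase y).card := by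
        rw [Finset.card_erase_of_mem, Finset.card_erase_of_mem,
          SimpleGraph.card_neighborFinset_eq_degree, hreg]
        · omega
        · rw [SimpleGraph.mem_neighborFinset]; exact hxz.symm
        · rw [Finset.mem_erase, SimpleGraph.mem_neighborFinset]
          exact ⟨hxy.symm, hyz.symm⟩
      obtain ⟨b, hb⟩ := Finset.card_pos.mp h1
      rw [Finset.mem_erase, Finset.mem_erase, SimpleGraph.mem_neighborFinset] at hb
      exact ⟨b, hb.2.2, hb.2.1, hb.1⟩
    obtain ⟨b, hzb, hbx, hby⟩ := hex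
    by_cases hb : G.Adj y b → G.Adj x b
    · exact ⟨x, y, hxy, main_odd_aux hr hreg hxy hnxy hxz hyz hr3 hzb hbx hby hb⟩
    · push Not at hb
      exact ⟨y, x, hxy.symm, main_odd_aux hr hreg hxy.symm (fun h => hnxy h.symm) hyz hxz hr3 hzb hby hbx
        (fun h => absurd h hb.2)⟩

omit [Fintype V] [DecidableEq V] [DecidableRel G.Adj] in
/-- two nonadjacent vertices with a common neighbour. -/
lemma exists_cherry (hconn : G.Connected) (hne : G ≠ ⊤) :
    ∃ x y z : V, x ≠ y ∧ ¬ G.Adj x y ∧ G.Adj x z ∧ G.Adj y z := by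
  by_contra hcon
  push Not at hcon
  apply hne
  have key : ∀ u v : V, G.Reachable u v → u = v ∨ G.Adj u v := by
    intro u v huv
    obtain ⟨p⟩ := huv
    induction p with
    | nil => exact Or.inl rfl
    | cons hadj p ih =>
      rename_i a b c
      rcases ih with h1 | h1
      · subst h1; exact Or.inr hadj
      · by_cases hac : a = c
        · exact Or.inl hac
        · right
          by_contra hnac
          exact hcon a c b hac hnac hadj h1.symm
  ext u v
  rw [SimpleGraph.top_adj]
  constructor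
  · intro h; exact h.ne
  · intro h
    rcases key u v (hconn.preconnected u v) with h1 | h1
    · exact absurd h1 h
    · exact h1

end

end Pool.Agent.helper6.LA
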