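import Pool.Agent.helper6.LA.EvenSmall

/-! The odd case. -/

namespace Pool.Agent.helper6.LA

open Finset

section

variable {V : Type*} [Fintype V] [DecidableEq V] {G : SimpleGraph V} [DecidableRel G.Adj]

section odd

variable {r : ℕ} {ρ : V → ℕ} {x y z b : V} (h : Cfg G r xo yo 2 ρ x y z b) (hr : r % 2 = 1)
  (hr3 : 3 ≤ r)
  (hκ : ∀ u v, kap G x y z b u < kap G x y z b v → ρ u < ρ v)
  (hb : G.Adj y b → G.Adj x b)

include h

lemma od_k {v : V} (hvx : v ≠ x) (hvy : v ≠ y) :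
    kk G (qq G xo yo 2 ρ x y z b) v = k' G x y v + (if v = z ∨ v = b then 1 else 0) :=
  h.k_odd rfl hvx hvy

lemma od_k_z : kk G (qq G xo yo 2 ρ x y z b) z = 3 := by
  rw [od_k h h.hzx h.hzy, if_pos (Or.inl rfl)]
  unfold k'
  rw [if_pos h.hxz, if_pos h.hyz]

lemma od_k_le {v : V} (hvx : v ≠ x) (hvy : v ≠ y) : kk G (qq G xo yo 2 ρ x y z b) v ≤ 3 := by
  rw [od_k h hvx hvy]
  unfold k'
  split_ifs <;> omega

lemma od_k_three {v : V} (hvx : v ≠ x) (hvy : v ≠ y)
    (hk : kk G (qq G xo yo 2 ρ x y z b) v = 3) : v = z ∨ v = b := by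
  rw [od_k h hvx hvy] at hk
  unfold k' at hk
  by_contra hcon
  rw [if_neg hcon] at hk
  split_ifs at hk <;> omega

lemma od_k_b : 1 ≤ kk G (qq G xo yo 2 ρ x y z b) b := by
  rw [od_k h h.hbx h.hby, if_pos (Or.inr rfl)]
  omega

include hr hr3

lemma od_Q : (QE G (qq G xo yo 2 ρ x y z b)).card = 2 * r + 1 :=
  Cfg.card_of_bij (h.q_bij (2 * r + 1) (fun _ hi => xo_le hr3 hi) (fun _ hi => yo_le hr3 hi) (by omega)
    (fun l h1 h2 => cov_o r l hr hr3 h1 h2))

lemma od_bij : Set.BijOn (qq G xo yo 2 ρ x y z b) (QE G (qq G xo yo 2 ρ x y z b) : Set (Sym2 V))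
    (Set.Icc 1 (QE G (qq G xo yo 2 ρ x y z b)).card) := by
  rw [od_Q h hr hr3]
  exact h.q_bij (2 * r + 1) (fun _ hi => xo_le hr3 hi) (fun _ hi => yo_le hr3 hi) (by omega)
    (fun l h1 h2 => cov_o r l hr hr3 h1 h2)

lemma od_M : 2 * (PE G (qq G xo yo 2 ρ x y z b)).card + 4 * r + 2 = Fintype.card V * r := by
  have h1 := card_PE_QE (G := G) (qq G xo yo 2 ρ x y z b)
  rw [od_Q h hr hr3] at h1
  have h2 := card_edges h.hreg
  omega

lemma od_J : JJ G (qq G xo yo 2 ρ x y z b) x = JJ G (qq G xo yo 2 ρ x y z b) y := by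
  obtain ⟨k, rfl⟩ : ∃ k, r = 2 * (k + 1) + 1 := ⟨r / 2 - 1, by omega⟩
  rw [h.J_x, h.J_y, sum_xo, sum_yo]

omit hr3 in
lemma od_P4_large (hr5 : 5 ≤ r) {u : V} (hux : u ≠ x) (huy : u ≠ y) :
    JJ G (qq G xo yo 2 ρ x y z b) u < JJ G (qq G xo yo 2 ρ x y z b) x := by
  apply P4_gen h (by omega) _ hux huy
  obtain ⟨k, rfl⟩ : ∃ k, r = 2 * (k + 1 + 1) + 1 := ⟨r / 2 - 2, by omega⟩
  rw [sum_xo]
  have h1 : xo (2 * (k + 1 + 1) + 1 - 1) = 4 * k + 10 := by
    rw [Nat.add_sub_cancel]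
    unfold xo
    rw [if_neg (by omega), if_neg (by omega), if_pos (by omega)]
    ring
  have h2 : yo (2 * (k + 1 + 1) + 1 - 1) = 4 * k + 11 := by
    rw [Nat.add_sub_cancel]
    unfold yo
    rw [if_neg (by omega), if_neg (by omega), if_pos (by omega)]
    ring
  rw [h1, h2]
  nlinarith

omit hr hr3 in
include hκ in
lemma od_P4_three (hr' : r = 3) {u : V} (hux : u ≠ x) (huy : u ≠ y) :
    JJ G (qq G xo yo 2 ρ x y z b) u < JJ G (qq G xo yo 2 ρ x y z b) x ∨
    (kk G (qq G xo yo 2 ρ x y z b) u = r ∧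
      JJ G (qq G xo yo 2 ρ x y z b) u ≠ JJ G (qq G xo yo 2 ρ x y z b) x) := by
  have hJx : JJ G (qq G xo yo 2 ρ x y z b) x = 13 := by
    rw [h.J_x, hr']; decide
  have hrz : ∀ w : V, G.Adj w z → rk G ρ w z = 2 := by
    intro w hw
    unfold rk
    have : (G.neighborFinset w).filter (fun t => ρ t < ρ z) = (G.neighborFinset w).erase z := by
      ext t
      rw [Finset.mem_filter, Finset.mem_erase]
      constructor
      · rintro ⟨h1, h2⟩
        refine ⟨?_, h1⟩
        rintro rfl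
        exact lt_irrefl _ h2
      · rintro ⟨h1, h2⟩
        exact ⟨h2, h.lt_z hκ h1⟩
    rw [this, Finset.card_erase_of_mem, SimpleGraph.card_neighborFinset_eq_degree, h.hreg, hr']
    rw [SimpleGraph.mem_neighborFinset]
    exact hw
  by_cases huz : u = z
  · right
    subst huz
    refine ⟨by rw [od_k_z h, hr'], ?_⟩
    rw [hJx, h.J_eq hux huy, if_pos (Or.inl rfl)]
    unfold Jx
    rw [if_pos h.hxz, if_pos h.hyz, hrz x h.hxz, hrz y h.hyz]
    decide
  · left
    rw [hJx, h.J_eq hux huy]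
    have hlt := h.lt_z hκ huz
    have h1 : Jx G xo ρ x u ≤ 4 := by
      unfold Jx
      split_ifs with h1
      · have h2 := rk_lt_rk h1 hlt
        rw [hrz x h.hxz] at h2
        exact xo_mono.monotone (show rk G ρ x u ≤ 1 by omega)
      · omega
    have h2 : Jx G yo ρ y u ≤ 5 := by
      unfold Jx
      split_ifs with h1
      · have h2 := rk_lt_rk h1 hlt
        rw [hrz y h.hyz] at h2
        exact yo_mono.monotone (show rk G ρ y u ≤ 1 by omega)
      · omega
    have h3 : (if u = z ∨ u = b then 2 else 0) ≤ 2 := by split_ifs <;> omega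
    omega

include hκ

lemma od_P4 {u : V} (hux : u ≠ x) (huy : u ≠ y) :
    JJ G (qq G xo yo 2 ρ x y z b) u < JJ G (qq G xo yo 2 ρ x y z b) x ∨
    (kk G (qq G xo yo 2 ρ x y z b) u = r ∧
      JJ G (qq G xo yo 2 ρ x y z b) u ≠ JJ G (qq G xo yo 2 ρ x y z b) x) := by
  rcases Nat.lt_or_ge r 5 with h1 | h1
  · exact od_P4_three h hκ (by omega) hux huy
  · exact Or.inl (od_P4_large h hr h1 hux huy)

/-- master criterion in the odd case. -/
lemma od_master (B : Sym2 V → ℕ)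
    (hB : ∀ u v, G.Adj u v → u ≠ x → u ≠ y → v ≠ x → v ≠ y →
      kk G (qq G xo yo 2 ρ x y z b) u ≤ kk G (qq G xo yo 2 ρ x y z b) v →
      (bad G (qq G xo yo 2 ρ x y z b) u v).card ≤ B s(u, v))
    (hsum : B s(z, b) + ∑ e ∈ PE G (qq G xo yo 2 ρ x y z b), B e
      < ((PE G (qq G xo yo 2 ρ x y z b)).card).factorial) : Concl G x y := by
  classical
  apply framework h.hreg (od_bij h hr hr3) h.k_x h.k_y (od_J h hr hr3) _ _ B
  · intro u v huv hx hy
    rw [Sym2.mem_iff, not_or] at hx hy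
    rcases Nat.le_total (kk G (qq G xo yo 2 ρ x y z b) u) (kk G (qq G xo yo 2 ρ x y z b) v) with h1 | h1
    · exact hB u v huv (Ne.symm hx.1) (Ne.symm hy.1) (Ne.symm hx.2) (Ne.symm hy.2) h1
    · rw [bad_comm, Sym2.eq_swap]
      exact hB v u huv.symm (Ne.symm hx.2) (Ne.symm hy.2) (Ne.symm hx.1) (Ne.symm hy.1) h1
  · refine lt_of_le_of_lt ?_ hsum
    calc _ ≤ ∑ e ∈ insert s(z, b) (PE G (qq G xo yo 2 ρ x y z b)), B e := by
          apply Finset.sum_le_sum_of_subset
          intro e he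
          rw [Finset.mem_filter, SimpleGraph.mem_edgeFinset] at he
          rw [Finset.mem_insert]
          induction e using Sym2.ind with
          | _ u v =>
            rw [Cfg.pool_iff he.1 he.2.1 he.2.2]
            by_cases h1 : s(u, v) = s(z, b)
            · exact Or.inl h1
            · exact Or.inr (Or.inr h1)
      _ ≤ _ := by
          by_cases h1 : s(z, b) ∈ PE G (qq G xo yo 2 ρ x y z b)
          · rw [Finset.insert_eq_of_mem h1]; omega
          · rw [Finset.sum_insert h1]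
  · intro u hu
    exact od_P4 h hr hr3 hκ hu.ne' (by rintro rfl; exact h.hnxy hu)
  · intro u hu
    exact od_P4 h hr hr3 hκ (by rintro rfl; exact h.hnxy hu.symm) hu.ne'

include hb

omit hr hr3 in
lemma od_P1 {u v : V} (hux : u ≠ x) (huy : u ≠ y) (hvx : v ≠ x) (hvy : v ≠ y)
    (hk : kk G (qq G xo yo 2 ρ x y z b) u < kk G (qq G xo yo 2 ρ x y z b) v) :
    JJ G (qq G xo yo 2 ρ x y z b) u < JJ G (qq G xo yo 2 ρ x y z b) v :=
  h.P1_odd hκ rfl xo_three yo_lt hb hux huy hvx hvy hk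

omit hr hr3 in
lemma od_P2 {u v : V} (hux : u ≠ x) (huy : u ≠ y) (hvx : v ≠ x) (hvy : v ≠ y) (huv : u ≠ v)
    (hk : kk G (qq G xo yo 2 ρ x y z b) u = kk G (qq G xo yo 2 ρ x y z b) v)
    (hk1 : 1 ≤ kk G (qq G xo yo 2 ρ x y z b) u) :
    JJ G (qq G xo yo 2 ρ x y z b) u ≠ JJ G (qq G xo yo 2 ρ x y z b) v :=
  h.P2_odd hκ rfl yo_three hb hux huy hvx hvy huv hk hk1

/-- the types of bounds in the odd case. -/
lemma od_types {u v : V}
    (huv : G.Adj u v) (hux : u ≠ x) (huy : u ≠ y) (hvx : v ≠ x) (hvy : v ≠ y)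
    (hk : kk G (qq G xo yo 2 ρ x y z b) u ≤ kk G (qq G xo yo 2 ρ x y z b) v) :
    (bad G (qq G xo yo 2 ρ x y z b) u v).card = 0 ∨
    (∃ δ b', 1 ≤ δ ∧ 1 ≤ b' ∧ 
      kk G (qq G xo yo 2 ρ x y z b) v = kk G (qq G xo yo 2 ρ x y z b) u + δ ∧
      kk G (qq G xo yo 2 ρ x y z b) v + cc G (qq G xo yo 2 ρ x y z b) u v + b' = r ∧
      (3 ≤ (PE G (qq G xo yo 2 ρ x y z b)).card →
      2 * (bad G (qq G xo yo 2 ρ x y z b) u v).card ≤
        ((PE G (qq G xo yo 2 ρ x y z b)).card - 1).factorial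
        + ((if δ = 1 then 2 else 0) + 2 * ((b' - 1) * δ))
          * ((PE G (qq G xo yo 2 ρ x y z b)).card - 2).factorial)) ∨
    (∃ s, 2 ≤ s ∧ kk G (qq G xo yo 2 ρ x y z b) v = kk G (qq G xo yo 2 ρ x y z b) u ∧
      kk G (qq G xo yo 2 ρ x y z b) v + cc G (qq G xo yo 2 ρ x y z b) u v + s = r ∧
      2 * ((2 * s - 1) * (bad G (qq G xo yo 2 ρ x y z b) u v).card) ≤
        2 * s * ((PE G (qq G xo yo 2 ρ x y z b)).card - 1).factorial
        + (2 * s - 1) * (2 * s * ((PE G (qq G xo yo 2 ρ x y z b)).card - 2).factorial)) ∨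
    (kk G (qq G xo yo 2 ρ x y z b) v = kk G (qq G xo yo 2 ρ x y z b) u ∧
      1 ≤ kk G (qq G xo yo 2 ρ x y z b) v ∧
      kk G (qq G xo yo 2 ρ x y z b) v + cc G (qq G xo yo 2 ρ x y z b) u v + 1 = r ∧
      (bad G (qq G xo yo 2 ρ x y z b) u v).card ≤
        ((PE G (qq G xo yo 2 ρ x y z b)).card - 1)
          * ((PE G (qq G xo yo 2 ρ x y z b)).card - 2).factorial ∧
      (JJ G (qq G xo yo 2 ρ x y z b) u + 2 ≤ JJ G (qq G xo yo 2 ρ x y z b) v ∨
        JJ G (qq G xo yo 2 ρ x y z b) v + 2 ≤ JJ G (qq G xo yo 2 ρ x y z b) u →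
      (bad G (qq G xo yo 2 ρ x y z b) u v).card ≤
        ((PE G (qq G xo yo 2 ρ x y z b)).card - 2)
          * ((PE G (qq G xo yo 2 ρ x y z b)).card - 2).factorial)) := by
  have hcc := cc_le_one (G := G) (q := qq G xo yo 2 ρ x y z b) huv.ne
  have hk3 := od_k_le h hvx hvy
  have hB := card_B (G := G) (q := qq G xo yo 2 ρ x y z b) u v
  rw [h.hreg] at hB
  rcases Nat.lt_or_ge (kk G (qq G xo yo 2 ρ x y z b) u) (kk G (qq G xo yo 2 ρ x y z b) v) with h1 | h1
  · have hJ := od_P1 h hκ hb hux huy hvx hvy h1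
    by_cases h2 : kk G (qq G xo yo 2 ρ x y z b) v + cc G (qq G xo yo 2 ρ x y z b) u v = r
    · left
      exact bad_i h.hreg h1 hJ h2
    · right; left
      refine ⟨kk G (qq G xo yo 2 ρ x y z b) v - kk G (qq G xo yo 2 ρ x y z b) u,
        r - kk G (qq G xo yo 2 ρ x y z b) v - cc G (qq G xo yo 2 ρ x y z b) u v,
        by omega, by omega, by omega, by omega, ?_⟩
      intro hM
      exact bad_ii h.hreg (by omega) (by omega) hJ (by omega) (by omega) hM
  · have h2 : kk G (qq G xo yo 2 ρ x y z b) u = kk G (qq G xo yo 2 ρ x y z b) v := by omega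
    by_cases h3 : kk G (qq G xo yo 2 ρ x y z b) v + cc G (qq G xo yo 2 ρ x y z b) u v = r
    · left
      exact bad_v h.hreg h2 (od_P2 h hκ hb hux huy hvx hvy huv.ne h2 (by omega)) h3
    · by_cases h4 : kk G (qq G xo yo 2 ρ x y z b) v + cc G (qq G xo yo 2 ρ x y z b) u v + 2 ≤ r
      · right; right; left
        refine ⟨r - kk G (qq G xo yo 2 ρ x y z b) v - cc G (qq G xo yo 2 ρ x y z b) u v,
          by omega, by omega, by omega, ?_⟩
        exact bad_iii h.hreg (by omega) h2 (by omega)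
      · right; right; right
        have hk1 : 1 ≤ kk G (qq G xo yo 2 ρ x y z b) u := by omega
        have hJ := od_P2 h hκ hb hux huy hvx hvy huv.ne h2 hk1
        refine ⟨h2.symm, by omega, by omega, ?_, ?_⟩
        · exact bad_iv h.hreg (T := 1) (by omega) h2 (by omega) (by omega)
        · intro h5
          exact bad_iv h.hreg (T := 2) (by omega) h2 (by omega) h5

omit hb hκ hr hr3 in
/-- the edge `zb` -/
lemma od_e0 {u v : V} (huv : G.Adj u v) (hux : u ≠ x) (huy : u ≠ y) (hvx : v ≠ x) (hvy : v ≠ y)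
    (hk : kk G (qq G xo yo 2 ρ x y z b) u ≤ kk G (qq G xo yo 2 ρ x y z b) v)
    (hcc : cc G (qq G xo yo 2 ρ x y z b) u v = 0) :
    s(u, v) = s(z, b) ∧ kk G (qq G xo yo 2 ρ x y z b) v = 3 ∧ 1 ≤ kk G (qq G xo yo 2 ρ x y z b) u := by
  have hxe : x ∉ s(u, v) := by
    rw [Sym2.mem_iff, not_or]; exact ⟨hux.symm, hvx.symm⟩
  have hye : y ∉ s(u, v) := by
    rw [Sym2.mem_iff, not_or]; exact ⟨huy.symm, hvy.symm⟩
  have hE : s(u, v) = s(z, b) := by
    by_contra hcon
    have : s(u, v) ∈ PE G (qq G xo yo 2 ρ x y z b) := (Cfg.pool_iff huv hxe hye).mpr (Or.inr hcon)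
    have := cc_eq_one huv.ne this
    omega
  refine ⟨hE, ?_⟩
  have hz := od_k_z h
  have hb' := od_k_b h
  rw [Sym2.eq_iff] at hE
  rcases hE with ⟨rfl, rfl⟩ | ⟨rfl, rfl⟩
  · have := od_k_le h hvx hvy
    omega
  · omega

/-- odd case, `r ≥ 5`, `n ≥ 10`. -/
theorem od_large (hr5 : 5 ≤ r) (hn : 10 ≤ Fintype.card V) : Concl G x y := by
  have hM := od_M h hr hr3
  have hnr := card_ge h.hreg h.hxy h.hnxy
  set M := (PE G (qq G xo yo 2 ρ x y z b)).card with hMdef
  set n := Fintype.card V with hndef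
  have hnr3 : r + 3 ≤ n := by
    by_contra hcon
    have h1 : n = r + 2 := by omega
    rw [h1] at hM
    have h2 : ((r + 2) * r) % 2 = 1 := by
      rw [Nat.mul_mod, show (r + 2) % 2 = 1 by omega, hr]
    omega
  have h10 : 10 * r ≤ n * r := Nat.mul_le_mul_right _ hn
  have hXX : 16 * r ≤ n * r + 52 := by
    rcases Nat.lt_or_ge n 16 with h1 | h1
    · have h2 : n = 10 ∨ n = 11 ∨ n = 12 ∨ n = 13 ∨ n = 14 ∨ n = 15 := by omega
      rcases h2 with h2 | h2 | h2 | h2 | h2 | h2 <;> rw [h2] <;> omega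
    · have := Nat.mul_le_mul_right r h1
      omega
  -- the constant bound
  have hconst : ∀ N, (M + 1) * N < M.factorial → N ≤ (M.factorial - 1) / (M + 1) := by
    intro N hN
    rw [Nat.le_div_iff_mul_le (by omega), mul_comm]
    omega
  apply od_master h hr hr3 hκ (fun _ => (M.factorial - 1) / (M + 1))
  · intro u v huv hux huy hvx hvy hk
    apply hconst
    have hcc := cc_le_one (G := G) (q := qq G xo yo 2 ρ x y z b) huv.ne
    have hk3 := od_k_le h hvx hvy
    have hcc0 : cc G (qq G xo yo 2 ρ x y z b) u v = 0 →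
        kk G (qq G xo yo 2 ρ x y z b) v = 3 ∧ 1 ≤ kk G (qq G xo yo 2 ρ x y z b) u :=
      fun h0 => (od_e0 h huv hux huy hvx hvy hk h0).2
    rcases od_types h hr hr3 hκ hb huv hux huy hvx hvy hk with
      h0 | ⟨δ, b', hδ, hb', h1, h2, h3⟩ | ⟨s, hs, h1, h2, h3⟩ | ⟨h1, h2, h3, _⟩
    · rw [h0, mul_zero]; exact Nat.factorial_pos _
    · apply num_ii_odd (by omega) _ (h3 (by omega))
      have hδ2 : δ = 1 ∨ δ = 2 ∨ δ = 3 := by omega
      have hb2 : b' + δ + 1 ≤ r := by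
        rcases Nat.eq_zero_or_pos (cc G (qq G xo yo 2 ρ x y z b) u v) with h0 | h0
        · have := hcc0 h0
          omega
        · omega
      rcases hδ2 with rfl | rfl | rfl
      · rw [if_pos rfl]; omega
      · rw [if_neg (by omega)]; omega
      · rw [if_neg (by omega)]; omega
    · have hs2 : s + 1 ≤ r := by
        rcases Nat.eq_zero_or_pos (cc G (qq G xo yo 2 ρ x y z b) u v) with h0 | h0
        · have := hcc0 h0
          omega
        · omega
      exact num_iii_odd hs (by omega) (by omega) h3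
    · exfalso
      -- `kk u = kk v = 3`
      have h4 : kk G (qq G xo yo 2 ρ x y z b) v = 3 := by omega
      have h5 := od_k_three h hvx hvy h4
      have h6 := od_k_three h hux huy (by omega)
      have h7 : s(u, v) = s(z, b) := by
        rw [Sym2.eq_iff]
        rcases h5 with h5 | h5 <;> rcases h6 with h6 | h6
        · exact absurd (h6.trans h5.symm) huv.ne
        · right; exact ⟨h6, h5⟩
        · left; exact ⟨h6, h5⟩
        · exact absurd (h6.trans h5.symm) huv.ne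
      have h8 : s(u, v) ∉ PE G (qq G xo yo 2 ρ x y z b) := by
        rw [h7, mem_PE, not_and, h.q_zb]
        intro _; omega
      have := cc_eq_zero huv.ne h8
      omega
  · rw [Finset.sum_const, smul_eq_mul]
    have h1 : (M.factorial - 1) / (M + 1) * (M + 1) ≤ M.factorial - 1 := Nat.div_mul_le_self _ _
    have h2 := Nat.factorial_pos M
    have h3 : (M.factorial - 1) / (M + 1) + M * ((M.factorial - 1) / (M + 1))
        = (M.factorial - 1) / (M + 1) * (M + 1) := by ring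
    show (M.factorial - 1) / (M + 1) + M * ((M.factorial - 1) / (M + 1)) < M.factorial
    rw [h3]
    omega

end odd

end

end Pool.Agent.helper6.LA
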