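import Pool.Agent.helper6.LA.Odd

/-! The odd case, `r = 3` and `n = 8`, `r = 5`. -/

namespace Pool.Agent.helper6.LA

open Finset

section

variable {V : Type*} [Fintype V] [DecidableEq V] {G : SimpleGraph V} [DecidableRel G.Adj]

lemma size_le {r : ℕ} (hreg : ∀ v, G.degree v = r) (q : Sym2 V → ℕ) (u v : V) :
    2 * r ≤ (PE G q).card + cc G q u v + kk G q u + kk G q v := by
  have h1 := card_A (G := G) (q := q) u v
  have h2 := card_B (G := G) (q := q) u v
  rw [hreg] at h1 h2
  have h3 : (PV G q u ∪ PV G q v).card ≤ (PE G q).card := by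
    have := Finset.card_le_univ (PV G q u ∪ PV G q v)
    rw [Fintype.card_coe] at this
    exact this
  have h4 := Finset.card_union_add_card_inter (PV G q u) (PV G q v)
  have h5 := Finset.card_sdiff_add_card_inter (PV G q u) (PV G q v)
  have h6 := Finset.card_sdiff_add_card_inter (PV G q v) (PV G q u)
  rw [Finset.inter_comm] at h6
  unfold cc at *
  omega

lemma card_filter_PE (q : Sym2 V → ℕ) (v : V) :
    ((PE G q).filter (fun e => v ∈ e)).card = (PV G q v).card := by
  symm
  apply Finset.card_bij (fun e _ => e.1)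
  · intro e he
    rw [mem_PV] at he
    rw [Finset.mem_filter]
    exact ⟨e.2, he⟩
  · intro e _ e' _ hee
    exact Subtype.ext hee
  · intro e he
    rw [Finset.mem_filter] at he
    exact ⟨⟨e, he.1⟩, mem_PV.mpr he.2, rfl⟩

section three

variable {ρ : V → ℕ} {x y z b : V} (h : Cfg G 3 xo yo 2 ρ x y z b)
  (hκ : ∀ u v, kap G x y z b u < kap G x y z b v → ρ u < ρ v)
  (hb : G.Adj y b → G.Adj x b)

include h hκ hb

/-- types for `r = 3`. -/
lemma th_types {u v : V}
    (huv : G.Adj u v) (hux : u ≠ x) (huy : u ≠ y) (hvx : v ≠ x) (hvy : v ≠ y)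
    (hk : kk G (qq G xo yo 2 ρ x y z b) u ≤ kk G (qq G xo yo 2 ρ x y z b) v) :
    (bad G (qq G xo yo 2 ρ x y z b) u v).card = 0 ∨
    (kk G (qq G xo yo 2 ρ x y z b) v = 1 ∧ kk G (qq G xo yo 2 ρ x y z b) u = 0 ∧
      cc G (qq G xo yo 2 ρ x y z b) u v = 1 ∧
      (3 ≤ (PE G (qq G xo yo 2 ρ x y z b)).card →
      2 * (bad G (qq G xo yo 2 ρ x y z b) u v).card ≤
        ((PE G (qq G xo yo 2 ρ x y z b)).card - 1).factorial
        + 2 * ((PE G (qq G xo yo 2 ρ x y z b)).card - 2).factorial)) ∨
    (kk G (qq G xo yo 2 ρ x y z b) v = 0 ∧ kk G (qq G xo yo 2 ρ x y z b) u = 0 ∧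
      cc G (qq G xo yo 2 ρ x y z b) u v = 1 ∧
      6 * (bad G (qq G xo yo 2 ρ x y z b) u v).card ≤
        4 * ((PE G (qq G xo yo 2 ρ x y z b)).card - 1).factorial
        + 12 * ((PE G (qq G xo yo 2 ρ x y z b)).card - 2).factorial) ∨
    (kk G (qq G xo yo 2 ρ x y z b) v = 1 ∧ kk G (qq G xo yo 2 ρ x y z b) u = 1 ∧
      cc G (qq G xo yo 2 ρ x y z b) u v = 1 ∧
      (bad G (qq G xo yo 2 ρ x y z b) u v).card ≤
        ((PE G (qq G xo yo 2 ρ x y z b)).card - 1)
          * ((PE G (qq G xo yo 2 ρ x y z b)).card - 2).factorial ∧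
      (JJ G (qq G xo yo 2 ρ x y z b) u + 2 ≤ JJ G (qq G xo yo 2 ρ x y z b) v ∨
        JJ G (qq G xo yo 2 ρ x y z b) v + 2 ≤ JJ G (qq G xo yo 2 ρ x y z b) u →
      (bad G (qq G xo yo 2 ρ x y z b) u v).card ≤
        ((PE G (qq G xo yo 2 ρ x y z b)).card - 2)
          * ((PE G (qq G xo yo 2 ρ x y z b)).card - 2).factorial)) := by
  have hcc := cc_le_one (G := G) (q := qq G xo yo 2 ρ x y z b) huv.ne
  have hcc0 : cc G (qq G xo yo 2 ρ x y z b) u v = 0 →
      kk G (qq G xo yo 2 ρ x y z b) v = 3 ∧ 1 ≤ kk G (qq G xo yo 2 ρ x y z b) u :=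
    fun h0 => (od_e0 h huv hux huy hvx hvy hk h0).2
  have hcc' : cc G (qq G xo yo 2 ρ x y z b) u v = 1 ∨ kk G (qq G xo yo 2 ρ x y z b) v = 3 := by
    rcases Nat.eq_zero_or_pos (cc G (qq G xo yo 2 ρ x y z b) u v) with h0 | h0
    · exact Or.inr (hcc0 h0).1
    · left; omega
  rcases od_types h rfl le_rfl hκ hb huv hux huy hvx hvy hk with
    h0 | ⟨δ, b', hδ, hb', h1, h2, h3⟩ | ⟨s, hs, h1, h2, h3⟩ | ⟨h1, h2, h3, h4, h5⟩
  · exact Or.inl h0
  · right; left
    have e1 : δ = 1 := by omega
    have e2 : b' = 1 := by omega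
    subst e1
    subst e2
    refine ⟨by omega, by omega, by omega, fun hM => ?_⟩
    have h4 := h3 hM
    rw [if_pos rfl] at h4
    simpa using h4
  · right; right; left
    have e1 : s = 2 := by omega
    subst e1
    refine ⟨by omega, by omega, by omega, ?_⟩
    have e3 : ∀ N a b : ℕ, 2 * ((2 * 2 - 1) * N) ≤ 2 * 2 * a + (2 * 2 - 1) * (2 * 2 * b) →
        6 * N ≤ 4 * a + 12 * b := by
      intro N a b h; omega
    exact e3 _ _ _ h3
  · right; right; right
    exact ⟨by omega, by omega, by omega, h4, h5⟩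

/-- not all pool edges are tight. -/
lemma th_strict (hM : 4 ≤ (PE G (qq G xo yo 2 ρ x y z b)).card)
    (h00 : ∀ u v, G.Adj u v → u ≠ x → u ≠ y → v ≠ x → v ≠ y →
      kk G (qq G xo yo 2 ρ x y z b) u = 0 → kk G (qq G xo yo 2 ρ x y z b) v = 0 →
      (bad G (qq G xo yo 2 ρ x y z b) u v).card
        < ((PE G (qq G xo yo 2 ρ x y z b)).card - 1).factorial) :
    ∃ u v, s(u, v) ∈ PE G (qq G xo yo 2 ρ x y z b) ∧
      (bad G (qq G xo yo 2 ρ x y z b) u v).card
        < ((PE G (qq G xo yo 2 ρ x y z b)).card - 1).factorial := by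
  classical
  by_contra hcon
  push Not at hcon
  -- endpoints of pool edges are not x, y
  have hends : ∀ u v, s(u, v) ∈ PE G (qq G xo yo 2 ρ x y z b) → u ≠ x ∧ u ≠ y := by
    intro u v huv
    have h1 := mem_PE.mp huv
    constructor
    · rintro rfl
      have h2 : G.Adj u v := h1.1
      rw [h.q_x h2] at h1
      have := h.hx1 (rk G ρ u v)
      omega
    · rintro rfl
      have h2 : G.Adj u v := h1.1
      rw [h.q_y h2] at h1
      have := h.hy1 (rk G ρ u v)
      omega
  have hFpos := Nat.factorial_pos ((PE G (qq G xo yo 2 ρ x y z b)).card - 2)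
  have hF1 := fac1 (M := (PE G (qq G xo yo 2 ρ x y z b)).card) (by omega)
  -- all pool edges are tight
  have key0 : ∀ u v, s(u, v) ∈ PE G (qq G xo yo 2 ρ x y z b) →
      kk G (qq G xo yo 2 ρ x y z b) u ≤ kk G (qq G xo yo 2 ρ x y z b) v →
      kk G (qq G xo yo 2 ρ x y z b) u = 1 ∧ kk G (qq G xo yo 2 ρ x y z b) v = 1 ∧
      ¬ (JJ G (qq G xo yo 2 ρ x y z b) u + 2 ≤ JJ G (qq G xo yo 2 ρ x y z b) v ∨
        JJ G (qq G xo yo 2 ρ x y z b) v + 2 ≤ JJ G (qq G xo yo 2 ρ x y z b) u) := by
    intro u v huv hk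
    have hadj : G.Adj u v := (mem_PE.mp huv).1
    have hu := hends u v huv
    have hv := hends v u (by rw [Sym2.eq_swap]; exact huv)
    have hc := hcon u v huv
    rcases th_types h hκ hb hadj hu.1 hu.2 hv.1 hv.2 hk with
      h0 | ⟨h1, h2, h3, h4⟩ | ⟨h1, h2, h3, h4⟩ | ⟨h1, h2, h3, h4, h5⟩
    · exfalso
      have := Nat.factorial_pos ((PE G (qq G xo yo 2 ρ x y z b)).card - 1)
      omega
    · exfalso
      have h5 := h4 (by omega)
      rw [hF1] at h5 hc
      have h6 : 3 * ((PE G (qq G xo yo 2 ρ x y z b)).card - 2).factorial ≤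
          ((PE G (qq G xo yo 2 ρ x y z b)).card - 1) * ((PE G (qq G xo yo 2 ρ x y z b)).card - 2).factorial :=
        Nat.mul_le_mul_right _ (by omega)
      omega
    · exfalso
      have := h00 u v hadj hu.1 hu.2 hv.1 hv.2 h2 h1
      omega
    · refine ⟨h2, h1, ?_⟩
      intro h6
      have h7 := h5 h6
      rw [hF1] at hc
      have h8 : ((PE G (qq G xo yo 2 ρ x y z b)).card - 2) * ((PE G (qq G xo yo 2 ρ x y z b)).card - 2).factorial <
          ((PE G (qq G xo yo 2 ρ x y z b)).card - 1) * ((PE G (qq G xo yo 2 ρ x y z b)).card - 2).factorial :=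
        Nat.mul_lt_mul_of_pos_right (by omega) hFpos
      omega
  have key : ∀ u v, s(u, v) ∈ PE G (qq G xo yo 2 ρ x y z b) →
      kk G (qq G xo yo 2 ρ x y z b) u = 1 ∧ kk G (qq G xo yo 2 ρ x y z b) v = 1 ∧
      ¬ (JJ G (qq G xo yo 2 ρ x y z b) u + 2 ≤ JJ G (qq G xo yo 2 ρ x y z b) v ∨
        JJ G (qq G xo yo 2 ρ x y z b) v + 2 ≤ JJ G (qq G xo yo 2 ρ x y z b) u) := by
    intro u v huv
    rcases Nat.le_total (kk G (qq G xo yo 2 ρ x y z b) u) (kk G (qq G xo yo 2 ρ x y z b) v) with h1 | h1
    · exact key0 u v huv h1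
    · have := key0 v u (by rw [Sym2.eq_swap]; exact huv) h1
      tauto
  -- the vertex with maximal J
  set S1 : Finset V := univ.filter (fun v => v ≠ x ∧ v ≠ y ∧ kk G (qq G xo yo 2 ρ x y z b) v = 1) with hS1
  have hS1ne : S1.Nonempty := by
    have : (PE G (qq G xo yo 2 ρ x y z b)).Nonempty := by
      rw [← Finset.card_pos]; omega
    obtain ⟨e, he⟩ := this
    induction e using Sym2.ind with
    | _ u v =>
      refine ⟨u, ?_⟩
      rw [hS1, Finset.mem_filter]
      exact ⟨mem_univ _, (hends u v he).1, (hends u v he).2, (key u v he).1⟩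
  obtain ⟨v, hvS, hvmax⟩ := Finset.exists_max_image S1 (fun v => JJ G (qq G xo yo 2 ρ x y z b) v) hS1ne
  rw [hS1, Finset.mem_filter] at hvS
  obtain ⟨_, hvx, hvy, hkv⟩ := hvS
  have hPV : (PV G (qq G xo yo 2 ρ x y z b) v).card = 2 := by
    have := card_PV (G := G) (q := qq G xo yo 2 ρ x y z b) v
    rw [h.hreg] at this
    omega
  obtain ⟨e1, he1, e2, he2, hne⟩ := Finset.one_lt_card.mp (show 1 < (PV G (qq G xo yo 2 ρ x y z b) v).card by omega)
  rw [mem_PV] at he1 he2
  obtain ⟨u1, hu1⟩ := Sym2.mem_iff_exists.mp he1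
  obtain ⟨u2, hu2⟩ := Sym2.mem_iff_exists.mp he2
  have hp1 : s(v, u1) ∈ PE G (qq G xo yo 2 ρ x y z b) := by rw [← hu1]; exact e1.2
  have hp2 : s(v, u2) ∈ PE G (qq G xo yo 2 ρ x y z b) := by rw [← hu2]; exact e2.2
  have hu12 : u1 ≠ u2 := by
    rintro rfl
    apply hne
    apply Subtype.ext
    rw [hu1, hu2]
  have hp1' : s(u1, v) ∈ PE G (qq G xo yo 2 ρ x y z b) := by rw [Sym2.eq_swap]; exact hp1
  have hp2' : s(u2, v) ∈ PE G (qq G xo yo 2 ρ x y z b) := by rw [Sym2.eq_swap]; exact hp2
  have ha1 : G.Adj u1 v := (mem_PE.mp hp1').1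
  have ha2 : G.Adj u2 v := (mem_PE.mp hp2').1
  have k1 := key u1 v hp1'
  have k2 := key u2 v hp2'
  have n1 := hends u1 v hp1'
  have n2 := hends u2 v hp2'
  have m1 := hvmax u1 (by rw [hS1, Finset.mem_filter]; exact ⟨mem_univ _, n1.1, n1.2, k1.1⟩)
  have m2 := hvmax u2 (by rw [hS1, Finset.mem_filter]; exact ⟨mem_univ _, n2.1, n2.2, k2.1⟩)
  have j1 := od_P2 h hκ hb n1.1 n1.2 hvx hvy ha1.ne (by omega) (by omega)
  have j2 := od_P2 h hκ hb n2.1 n2.2 hvx hvy ha2.ne (by omega) (by omega)
  have j3 := od_P2 h hκ hb n1.1 n1.2 n2.1 n2.2 hu12 (by omega) (by omega)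
  omega

/-- `r = 3`, main argument. -/
theorem th_main (hM : 4 ≤ (PE G (qq G xo yo 2 ρ x y z b)).card)
    (h00 : ∀ u v, G.Adj u v → u ≠ x → u ≠ y → v ≠ x → v ≠ y →
      kk G (qq G xo yo 2 ρ x y z b) u = 0 → kk G (qq G xo yo 2 ρ x y z b) v = 0 →
      (bad G (qq G xo yo 2 ρ x y z b) u v).card
        < ((PE G (qq G xo yo 2 ρ x y z b)).card - 1).factorial) : Concl G x y := by
  classical
  obtain ⟨u0, v0, huv0, hstr⟩ := th_strict h hκ hb hM h00
  set M := (PE G (qq G xo yo 2 ρ x y z b)).card with hMdef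
  have hF1 := fac1 (M := M) (by omega)
  have hF0 := fac0 (M := M) (by omega)
  have hF1pos := Nat.factorial_pos (M - 1)
  have hzbP : s(z, b) ∉ PE G (qq G xo yo 2 ρ x y z b) := by
    rw [mem_PE, not_and, h.q_zb]
    intro _; omega
  apply od_master h rfl le_rfl hκ (fun e => if e = s(z, b) then 0 else
    if e = s(u0, v0) then (M - 1).factorial - 1 else (M - 1).factorial)
  · intro u v huv hux huy hvx hvy hk
    show _ ≤ if s(u, v) = s(z, b) then 0 else
      if s(u, v) = s(u0, v0) then (M - 1).factorial - 1 else (M - 1).factorial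
    by_cases he : s(u, v) = s(z, b)
    · rw [if_pos he]
      have hcc := cc_eq_zero (G := G) (q := qq G xo yo 2 ρ x y z b) huv.ne (by rw [he]; exact hzbP)
      rcases th_types h hκ hb huv hux huy hvx hvy hk with
        h0 | ⟨h1, h2, h3, h4⟩ | ⟨h1, h2, h3, h4⟩ | ⟨h1, h2, h3, h4, h5⟩
      · omega
      · omega
      · omega
      · omega
    · rw [if_neg he]
      by_cases he0 : s(u, v) = s(u0, v0)
      · rw [if_pos he0]
        have : bad G (qq G xo yo 2 ρ x y z b) u v = bad G (qq G xo yo 2 ρ x y z b) u0 v0 := by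
          rw [Sym2.eq_iff] at he0
          rcases he0 with ⟨rfl, rfl⟩ | ⟨rfl, rfl⟩
          · rfl
          · exact bad_comm _ _
        rw [this]
        have hstr2 : (bad G (qq G xo yo 2 ρ x y z b) u0 v0).card < (M - 1).factorial := hstr
        omega
      · rw [if_neg he0]
        rcases th_types h hκ hb huv hux huy hvx hvy hk with
          h0 | ⟨h1, h2, h3, h4⟩ | ⟨h1, h2, h3, h4⟩ | ⟨h1, h2, h3, h4, h5⟩
        · omega
        · have h5 := h4 (by omega)
          change 2 * _ ≤ (M - 1).factorial + 2 * (M - 2).factorial at h5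
          have h6 : 3 * (M - 2).factorial ≤ (M - 1) * (M - 2).factorial :=
            Nat.mul_le_mul_right _ (by omega)
          omega
        · exact (h00 u v huv hux huy hvx hvy h2 h1).le
        · rw [hF1]
          exact h4
  · show (if s(z, b) = s(z, b) then 0 else _) + _ < _
    rw [if_pos rfl, Nat.zero_add]
    have hrest : ∀ e ∈ PE G (qq G xo yo 2 ρ x y z b), (if e = s(z, b) then 0 else
        if e = s(u0, v0) then (M - 1).factorial - 1 else (M - 1).factorial)
        = if e = s(u0, v0) then (M - 1).factorial - 1 else (M - 1).factorial := by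
      intro e he
      rw [if_neg]
      rintro rfl
      exact hzbP he
    rw [Finset.sum_congr rfl hrest, ← Finset.add_sum_erase _ _ huv0, if_pos rfl]
    have h2 : ∀ e ∈ (PE G (qq G xo yo 2 ρ x y z b)).erase s(u0, v0),
        (if e = s(u0, v0) then (M - 1).factorial - 1 else (M - 1).factorial) = (M - 1).factorial := by
      intro e he
      rw [if_neg (Finset.ne_of_mem_erase he)]
    rw [Finset.sum_congr rfl h2, Finset.sum_const, Finset.card_erase_of_mem huv0, smul_eq_mul]
    show (M - 1).factorial - 1 + (M - 1) * (M - 1).factorial < M.factorial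
    rw [hF0]
    have : M * (M - 1).factorial = (M - 1) * (M - 1).factorial + (M - 1).factorial := by
      conv_lhs => rw [show M = (M - 1) + 1 by omega]
      rw [Nat.add_mul, Nat.one_mul]
      rfl
    omega

theorem th_large (hn : 10 ≤ Fintype.card V) : Concl G x y := by
  have hM := od_M h rfl le_rfl
  apply th_main h hκ hb (by omega)
  intro u v huv hux huy hvx hvy hku hkv
  have hF1 := fac1 (M := (PE G (qq G xo yo 2 ρ x y z b)).card) (by omega)
  have hpos := Nat.factorial_pos ((PE G (qq G xo yo 2 ρ x y z b)).card - 2)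
  rcases th_types h hκ hb huv hux huy hvx hvy (by omega) with
    h0 | ⟨h1, h2, h3, h4⟩ | ⟨h1, h2, h3, h4⟩ | ⟨h1, h2, h3, h4, h5⟩
  · rw [h0]; exact Nat.factorial_pos _
  · omega
  · have h6 : 7 * ((PE G (qq G xo yo 2 ρ x y z b)).card - 2).factorial ≤
        ((PE G (qq G xo yo 2 ρ x y z b)).card - 1) * ((PE G (qq G xo yo 2 ρ x y z b)).card - 2).factorial :=
      Nat.mul_le_mul_right _ (by omega)
    omega
  · omega

theorem th_six (hn : Fintype.card V = 6) : Concl G x y := by
  have hM := od_M h rfl le_rfl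
  rw [hn] at hM
  have hM2 : (PE G (qq G xo yo 2 ρ x y z b)).card = 2 := by omega
  apply od_master h rfl le_rfl hκ (fun _ => 0)
  · intro u v huv hux huy hvx hvy hk
    have hs := size_le h.hreg (qq G xo yo 2 ρ x y z b) u v
    rcases th_types h hκ hb huv hux huy hvx hvy hk with
      h0 | ⟨h1, h2, h3, h4⟩ | ⟨h1, h2, h3, h4⟩ | ⟨h1, h2, h3, h4, h5⟩
    · omega
    · omega
    · omega
    · omega
  · rw [Finset.sum_const_zero]
    exact Nat.factorial_pos _

theorem th_eight (hn : Fintype.card V = 8) : Concl G x y := by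
  classical
  have hM := od_M h rfl le_rfl
  rw [hn] at hM
  have hM5 : (PE G (qq G xo yo 2 ρ x y z b)).card = 5 := by omega
  have f0 : ((PE G (qq G xo yo 2 ρ x y z b)).card).factorial = 120 := by rw [hM5]; rfl
  have f1 : ((PE G (qq G xo yo 2 ρ x y z b)).card - 1).factorial = 24 := by rw [hM5]; rfl
  have f2 : ((PE G (qq G xo yo 2 ρ x y z b)).card - 2).factorial = 6 := by rw [hM5]; rfl
  by_cases hex : ∃ u v, G.Adj u v ∧ u ≠ x ∧ u ≠ y ∧ v ≠ x ∧ v ≠ y ∧
      kk G (qq G xo yo 2 ρ x y z b) u = 0 ∧ kk G (qq G xo yo 2 ρ x y z b) v = 0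
  · obtain ⟨u0, v0, huv0, hu0x, hu0y, hv0x, hv0y, hku0, hkv0⟩ := hex
    have hzbP : s(z, b) ∉ PE G (qq G xo yo 2 ρ x y z b) := by
      rw [mem_PE, not_and, h.q_zb]
      intro _; omega
    -- the edge is a pool edge
    have hP0 : s(u0, v0) ∈ PE G (qq G xo yo 2 ρ x y z b) := by
      by_contra hcon
      have hcc := cc_eq_zero huv0.ne hcon
      have := (od_e0 h huv0 hu0x hu0y hv0x hv0y (by omega) hcc).2
      omega
    have hcc0 := cc_eq_one huv0.ne hP0
    -- every pool edge touches u0 or v0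
    have htouch : ∀ e ∈ PE G (qq G xo yo 2 ρ x y z b), u0 ∈ e ∨ v0 ∈ e := by
      have c1 := card_PV (G := G) (q := qq G xo yo 2 ρ x y z b) u0
      have c2 := card_PV (G := G) (q := qq G xo yo 2 ρ x y z b) v0
      rw [h.hreg] at c1 c2
      have c3 := Finset.card_union_add_card_inter (PV G (qq G xo yo 2 ρ x y z b) u0)
        (PV G (qq G xo yo 2 ρ x y z b) v0)
      unfold cc at hcc0
      have c4 : (PV G (qq G xo yo 2 ρ x y z b) u0 ∪ PV G (qq G xo yo 2 ρ x y z b) v0) = univ := by
        rw [← Finset.card_eq_iff_eq_univ, Fintype.card_coe]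
        omega
      intro e he
      have : (⟨e, he⟩ : {e // e ∈ PE G (qq G xo yo 2 ρ x y z b)}) ∈
          PV G (qq G xo yo 2 ρ x y z b) u0 ∪ PV G (qq G xo yo 2 ρ x y z b) v0 := by
        rw [c4]; exact mem_univ _
      rw [Finset.mem_union, mem_PV, mem_PV] at this
      exact this
    -- a neighbour with k = 0 is impossible
    have hnozero : ∀ w, w ≠ u0 → w ≠ v0 → kk G (qq G xo yo 2 ρ x y z b) w ≠ 0 := by
      intro w hwu hwv hkw
      have c1 := card_PV (G := G) (q := qq G xo yo 2 ρ x y z b) w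
      rw [h.hreg, hkw] at c1
      have c2 := card_filter_PE (G := G) (qq G xo yo 2 ρ x y z b) w
      have c3 : ((PE G (qq G xo yo 2 ρ x y z b)).filter (fun e => w ∈ e)).card ≤
          ({s(w, u0), s(w, v0)} : Finset (Sym2 V)).card := by
        apply Finset.card_le_card
        intro e he
        rw [Finset.mem_filter] at he
        rw [Finset.mem_insert, Finset.mem_singleton]
        rcases htouch e he.1 with h1 | h1
        · left
          exact (Sym2.mem_and_mem_iff hwu).mp ⟨he.2, h1⟩
        · right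
          exact (Sym2.mem_and_mem_iff hwv).mp ⟨he.2, h1⟩
      have c4 : ({s(w, u0), s(w, v0)} : Finset (Sym2 V)).card ≤ 2 := Finset.card_le_two
      omega
    apply od_master h rfl le_rfl hκ (fun e => if e = s(z, b) then 0 else
      if e = s(u0, v0) then 28 else 18)
    · intro u v huv hux huy hvx hvy hk
      show _ ≤ if s(u, v) = s(z, b) then 0 else if s(u, v) = s(u0, v0) then 28 else 18
      by_cases he : s(u, v) = s(z, b)
      · rw [if_pos he]
        have hcc := cc_eq_zero (G := G) (q := qq G xo yo 2 ρ x y z b) huv.ne (by rw [he]; exact hzbP)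
        rcases th_types h hκ hb huv hux huy hvx hvy hk with
          h0 | ⟨h1, h2, h3, h4⟩ | ⟨h1, h2, h3, h4⟩ | ⟨h1, h2, h3, h4, h5⟩
        · omega
        · omega
        · omega
        · omega
      · rw [if_neg he]
        have hxe : x ∉ s(u, v) := by
          rw [Sym2.mem_iff, not_or]; exact ⟨hux.symm, hvx.symm⟩
        have hye : y ∉ s(u, v) := by
          rw [Sym2.mem_iff, not_or]; exact ⟨huy.symm, hvy.symm⟩
        have hP : s(u, v) ∈ PE G (qq G xo yo 2 ρ x y z b) :=
          (Cfg.pool_iff huv hxe hye).mpr (Or.inr he)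
        have ht := htouch _ hP
        rw [Sym2.mem_iff, Sym2.mem_iff] at ht
        by_cases he0 : s(u, v) = s(u0, v0)
        · rw [if_pos he0]
          rcases th_types h hκ hb huv hux huy hvx hvy hk with
            h0 | ⟨h1, h2, h3, h4⟩ | ⟨h1, h2, h3, h4⟩ | ⟨h1, h2, h3, h4, h5⟩
          · omega
          · have h5 := h4 (by omega)
            omega
          · omega
          · exfalso
            have : kk G (qq G xo yo 2 ρ x y z b) u = 0 := by
              rw [Sym2.eq_iff] at he0
              rcases he0 with ⟨rfl, rfl⟩ | ⟨rfl, rfl⟩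
              · exact hku0
              · exact hkv0
            omega
        · rw [if_neg he0]
          -- one of the endpoints is u0 or v0, so `kk u = 0`, the other has `kk ≥ 1`
          have hku : kk G (qq G xo yo 2 ρ x y z b) u = 0 := by
            rcases ht with (h1 | h1) | (h1 | h1)
            · rw [← h1]; exact hku0
            · rw [← h1, hku0] at hk; omega
            · rw [← h1]; exact hkv0
            · rw [← h1, hkv0] at hk; omega
          have hkv : kk G (qq G xo yo 2 ρ x y z b) v ≠ 0 := by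
            intro hkv
            have hu : u = u0 ∨ u = v0 := by
              by_contra hcon
              push Not at hcon
              exact hnozero u hcon.1 hcon.2 hku
            have hv : v = u0 ∨ v = v0 := by
              by_contra hcon
              push Not at hcon
              exact hnozero v hcon.1 hcon.2 hkv
            apply he0
            rw [Sym2.eq_iff]
            rcases hu with hu | hu <;> rcases hv with hv | hv
            · exact absurd (hu.trans hv.symm) huv.ne
            · left; exact ⟨hu, hv⟩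
            · right; exact ⟨hu, hv⟩
            · exact absurd (hu.trans hv.symm) huv.ne
          rcases th_types h hκ hb huv hux huy hvx hvy hk with
            h0 | ⟨h1, h2, h3, h4⟩ | ⟨h1, h2, h3, h4⟩ | ⟨h1, h2, h3, h4, h5⟩
          · omega
          · have h5 := h4 (by omega)
            omega
          · omega
          · omega
    · show (if s(z, b) = s(z, b) then 0 else _) + _ < _
      rw [if_pos rfl, Nat.zero_add, f0]
      have hrest : ∀ e ∈ PE G (qq G xo yo 2 ρ x y z b), (if e = s(z, b) then 0 else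
          if e = s(u0, v0) then 28 else 18) = if e = s(u0, v0) then 28 else 18 := by
        intro e he
        rw [if_neg]
        rintro rfl
        exact hzbP he
      rw [Finset.sum_congr rfl hrest, ← Finset.add_sum_erase _ _ hP0, if_pos rfl]
      have h2 : ∀ e ∈ (PE G (qq G xo yo 2 ρ x y z b)).erase s(u0, v0),
          (if e = s(u0, v0) then 28 else 18) = 18 := by
        intro e he
        rw [if_neg (Finset.ne_of_mem_erase he)]
      rw [Finset.sum_congr rfl h2, Finset.sum_const, Finset.card_erase_of_mem hP0, smul_eq_mul, hM5]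
      norm_num
  · apply th_main h hκ hb (by omega)
    intro u v huv hux huy hvx hvy hku hkv
    exact absurd ⟨u, v, huv, hux, huy, hvx, hvy, hku, hkv⟩ hex

end three

section five

variable {ρ : V → ℕ} {x y z b : V} (h : Cfg G 5 xo yo 2 ρ x y z b)
  (hκ : ∀ u v, kap G x y z b u < kap G x y z b v → ρ u < ρ v)
  (hb : G.Adj y b → G.Adj x b)

include h hκ hb

theorem od_85 (hn : Fintype.card V = 8) : Concl G x y := by
  classical
  have hM := od_M h rfl (by omega)
  rw [hn] at hM
  have hM9 : (PE G (qq G xo yo 2 ρ x y z b)).card = 9 := by omega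
  have f0 : ((PE G (qq G xo yo 2 ρ x y z b)).card).factorial = 362880 := by rw [hM9]; rfl
  have f1 : ((PE G (qq G xo yo 2 ρ x y z b)).card - 1).factorial = 40320 := by rw [hM9]; rfl
  have f2 : ((PE G (qq G xo yo 2 ρ x y z b)).card - 2).factorial = 5040 := by rw [hM9]; rfl
  have hW := card_NX h.hreg h.hxy h.hnxy
  have hW' := card_NX h.hreg h.hxy.symm (fun h' => h.hnxy h'.symm)
  have hzbP : s(z, b) ∉ PE G (qq G xo yo 2 ρ x y z b) := by
    rw [mem_PE, not_and, h.q_zb]
    intro _; omega
  apply od_master h rfl (by omega) hκ (fun e => if z ∈ e then (if e = s(z, b) then 36960 else 25200)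
    else (if ∀ v ∈ e, v ∈ NX G x y ∪ NX G y x then 43200 else 36960))
  · intro u v huv hux huy hvx hvy hk
    show _ ≤ if z ∈ s(u, v) then (if s(u, v) = s(z, b) then 36960 else 25200)
      else (if ∀ w ∈ s(u, v), w ∈ NX G x y ∪ NX G y x then 43200 else 36960)
    have hWiff : (∀ w ∈ s(u, v), w ∈ NX G x y ∪ NX G y x) ↔
        (u ∈ NX G x y ∪ NX G y x ∧ v ∈ NX G x y ∪ NX G y x) := by
      constructor
      · intro h1
        exact ⟨h1 u (Sym2.mem_mk_left u v), h1 v (Sym2.mem_mk_right u v)⟩
      · rintro ⟨h1, h2⟩ w hw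
        rcases Sym2.mem_iff.mp hw with rfl | rfl
        · exact h1
        · exact h2
    have hmem : ∀ w, w ≠ x → w ≠ y → kk G (qq G xo yo 2 ρ x y z b) w ≤ 1 → w ∈ NX G x y ∪ NX G y x := by
      intro w hwx hwy h1
      rw [od_k h hwx hwy] at h1
      rw [Finset.mem_union, mem_NX, mem_NX]
      by_cases h2 : G.Adj x w
      · right
        refine ⟨hwy, hwx, ?_⟩
        intro h3
        unfold k' at h1
        rw [if_pos h2, if_pos h3] at h1
        omega
      · left
        exact ⟨hwx, hwy, h2⟩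
    have hcc := cc_le_one (G := G) (q := qq G xo yo 2 ρ x y z b) huv.ne
    have hku3 := od_k_le h hux huy
    have hk3 := od_k_le h hvx hvy
    have hcc0 : cc G (qq G xo yo 2 ρ x y z b) u v = 0 →
        kk G (qq G xo yo 2 ρ x y z b) v = 3 ∧ 1 ≤ kk G (qq G xo yo 2 ρ x y z b) u :=
      fun h0 => (od_e0 h huv hux huy hvx hvy hk h0).2
    have hz3 := od_k_z h
    -- both `k = 3` forces the edge `zb`
    have h33 : kk G (qq G xo yo 2 ρ x y z b) u = 3 → kk G (qq G xo yo 2 ρ x y z b) v = 3 →
        cc G (qq G xo yo 2 ρ x y z b) u v = 0 := by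
      intro h4' h4
      have h5 := od_k_three h hvx hvy h4
      have h6 := od_k_three h hux huy h4'
      have h7 : s(u, v) = s(z, b) := by
        rw [Sym2.eq_iff]
        rcases h5 with h5 | h5 <;> rcases h6 with h6 | h6
        · exact absurd (h6.trans h5.symm) huv.ne
        · right; exact ⟨h6, h5⟩
        · left; exact ⟨h6, h5⟩
        · exact absurd (h6.trans h5.symm) huv.ne
      have h8 : s(u, v) ∉ PE G (qq G xo yo 2 ρ x y z b) := by
        rw [h7]; exact hzbP
      exact cc_eq_zero huv.ne h8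
    have hbound : (bad G (qq G xo yo 2 ρ x y z b) u v).card ≤ 43200 ∧
        (2 ≤ kk G (qq G xo yo 2 ρ x y z b) v → (bad G (qq G xo yo 2 ρ x y z b) u v).card ≤ 36960) ∧
        (kk G (qq G xo yo 2 ρ x y z b) v = 3 → cc G (qq G xo yo 2 ρ x y z b) u v = 1 →
          (bad G (qq G xo yo 2 ρ x y z b) u v).card ≤ 25200) := by
      rcases od_types h rfl (by omega) hκ hb huv hux huy hvx hvy hk with
        h0 | ⟨δ, b', hδ, hb', h1, h2, h3⟩ | ⟨s, hs, h1, h2, h3⟩ | ⟨h1, h2, h3, h4, h5⟩
      · omega
      · have h3' := h3 (by omega)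
        rw [f1, f2] at h3'
        have hδ3 : δ = 1 ∨ δ = 2 ∨ δ = 3 := by omega
        have hb3 : b' = 1 ∨ b' = 2 ∨ b' = 3 := by omega
        rcases hδ3 with rfl | rfl | rfl <;> rcases hb3 with rfl | rfl | rfl <;>
          simp only [if_true, Nat.reduceEqDiff, if_false] at h3' <;> omega
      · rw [f1, f2] at h3
        have hs4 : s = 2 ∨ s = 3 ∨ s = 4 := by omega
        rcases hs4 with rfl | rfl | rfl <;> omega
      · exfalso
        have := h33 (by omega) (by omega)
        omega
    by_cases hz : z ∈ s(u, v)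
    · rw [if_pos hz]
      have hkv : kk G (qq G xo yo 2 ρ x y z b) v = 3 := by
        rcases Sym2.mem_iff.mp hz with rfl | rfl
        · omega
        · omega
      by_cases he : s(u, v) = s(z, b)
      · rw [if_pos he]
        exact hbound.2.1 (by omega)
      · rw [if_neg he]
        apply hbound.2.2 hkv
        rcases Nat.eq_zero_or_pos (cc G (qq G xo yo 2 ρ x y z b) u v) with h0 | h0
        · exact absurd (od_e0 h huv hux huy hvx hvy hk h0).1 he
        · omega
    · rw [if_neg hz]
      by_cases hc : ∀ w ∈ s(u, v), w ∈ NX G x y ∪ NX G y x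
      · rw [if_pos hc]; exact hbound.1
      · rw [if_neg hc]
        apply hbound.2.1
        by_contra hcon
        exact hc (hWiff.mpr ⟨hmem u hux huy (by omega), hmem v hvx hvy (by omega)⟩)
  · show (if z ∈ s(z, b) then (if s(z, b) = s(z, b) then 36960 else 25200) else _) + _ < _
    rw [if_pos (Sym2.mem_mk_left z b), if_pos rfl, f0]
    rw [← Finset.sum_filter_add_sum_filter_not (PE G (qq G xo yo 2 ρ x y z b)) (fun e => z ∈ e)]
    have s1 : ∑ e ∈ (PE G (qq G xo yo 2 ρ x y z b)).filter (fun e => z ∈ e),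
        (if z ∈ e then (if e = s(z, b) then 36960 else 25200)
          else (if ∀ v ∈ e, v ∈ NX G x y ∪ NX G y x then 43200 else 36960)) = 2 * 25200 := by
      have e1 : ∀ e ∈ (PE G (qq G xo yo 2 ρ x y z b)).filter (fun e => z ∈ e),
          (if z ∈ e then (if e = s(z, b) then 36960 else 25200)
          else (if ∀ v ∈ e, v ∈ NX G x y ∪ NX G y x then 43200 else 36960)) = 25200 := by
        intro e he
        rw [Finset.mem_filter] at he
        rw [if_pos he.2, if_neg]
        rintro rfl
        exact hzbP he.1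
      rw [Finset.sum_congr rfl e1, Finset.sum_const, smul_eq_mul, card_filter_PE]
      have c1 := card_PV (G := G) (q := qq G xo yo 2 ρ x y z b) z
      rw [h.hreg, od_k_z h] at c1
      have : (PV G (qq G xo yo 2 ρ x y z b) z).card = 2 := by omega
      rw [this]
    have hcard2 : ((PE G (qq G xo yo 2 ρ x y z b)).filter (fun e => ¬ z ∈ e)).card = 7 := by
      have c1 := card_PV (G := G) (q := qq G xo yo 2 ρ x y z b) z
      rw [h.hreg, od_k_z h] at c1
      have c2 := card_filter_PE (G := G) (qq G xo yo 2 ρ x y z b) z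
      have c3 : ((PE G (qq G xo yo 2 ρ x y z b)).filter (fun e => z ∈ e)).card
        + ((PE G (qq G xo yo 2 ρ x y z b)).filter (fun e => ¬ z ∈ e)).card
        = (PE G (qq G xo yo 2 ρ x y z b)).card := Finset.card_filter_add_card_filter_not _
      omega
    have s2 : ∑ e ∈ (PE G (qq G xo yo 2 ρ x y z b)).filter (fun e => ¬ z ∈ e),
        (if z ∈ e then (if e = s(z, b) then 36960 else 25200)
          else (if ∀ v ∈ e, v ∈ NX G x y ∪ NX G y x then 43200 else 36960)) ≤ 7 * 36960 + 6240 := by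
      have e1 : ∀ e ∈ (PE G (qq G xo yo 2 ρ x y z b)).filter (fun e => ¬ z ∈ e),
          (if z ∈ e then (if e = s(z, b) then 36960 else 25200)
          else (if ∀ v ∈ e, v ∈ NX G x y ∪ NX G y x then 43200 else 36960))
          = (if ∀ v ∈ e, v ∈ NX G x y ∪ NX G y x then 43200 else 36960) := by
        intro e he
        rw [Finset.mem_filter] at he
        rw [if_neg he.2]
      rw [Finset.sum_congr rfl e1]
      have hcard : (NX G x y ∪ NX G y x).card ≤ 2 :=
        (Finset.card_union_le _ _).trans (by omega)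
      refine (sum_le_two (NX G x y ∪ NX G y x) hcard _ ?_ 36960 43200 (by omega)).trans ?_
      · intro e he
        exact G.not_isDiag_of_mem_edgeSet (mem_PE.mp (Finset.mem_filter.mp he).1).1
      · rw [hcard2]
    rw [s1]
    omega

end five

end

end Pool.Agent.helper6.LA
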