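import Pool.Agent.helper6.LA.Special

/-! Priorities of the neighbours and the order properties of the offset sums. -/

namespace Pool.Agent.helper6.LA

open Finset

section

variable {V : Type*} [Fintype V] [DecidableEq V] (G : SimpleGraph V) [DecidableRel G.Adj]

/-- priority class. -/
def kap (x y z b v : V) : ℕ :=
  if v = z then 4 else (if G.Adj x v ∧ G.Adj y v then 2 else 0) + (if v = b then 1 else 0)

lemma exists_prior (x y z b : V) : ∃ ρ : V → ℕ, Function.Injective ρ ∧
    ∀ u v, kap G x y z b u < kap G x y z b v → ρ u < ρ v := by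
  classical
  let e : V ≃ Fin (Fintype.card V) := Fintype.equivFin V
  refine ⟨fun v => (e v : ℕ) + Fintype.card V * kap G x y z b v, ?_, ?_⟩
  · intro u v h
    have hu := (e u).2
    have hv := (e v).2
    have h1 : kap G x y z b u = kap G x y z b v := by
      have h2 := congrArg (fun t => t / Fintype.card V) h
      simp only at h2
      rw [Nat.add_mul_div_left _ _ (by omega), Nat.add_mul_div_left _ _ (by omega),
        Nat.div_eq_of_lt hu, Nat.div_eq_of_lt hv] at h2
      omega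
    simp only at h
    rw [h1] at h
    apply e.injective
    apply Fin.ext
    omega
  · intro u v h
    have hu := (e u).2
    have h1 : Fintype.card V * (kap G x y z b u + 1) ≤ Fintype.card V * kap G x y z b v :=
      Nat.mul_le_mul_left _ h
    rw [Nat.mul_add, Nat.mul_one] at h1
    simp only
    omega

variable {G} {r : ℕ} {xl yl : ℕ → ℕ} {c : ℕ} {ρ : V → ℕ} {x y z b : V}

variable (G) in
/-- the part of `k` from `x`, `y`. -/
def k' (x y v : V) : ℕ := (if G.Adj x v then 1 else 0) + (if G.Adj y v then 1 else 0)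

variable (G) in
/-- the `x` part of `J`. -/
def Jx (xl : ℕ → ℕ) (ρ : V → ℕ) (x v : V) : ℕ := if G.Adj x v then xl (rk G ρ x v) else 0

lemma Jx_lt {u v : V} (hxl : StrictMono xl) (hx1 : ∀ i, 1 ≤ xl i) (hv : G.Adj x v) (h : ρ u < ρ v) :
    Jx G xl ρ x u < Jx G xl ρ x v := by
  unfold Jx
  rw [if_pos hv]
  split_ifs with hu
  · exact hxl (rk_lt_rk hu h)
  · have := hx1 (rk G ρ x v)
    omega

lemma Jx_pos {v : V} (hx1 : ∀ i, 1 ≤ xl i) (hv : G.Adj x v) : 1 ≤ Jx G xl ρ x v := by
  unfold Jx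
  rw [if_pos hv]
  exact hx1 _

lemma Jx_zero {v : V} (hv : ¬ G.Adj x v) : Jx G xl ρ x v = 0 := by
  unfold Jx
  rw [if_neg hv]

namespace Cfg

variable (h : Cfg G r xl yl c ρ x y z b) (hκ : ∀ u v, kap G x y z b u < kap G x y z b v → ρ u < ρ v)

include h

lemma J_eq {v : V} (hvx : v ≠ x) (hvy : v ≠ y) : JJ G (qq G xl yl c ρ x y z b) v
    = Jx G xl ρ x v + Jx G yl ρ y v + (if v = z ∨ v = b then c else 0) := h.J_v hvx hvy

lemma k_eq {v : V} (hvx : v ≠ x) (hvy : v ≠ y) : kk G (qq G xl yl c ρ x y z b) v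
    = k' G x y v + (if v = z ∨ v = b then (if c = 0 then 0 else 1) else 0) := h.k_v hvx hvy

lemma k_odd (hc : c = 2) {v : V} (hvx : v ≠ x) (hvy : v ≠ y) : kk G (qq G xl yl c ρ x y z b) v
    = k' G x y v + (if v = z ∨ v = b then 1 else 0) := by
  have hc0 : ¬ c = 0 := by omega
  rw [h.k_eq hvx hvy, if_neg hc0]

include hκ

lemma lt_common {u v : V} (hu : ¬ (G.Adj x u ∧ G.Adj y u)) (hv : G.Adj x v ∧ G.Adj y v) : ρ u < ρ v := by
  apply hκ
  unfold kap
  have huz : u ≠ z := by
    rintro rfl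
    exact hu ⟨h.hxz, h.hyz⟩
  rw [if_neg huz, if_neg hu, if_pos hv]
  split_ifs <;> omega

lemma lt_z {u : V} (hu : u ≠ z) : ρ u < ρ z := by
  apply hκ
  unfold kap
  rw [if_neg hu, if_pos rfl]
  split_ifs <;> omega

/-- generic comparison. -/
lemma J'_lt {u v : V} (hk : k' G x y u < k' G x y v) :
    Jx G xl ρ x u + Jx G yl ρ y u < Jx G xl ρ x v + Jx G yl ρ y v := by
  have hx1 := h.hx1
  have hy1 := h.hy1
  unfold k' at hk
  by_cases a1 : G.Adj x u <;> by_cases a2 : G.Adj y u <;> by_cases a3 : G.Adj x v <;>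
    by_cases a4 : G.Adj y v <;>
    simp only [a1, a2, a3, a4, if_true, if_false] at hk <;> first | omega | skip
  · -- u single x, v common
    have h1 := h.lt_common hκ (u := u) (v := v) (by tauto) ⟨a3, a4⟩
    have h2 := Jx_lt h.hxl h.hx1 a3 h1
    have h3 := Jx_lt h.hyl h.hy1 a4 h1
    omega
  · have h1 := h.lt_common hκ (u := u) (v := v) (by tauto) ⟨a3, a4⟩
    have h2 := Jx_lt h.hxl h.hx1 a3 h1
    have h3 := Jx_lt h.hyl h.hy1 a4 h1
    omega
  · rw [Jx_zero a1, Jx_zero a2]
    have := Jx_pos (G := G) (ρ := ρ) h.hx1 a3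
    omega
  · rw [Jx_zero a1, Jx_zero a2]
    have := Jx_pos (G := G) (ρ := ρ) h.hx1 a3
    omega
  · rw [Jx_zero a1, Jx_zero a2]
    have := Jx_pos (G := G) (ρ := ρ) h.hy1 a4
    omega

/-- even case: comparison. -/
lemma P1_even (hc : c = 0) {u v : V} (hux : u ≠ x) (huy : u ≠ y) (hvx : v ≠ x) (hvy : v ≠ y)
    (hk : kk G (qq G xl yl c ρ x y z b) u < kk G (qq G xl yl c ρ x y z b) v) :
    JJ G (qq G xl yl c ρ x y z b) u < JJ G (qq G xl yl c ρ x y z b) v := by
  rw [h.k_eq hux huy, h.k_eq hvx hvy, if_pos hc] at hk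
  rw [h.J_eq hux huy, h.J_eq hvx hvy, hc]
  simp only [ite_self, Nat.add_zero] at hk ⊢
  exact h.J'_lt hκ hk

/-- even case: both common neighbours. -/
lemma P2_even (hc : c = 0) {u v : V} (hux : u ≠ x) (huy : u ≠ y) (hvx : v ≠ x) (hvy : v ≠ y)
    (huv : u ≠ v) (hku : kk G (qq G xl yl c ρ x y z b) u = 2)
    (hkv : kk G (qq G xl yl c ρ x y z b) v = 2) :
    JJ G (qq G xl yl c ρ x y z b) u + 2 ≤ JJ G (qq G xl yl c ρ x y z b) v ∨
    JJ G (qq G xl yl c ρ x y z b) v + 2 ≤ JJ G (qq G xl yl c ρ x y z b) u := by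
  rw [h.k_eq hux huy, if_pos hc] at hku
  rw [h.k_eq hvx hvy, if_pos hc] at hkv
  rw [h.J_eq hux huy, h.J_eq hvx hvy, hc]
  simp only [ite_self, Nat.add_zero] at hku hkv ⊢
  have hu : G.Adj x u ∧ G.Adj y u := by
    unfold k' at hku
    by_cases a1 : G.Adj x u <;> by_cases a2 : G.Adj y u <;>
      simp only [a1, a2, if_true, if_false] at hku <;> first | omega | exact ⟨a1, a2⟩
  have hv : G.Adj x v ∧ G.Adj y v := by
    unfold k' at hkv
    by_cases a1 : G.Adj x v <;> by_cases a2 : G.Adj y v <;>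
      simp only [a1, a2, if_true, if_false] at hkv <;> first | omega | exact ⟨a1, a2⟩
  rcases lt_trichotomy (ρ u) (ρ v) with h1 | h1 | h1
  · left
    have h2 := Jx_lt h.hxl h.hx1 hv.1 h1
    have h3 := Jx_lt h.hyl h.hy1 hv.2 h1
    omega
  · exact absurd (h.hρ h1) huv
  · right
    have h2 := Jx_lt h.hxl h.hx1 hu.1 h1
    have h3 := Jx_lt h.hyl h.hy1 hu.2 h1
    omega

lemma lt_b_common (hc : c ≠ 0) {u : V} (hub : u ≠ b) (huz : u ≠ z) (hb : G.Adj x b ∧ G.Adj y b) : ρ u < ρ b := by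
  apply hκ
  unfold kap
  rw [if_neg huz, if_neg (h.hzb' hc).symm, if_neg hub, if_pos hb, if_pos rfl]
  split_ifs <;> omega

lemma lt_b_single (hc : c ≠ 0) {u : V} (hub : u ≠ b) (hu : ¬ (G.Adj x u ∧ G.Adj y u)) : ρ u < ρ b := by
  apply hκ
  unfold kap
  have huz : u ≠ z := by
    rintro rfl
    exact hu ⟨h.hxz, h.hyz⟩
  rw [if_neg huz, if_neg (h.hzb' hc).symm, if_neg hub, if_neg hu, if_pos rfl]
  omega

lemma rk_le_b (hc : c ≠ 0) {u : V} (hub : u ≠ b) (hu : ¬ G.Adj x u) (hu' : G.Adj y u) (hb : G.Adj x b)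
    (hb' : ¬ G.Adj y b) : rk G ρ y u ≤ rk G ρ x b := by
  have h1 : (G.neighborFinset x \ G.neighborFinset y).card = (G.neighborFinset y \ G.neighborFinset x).card := by
    have e1 := Finset.card_sdiff_add_card_inter (G.neighborFinset x) (G.neighborFinset y)
    have e2 := Finset.card_sdiff_add_card_inter (G.neighborFinset y) (G.neighborFinset x)
    rw [Finset.inter_comm] at e2
    rw [SimpleGraph.card_neighborFinset_eq_degree, h.hreg] at e1 e2
    omega
  have h2 : rk G ρ y u ≤ ((G.neighborFinset y \ G.neighborFinset x).erase u).card := by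
    unfold rk
    apply Finset.card_le_card
    intro t ht
    rw [Finset.mem_filter, SimpleGraph.mem_neighborFinset] at ht
    rw [Finset.mem_erase, Finset.mem_sdiff, SimpleGraph.mem_neighborFinset, SimpleGraph.mem_neighborFinset]
    refine ⟨?_, ht.1, ?_⟩
    · rintro rfl
      exact lt_irrefl _ ht.2
    · intro htx
      have := h.lt_common hκ (u := u) (v := t) (by tauto) ⟨htx, ht.1⟩
      omega
  have h3 : ((G.neighborFinset x \ G.neighborFinset y).erase b).card ≤ rk G ρ x b := by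
    unfold rk
    apply Finset.card_le_card
    intro t ht
    rw [Finset.mem_erase, Finset.mem_sdiff, SimpleGraph.mem_neighborFinset,
      SimpleGraph.mem_neighborFinset] at ht
    rw [Finset.mem_filter, SimpleGraph.mem_neighborFinset]
    exact ⟨ht.2.1, h.lt_b_single hκ hc ht.1 (by tauto)⟩
  rw [Finset.card_erase_of_mem] at h2 h3
  · omega
  · rw [Finset.mem_sdiff, SimpleGraph.mem_neighborFinset, SimpleGraph.mem_neighborFinset]
    exact ⟨hb, hb'⟩
  · rw [Finset.mem_sdiff, SimpleGraph.mem_neighborFinset, SimpleGraph.mem_neighborFinset]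
    exact ⟨hu', hu⟩

lemma one_le_rk {u : V} (hu : G.Adj x u ∧ G.Adj y u) (hb : G.Adj x b) (hb' : ¬ G.Adj y b) :
    1 ≤ rk G ρ y u := by
  have h1 : (G.neighborFinset x \ G.neighborFinset y).card = (G.neighborFinset y \ G.neighborFinset x).card := by
    have e1 := Finset.card_sdiff_add_card_inter (G.neighborFinset x) (G.neighborFinset y)
    have e2 := Finset.card_sdiff_add_card_inter (G.neighborFinset y) (G.neighborFinset x)
    rw [Finset.inter_comm] at e2
    rw [SimpleGraph.card_neighborFinset_eq_degree, h.hreg] at e1 e2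
    omega
  have h2 : 0 < (G.neighborFinset x \ G.neighborFinset y).card := by
    apply Finset.card_pos.mpr
    refine ⟨b, ?_⟩
    rw [Finset.mem_sdiff, SimpleGraph.mem_neighborFinset, SimpleGraph.mem_neighborFinset]
    exact ⟨hb, hb'⟩
  rw [h1] at h2
  obtain ⟨w, hw⟩ := Finset.card_pos.mp h2
  rw [Finset.mem_sdiff, SimpleGraph.mem_neighborFinset, SimpleGraph.mem_neighborFinset] at hw
  unfold rk
  apply Finset.card_pos.mpr
  refine ⟨w, ?_⟩
  rw [Finset.mem_filter, SimpleGraph.mem_neighborFinset]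
  exact ⟨hw.1, h.lt_common hκ (by tauto) hu⟩

/-- odd case: comparison. -/
lemma P1_odd (hc : c = 2) (hx3 : ∀ i, 3 ≤ xl i) (hyx : ∀ i, yl i < xl i + 2)
    (hb : G.Adj y b → G.Adj x b) {u v : V} (hux : u ≠ x) (huy : u ≠ y) (hvx : v ≠ x) (hvy : v ≠ y)
    (hk : kk G (qq G xl yl c ρ x y z b) u < kk G (qq G xl yl c ρ x y z b) v) :
    JJ G (qq G xl yl c ρ x y z b) u < JJ G (qq G xl yl c ρ x y z b) v := by
  have hxz := h.hxz
  have hyz := h.hyz
  have hc0 : c ≠ 0 := by omega
  have hzb := h.hzb' hc0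
  rw [h.k_odd hc hux huy, h.k_odd hc hvx hvy] at hk
  rw [h.J_eq hux huy, h.J_eq hvx hvy, hc]
  by_cases hvz : v = z
  · subst hvz
    have huv : u ≠ v := by
      rintro rfl
      omega
    have h1 := h.lt_z hκ huv
    have h2 := Jx_lt h.hxl h.hx1 hxz h1
    have h3 := Jx_lt h.hyl h.hy1 hyz h1
    rw [if_pos (Or.inl rfl)]
    split_ifs <;> omega
  by_cases huz : u = z
  · subst huz
    exfalso
    rw [if_pos (Or.inl rfl)] at hk
    have h1 : k' G x y u = 2 := by
      unfold k'
      rw [if_pos hxz, if_pos hyz]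
    have h2 : k' G x y v ≤ 2 := by
      unfold k'
      split_ifs <;> omega
    rw [h1] at hk
    split_ifs at hk <;> omega
  by_cases hvb : v = b
  · subst hvb
    have huv : u ≠ v := by
      rintro rfl
      omega
    have hn1 : ¬ (u = z ∨ u = v) := by tauto
    rw [if_pos (Or.inr rfl), if_neg hn1] at hk ⊢
    by_cases b1 : G.Adj x v <;> by_cases b2 : G.Adj y v
    · have h1 := h.lt_b_common hκ hc0 huv huz ⟨b1, b2⟩
      have h2 := Jx_lt h.hxl h.hx1 b1 h1
      have h3 := Jx_lt h.hyl h.hy1 b2 h1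
      omega
    · have hkv : k' G x y v = 1 := by
        unfold k'
        rw [if_pos b1, if_neg b2]
      rw [hkv] at hk
      unfold k' at hk
      by_cases a1 : G.Adj x u <;> by_cases a2 : G.Adj y u
      · rw [if_pos a1, if_pos a2] at hk
        omega
      · have h1 := h.lt_b_single hκ hc0 huv (by tauto)
        have h2 := Jx_lt h.hxl h.hx1 b1 h1
        rw [Jx_zero a2]
        omega
      · have h1 := h.rk_le_b hκ hc0 huv a1 a2 b1 b2
        rw [Jx_zero a1, Jx_zero b2]
        unfold Jx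
        rw [if_pos a2, if_pos b1]
        have h2 := h.hyl.monotone h1
        have h3 := hyx (rk G ρ x v)
        omega
      · rw [Jx_zero a1, Jx_zero a2]
        omega
    · exact absurd (hb b2) b1
    · have hkv : k' G x y v = 0 := by
        unfold k'
        rw [if_neg b1, if_neg b2]
      rw [hkv] at hk
      unfold k' at hk
      by_cases a1 : G.Adj x u
      · rw [if_pos a1] at hk; omega
      · by_cases a2 : G.Adj y u
        · rw [if_pos a2] at hk; omega
        · rw [Jx_zero a1, Jx_zero a2]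
          omega
  by_cases hub : u = b
  · subst hub
    have hn2 : ¬ (v = z ∨ v = u) := by tauto
    rw [if_pos (Or.inr rfl), if_neg hn2] at hk ⊢
    have h2 : k' G x y v ≤ 2 := by
      unfold k'
      split_ifs <;> omega
    have h3 : k' G x y u = 0 := by omega
    have h4 : k' G x y v = 2 := by omega
    have b1 : ¬ G.Adj x u := by
      intro b1
      unfold k' at h3
      rw [if_pos b1] at h3; omega
    have b2 : ¬ G.Adj y u := by
      intro b1
      unfold k' at h3
      rw [if_pos b1] at h3; omega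
    have hv : G.Adj x v ∧ G.Adj y v := by
      unfold k' at h4
      by_cases a1 : G.Adj x v <;> by_cases a2 : G.Adj y v <;>
        simp only [a1, a2, if_true, if_false] at h4 <;> first | omega | exact ⟨a1, a2⟩
    rw [Jx_zero b1, Jx_zero b2]
    unfold Jx
    rw [if_pos hv.1, if_pos hv.2]
    have := hx3 (rk G ρ x v)
    have := h.hy1 (rk G ρ y v)
    omega
  · have hn1 : ¬ (u = z ∨ u = b) := by tauto
    have hn2 : ¬ (v = z ∨ v = b) := by tauto
    rw [if_neg hn1, if_neg hn2] at hk ⊢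
    simp only [Nat.add_zero] at hk ⊢
    exact h.J'_lt hκ hk

/-- odd case: equal `k`. -/
lemma P2_odd (hc : c = 2) (hy5 : ∀ i, 1 ≤ i → 3 ≤ yl i)
    (hb : G.Adj y b → G.Adj x b) {u v : V} (hux : u ≠ x) (huy : u ≠ y) (hvx : v ≠ x) (hvy : v ≠ y)
    (huv : u ≠ v) (hk : kk G (qq G xl yl c ρ x y z b) u = kk G (qq G xl yl c ρ x y z b) v)
    (hk1 : 1 ≤ kk G (qq G xl yl c ρ x y z b) u) :
    JJ G (qq G xl yl c ρ x y z b) u ≠ JJ G (qq G xl yl c ρ x y z b) v := by
  -- it suffices to treat one of the orders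
  have hxz := h.hxz
  have hyz := h.hyz
  have hc0 : c ≠ 0 := by omega
  have hzb := h.hzb' hc0
  -- key claim
  have key : ∀ u v : V, u ≠ x → u ≠ y → v ≠ x → v ≠ y → u ≠ v → v ≠ z →
      kk G (qq G xl yl c ρ x y z b) u = kk G (qq G xl yl c ρ x y z b) v →
      u = z → JJ G (qq G xl yl c ρ x y z b) u ≠ JJ G (qq G xl yl c ρ x y z b) v := by
    intro u v hux huy hvx hvy huv hvz hk huz
    subst huz
    rw [h.J_eq hux huy, h.J_eq hvx hvy, hc]
    have h1 := h.lt_z hκ hvz
    have h2 := Jx_lt h.hxl h.hx1 hxz h1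
    have h3 := Jx_lt h.hyl h.hy1 hyz h1
    rw [if_pos (Or.inl rfl)]
    split_ifs <;> omega
  by_cases huz : u = z
  · exact key u v hux huy hvx hvy huv (fun h1 => huv (huz.trans h1.symm)) hk huz
  by_cases hvz : v = z
  · exact (key v u hvx hvy hux huy huv.symm huz hk.symm hvz).symm
  -- now `u, v ≠ z`
  have key2 : ∀ u v : V, u ≠ x → u ≠ y → v ≠ x → v ≠ y → u ≠ v → u ≠ z → v ≠ z →
      kk G (qq G xl yl c ρ x y z b) u = kk G (qq G xl yl c ρ x y z b) v →
      v = b → JJ G (qq G xl yl c ρ x y z b) u ≠ JJ G (qq G xl yl c ρ x y z b) v := by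
    intro u v hux huy hvx hvy huv huz hvz hk hvb
    subst hvb
    rw [h.k_odd hc hux huy, h.k_odd hc hvx hvy, if_neg (show ¬ (u = z ∨ u = v) by tauto),
      if_pos (Or.inr rfl)] at hk
    rw [h.J_eq hux huy, h.J_eq hvx hvy, hc, if_neg (by tauto), if_pos (Or.inr rfl)]
    by_cases b1 : G.Adj x v <;> by_cases b2 : G.Adj y v
    · exfalso
      unfold k' at hk
      rw [if_pos b1, if_pos b2] at hk
      split_ifs at hk <;> omega
    · have hu : G.Adj x u ∧ G.Adj y u := by
        unfold k' at hk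
        rw [if_pos b1, if_neg b2] at hk
        by_cases a1 : G.Adj x u <;> by_cases a2 : G.Adj y u <;>
          simp only [a1, a2, if_true, if_false] at hk <;> first | omega | exact ⟨a1, a2⟩
      have h1 := h.lt_common hκ (u := v) (v := u) (by tauto) hu
      have h2 := Jx_lt h.hxl h.hx1 hu.1 h1
      have h3 := h.one_le_rk hκ hu b1 b2
      have h4 := hy5 _ h3
      rw [Jx_zero b2]
      have h5 : Jx G yl ρ y u = yl (rk G ρ y u) := by
        unfold Jx
        rw [if_pos hu.2]
      omega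
    · exact absurd (hb b2) b1
    · -- `v = b` has `k = 1`
      unfold k' at hk
      rw [if_neg b1, if_neg b2] at hk
      rw [Jx_zero b1, Jx_zero b2]
      by_cases a1 : G.Adj x u <;> by_cases a2 : G.Adj y u
      · rw [if_pos a1, if_pos a2] at hk; omega
      · rw [Jx_zero a2]
        unfold Jx
        rw [if_pos a1]
        have := h.hxc (rk G ρ x u)
        omega
      · rw [Jx_zero a1]
        unfold Jx
        rw [if_pos a2]
        have := h.hyc (rk G ρ y u)
        omega
      · rw [if_neg a1, if_neg a2] at hk; omega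
  by_cases hvb : v = b
  · exact key2 u v hux huy hvx hvy huv huz hvz hk hvb
  by_cases hub : u = b
  · exact (key2 v u hvx hvy hux huy huv.symm hvz huz hk.symm hub).symm
  have hn1 : ¬ (u = z ∨ u = b) := by tauto
  have hn2 : ¬ (v = z ∨ v = b) := by tauto
  rw [h.k_odd hc hux huy, h.k_odd hc hvx hvy, if_neg hn1, if_neg hn2] at hk
  rw [h.k_odd hc hux huy, if_neg hn1] at hk1
  rw [h.J_eq hux huy, h.J_eq hvx hvy, hc, if_neg hn1, if_neg hn2]
  simp only [Nat.add_zero] at hk hk1 ⊢
  have hrx : ∀ (hu : G.Adj x u) (hv : G.Adj x v), xl (rk G ρ x u) ≠ xl (rk G ρ x v) := by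
    intro hu hv h1
    exact huv (rk_inj h.hρ hu hv (h.hxl.injective h1))
  have hry : ∀ (hu : G.Adj y u) (hv : G.Adj y v), yl (rk G ρ y u) ≠ yl (rk G ρ y v) := by
    intro hu hv h1
    exact huv (rk_inj h.hρ hu hv (h.hyl.injective h1))
  unfold k' at hk hk1
  by_cases a1 : G.Adj x u <;> by_cases a2 : G.Adj y u <;> by_cases a3 : G.Adj x v <;>
    by_cases a4 : G.Adj y v <;>
    simp only [a1, a2, a3, a4, if_true, if_false] at hk hk1 <;> first | omega | skip
  · -- both common
    rcases lt_trichotomy (ρ u) (ρ v) with h1 | h1 | h1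
    · have h2 := Jx_lt h.hxl h.hx1 a3 h1
      have h3 := Jx_lt h.hyl h.hy1 a4 h1
      omega
    · exact absurd (h.hρ h1) huv
    · have h2 := Jx_lt h.hxl h.hx1 a1 h1
      have h3 := Jx_lt h.hyl h.hy1 a2 h1
      omega
  · rw [Jx_zero a2, Jx_zero a4]
    unfold Jx
    rw [if_pos a1, if_pos a3]
    have := hrx a1 a3
    omega
  · rw [Jx_zero a2, Jx_zero a3]
    unfold Jx
    rw [if_pos a1, if_pos a4]
    have := h.hdis (rk G ρ x u) (rk G ρ y v)
    omega
  · rw [Jx_zero a1, Jx_zero a4]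
    unfold Jx
    rw [if_pos a2, if_pos a3]
    have := h.hdis (rk G ρ x v) (rk G ρ y u)
    omega
  · rw [Jx_zero a1, Jx_zero a3]
    unfold Jx
    rw [if_pos a2, if_pos a4]
    have := hry a2 a4
    omega

end Cfg

end

end Pool.Agent.helper6.LA
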