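import Pool.Agent.helper6.LA.Graph

/-! The special edges and their offsets. -/

namespace Pool.Agent.helper6.LA

open Finset

section

variable {V : Type*} [Fintype V] [DecidableEq V] (G : SimpleGraph V) [DecidableRel G.Adj]

/-- rank of `v` among the neighbours of `x`. -/
def rk (ρ : V → ℕ) (x v : V) : ℕ := ((G.neighborFinset x).filter (fun t => ρ t < ρ v)).card

variable {G}

lemma rk_lt_rk {ρ : V → ℕ} {x u v : V} (hu : G.Adj x u) (h : ρ u < ρ v) : rk G ρ x u < rk G ρ x v := by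
  unfold rk
  apply Finset.card_lt_card
  rw [Finset.ssubset_iff_of_subset]
  · refine ⟨u, ?_, ?_⟩
    · rw [Finset.mem_filter, SimpleGraph.mem_neighborFinset]
      exact ⟨hu, h⟩
    · rw [Finset.mem_filter]
      intro h1
      exact lt_irrefl _ h1.2
  · intro t ht
    rw [Finset.mem_filter] at ht ⊢
    exact ⟨ht.1, lt_trans ht.2 h⟩

lemma rk_inj {ρ : V → ℕ} (hρ : Function.Injective ρ) {x u v : V} (hu : G.Adj x u) (hv : G.Adj x v)
    (h : rk G ρ x u = rk G ρ x v) : u = v := by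
  rcases lt_trichotomy (ρ u) (ρ v) with h1 | h1 | h1
  · have := rk_lt_rk hu h1
    omega
  · exact hρ h1
  · have := rk_lt_rk hv h1
    omega

lemma rk_lt {ρ : V → ℕ} {x u : V} (hu : G.Adj x u) : rk G ρ x u < G.degree x := by
  unfold rk
  rw [← SimpleGraph.card_neighborFinset_eq_degree]
  apply Finset.card_lt_card
  rw [Finset.ssubset_iff_of_subset (Finset.filter_subset _ _)]
  refine ⟨u, ?_, ?_⟩
  · rw [SimpleGraph.mem_neighborFinset]; exact hu
  · rw [Finset.mem_filter]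
    intro h1
    exact lt_irrefl _ h1.2

lemma rk_image {ρ : V → ℕ} (hρ : Function.Injective ρ) (x : V) :
    (G.neighborFinset x).image (rk G ρ x) = Finset.range (G.degree x) := by
  apply Finset.eq_of_subset_of_card_le
  · intro i hi
    obtain ⟨u, hu, rfl⟩ := Finset.mem_image.mp hi
    rw [SimpleGraph.mem_neighborFinset] at hu
    exact Finset.mem_range.mpr (rk_lt hu)
  · rw [Finset.card_range, Finset.card_image_of_injOn, SimpleGraph.card_neighborFinset_eq_degree]
    intro u hu v hv h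
    rw [Finset.mem_coe, SimpleGraph.mem_neighborFinset] at hu hv
    exact rk_inj hρ hu hv h

lemma exists_rk {ρ : V → ℕ} (hρ : Function.Injective ρ) (x : V) {i : ℕ} (hi : i < G.degree x) :
    ∃ u, G.Adj x u ∧ rk G ρ x u = i := by
  have : i ∈ (G.neighborFinset x).image (rk G ρ x) := by
    rw [rk_image hρ]; exact Finset.mem_range.mpr hi
  obtain ⟨u, hu, h⟩ := Finset.mem_image.mp this
  rw [SimpleGraph.mem_neighborFinset] at hu
  exact ⟨u, hu, h⟩

lemma sum_rk {ρ : V → ℕ} (hρ : Function.Injective ρ) (x : V) (g : ℕ → ℕ) :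
    ∑ u ∈ G.neighborFinset x, g (rk G ρ x u) = ∑ i ∈ Finset.range (G.degree x), g i := by
  rw [← rk_image hρ x, Finset.sum_image]
  intro u hu v hv h
  rw [Finset.mem_coe, SimpleGraph.mem_neighborFinset] at hu hv
  exact rk_inj hρ hu hv h

variable (G)

/-- offsets of the edges. -/
def qq (xl yl : ℕ → ℕ) (c : ℕ) (ρ : V → ℕ) (x y z b : V) : Sym2 V → ℕ :=
  fun e => Sym2.lift ⟨fun s t => (if s = x then xl (rk G ρ x t) else 0)
      + (if t = x then xl (rk G ρ x s) else 0)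
      + ((if s = y then yl (rk G ρ y t) else 0) + (if t = y then yl (rk G ρ y s) else 0)), by
      intro s t
      dsimp only
      ring⟩ e + (if e = s(z, b) then c else 0)

/-- The configuration. -/
structure Cfg (r : ℕ) (xl yl : ℕ → ℕ) (c : ℕ) (ρ : V → ℕ) (x y z b : V) : Prop where
  hreg : ∀ v, G.degree v = r
  hxy : x ≠ y
  hnxy : ¬ G.Adj x y
  hxz : G.Adj x z
  hyz : G.Adj y z
  hzb : c ≠ 0 → G.Adj z b
  hbx : b ≠ x
  hby : b ≠ y
  hρ : Function.Injective ρ
  hxl : StrictMono xl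
  hyl : StrictMono yl
  hx1 : ∀ i, 1 ≤ xl i
  hy1 : ∀ i, 1 ≤ yl i
  hdis : ∀ i j, xl i ≠ yl j
  hxc : ∀ i, xl i ≠ c
  hyc : ∀ i, yl i ≠ c

variable {G} {r : ℕ} {xl yl : ℕ → ℕ} {c : ℕ} {ρ : V → ℕ} {x y z b : V}

lemma qq_mk (s t : V) : qq G xl yl c ρ x y z b s(s, t) = (if s = x then xl (rk G ρ x t) else 0)
      + (if t = x then xl (rk G ρ x s) else 0)
      + ((if s = y then yl (rk G ρ y t) else 0) + (if t = y then yl (rk G ρ y s) else 0))
      + (if s(s, t) = s(z, b) then c else 0) := rfl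

namespace Cfg

variable (h : Cfg G r xl yl c ρ x y z b)

include h

lemma hzx : z ≠ x := h.hxz.ne'

lemma hzy : z ≠ y := h.hyz.ne'

lemma hzb' (hc : c ≠ 0) : z ≠ b := (h.hzb hc).ne

lemma q_x {u : V} (hu : G.Adj x u) : qq G xl yl c ρ x y z b s(x, u) = xl (rk G ρ x u) := by
  have h1 : u ≠ y := by
    rintro rfl
    exact h.hnxy hu
  have h2 : s(x, u) ≠ s(z, b) := by
    intro h1
    rw [Sym2.eq_iff] at h1
    rcases h1 with ⟨h2, _⟩ | ⟨h2, _⟩
    · exact h.hzx h2.symm
    · exact h.hbx h2.symm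
  rw [qq_mk, if_pos rfl, if_neg hu.ne', if_neg h.hxy, if_neg h1, if_neg h2]
  simp

lemma q_y {u : V} (hu : G.Adj y u) : qq G xl yl c ρ x y z b s(y, u) = yl (rk G ρ y u) := by
  have h1 : u ≠ x := by
    rintro rfl
    exact h.hnxy hu.symm
  have h2 : s(y, u) ≠ s(z, b) := by
    intro h1
    rw [Sym2.eq_iff] at h1
    rcases h1 with ⟨h2, _⟩ | ⟨h2, _⟩
    · exact h.hzy h2.symm
    · exact h.hby h2.symm
  rw [qq_mk, if_neg h.hxy.symm, if_neg h1, if_pos rfl, if_neg hu.ne', if_neg h2]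
  simp

omit h in
lemma q_v {v : V} (hvx : v ≠ x) (hvy : v ≠ y) (u : V) : qq G xl yl c ρ x y z b s(v, u)
    = (if u = x then xl (rk G ρ x v) else 0) + (if u = y then yl (rk G ρ y v) else 0)
      + (if s(v, u) = s(z, b) then c else 0) := by
  rw [qq_mk, if_neg hvx, if_neg hvy, Nat.zero_add, Nat.zero_add]

lemma q_zb : qq G xl yl c ρ x y z b s(z, b) = c := by
  rw [q_v h.hzx h.hzy, if_neg h.hbx, if_neg h.hby, if_pos rfl]
  simp

lemma sum_zb (v : V) (c' : ℕ) (hc' : c = 0 → c' = 0) :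
    ∑ u ∈ G.neighborFinset v, (if s(v, u) = s(z, b) then c' else 0)
    = if v = z ∨ v = b then c' else 0 := by
  by_cases hc : c = 0
  · rw [hc' hc]; simp
  by_cases hz : v = z
  · subst hz
    rw [if_pos (Or.inl rfl), Finset.sum_eq_single b]
    · rw [if_pos rfl]
    · intro u _ hu
      rw [if_neg]
      intro h1
      exact hu (Sym2.congr_right.mp h1)
    · intro h1
      exact absurd ((SimpleGraph.mem_neighborFinset _ _ _).mpr (h.hzb hc)) h1
  · by_cases hb : v = b
    · subst hb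
      rw [if_pos (Or.inr rfl), Finset.sum_eq_single z]
      · rw [if_pos Sym2.eq_swap]
      · intro u _ hu
        rw [if_neg]
        intro h1
        rw [Sym2.eq_swap (a := z)] at h1
        exact hu (Sym2.congr_right.mp h1)
      · intro h1
        exact absurd ((SimpleGraph.mem_neighborFinset _ _ _).mpr (h.hzb hc).symm) h1
    · rw [if_neg (by tauto)]
      apply Finset.sum_eq_zero
      intro u _
      rw [if_neg]
      intro h1
      rw [Sym2.eq_iff] at h1
      rcases h1 with ⟨h2, _⟩ | ⟨h2, _⟩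
      · exact hz h2
      · exact hb h2

/-- formula for `J`. -/
lemma J_v {v : V} (hvx : v ≠ x) (hvy : v ≠ y) : JJ G (qq G xl yl c ρ x y z b) v
    = (if G.Adj x v then xl (rk G ρ x v) else 0) + (if G.Adj y v then yl (rk G ρ y v) else 0)
      + (if v = z ∨ v = b then c else 0) := by
  unfold JJ
  rw [Finset.sum_congr rfl (fun u _ => q_v hvx hvy u), Finset.sum_add_distrib,
    Finset.sum_add_distrib, h.sum_zb v c (fun h => h), Finset.sum_ite_eq', Finset.sum_ite_eq']
  simp only [SimpleGraph.mem_neighborFinset, G.adj_comm v]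

lemma k_v {v : V} (hvx : v ≠ x) (hvy : v ≠ y) : kk G (qq G xl yl c ρ x y z b) v
    = (if G.Adj x v then 1 else 0) + (if G.Adj y v then 1 else 0)
      + (if v = z ∨ v = b then (if c = 0 then 0 else 1) else 0) := by
  unfold kk
  rw [Finset.card_filter]
  have : ∀ u ∈ G.neighborFinset v, (if qq G xl yl c ρ x y z b s(v, u) ≠ 0 then 1 else 0)
      = (if u = x then 1 else 0) + (if u = y then 1 else 0)
        + (if s(v, u) = s(z, b) then (if c = 0 then 0 else 1) else 0) := by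
    intro u _
    rw [q_v hvx hvy]
    by_cases hux : u = x
    · subst hux
      rw [if_pos rfl, if_pos rfl, if_neg h.hxy]
      have h1 : s(v, u) ≠ s(z, b) := by
        intro h1
        rw [Sym2.eq_iff] at h1
        rcases h1 with ⟨_, h2⟩ | ⟨_, h2⟩
        · exact h.hbx h2.symm
        · exact h.hzx h2.symm
      rw [if_neg h1, if_neg h1]
      have := h.hx1 (rk G ρ u v)
      rw [if_pos (by omega), if_neg h.hxy]
    · by_cases huy : u = y
      · subst huy
        rw [if_neg hux, if_pos rfl, if_neg hux]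
        have h1 : s(v, u) ≠ s(z, b) := by
          intro h1
          rw [Sym2.eq_iff] at h1
          rcases h1 with ⟨_, h2⟩ | ⟨_, h2⟩
          · exact h.hby h2.symm
          · exact h.hzy h2.symm
        rw [if_neg h1, if_neg h1]
        have := h.hy1 (rk G ρ u v)
        rw [if_pos (by omega), if_pos rfl]
      · rw [if_neg hux, if_neg huy, if_neg hux, if_neg huy]
        by_cases h1 : s(v, u) = s(z, b)
        · rw [if_pos h1, if_pos h1]
          by_cases hc : c = 0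
          · rw [if_pos hc, if_neg (by omega)]
          · rw [if_neg hc, if_pos (by omega)]
        · rw [if_neg h1, if_neg h1, if_neg (by omega)]
  rw [Finset.sum_congr rfl this, Finset.sum_add_distrib,
    Finset.sum_add_distrib, h.sum_zb v _ (fun h => if_pos h), Finset.sum_ite_eq', Finset.sum_ite_eq']
  simp only [SimpleGraph.mem_neighborFinset, G.adj_comm v]

lemma k_x : kk G (qq G xl yl c ρ x y z b) x = r := by
  unfold kk
  rw [Finset.filter_true_of_mem, SimpleGraph.card_neighborFinset_eq_degree, h.hreg]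
  intro u hu
  rw [SimpleGraph.mem_neighborFinset] at hu
  rw [h.q_x hu]
  have := h.hx1 (rk G ρ x u)
  omega

lemma k_y : kk G (qq G xl yl c ρ x y z b) y = r := by
  unfold kk
  rw [Finset.filter_true_of_mem, SimpleGraph.card_neighborFinset_eq_degree, h.hreg]
  intro u hu
  rw [SimpleGraph.mem_neighborFinset] at hu
  rw [h.q_y hu]
  have := h.hy1 (rk G ρ y u)
  omega

lemma J_x : JJ G (qq G xl yl c ρ x y z b) x = ∑ i ∈ Finset.range r, xl i := by
  unfold JJ
  rw [← h.hreg x, ← sum_rk h.hρ x xl]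
  apply Finset.sum_congr rfl
  intro u hu
  rw [SimpleGraph.mem_neighborFinset] at hu
  exact h.q_x hu

lemma J_y : JJ G (qq G xl yl c ρ x y z b) y = ∑ i ∈ Finset.range r, yl i := by
  unfold JJ
  rw [← h.hreg y, ← sum_rk h.hρ y yl]
  apply Finset.sum_congr rfl
  intro u hu
  rw [SimpleGraph.mem_neighborFinset] at hu
  exact h.q_y hu

/-- special edges. -/
lemma mem_Q {e : Sym2 V} : e ∈ QE G (qq G xl yl c ρ x y z b) ↔
    (∃ u, G.Adj x u ∧ e = s(x, u)) ∨ (∃ u, G.Adj y u ∧ e = s(y, u)) ∨ (c ≠ 0 ∧ e = s(z, b)) := by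
  rw [mem_QE]
  constructor
  · rintro ⟨he, hq⟩
    induction e using Sym2.ind with
    | _ s t =>
      rw [SimpleGraph.mem_edgeSet] at he
      by_cases hs : s = x
      · subst hs; exact Or.inl ⟨t, he, rfl⟩
      by_cases ht : t = x
      · subst ht; exact Or.inl ⟨s, he.symm, Sym2.eq_swap⟩
      by_cases hs' : s = y
      · subst hs'; exact Or.inr (Or.inl ⟨t, he, rfl⟩)
      by_cases ht' : t = y
      · subst ht'; exact Or.inr (Or.inl ⟨s, he.symm, Sym2.eq_swap⟩)
      rw [q_v hs hs', if_neg ht, if_neg ht'] at hq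
      by_cases h1 : s(s, t) = s(z, b)
      · rw [if_pos h1] at hq
        exact Or.inr (Or.inr ⟨by simpa using hq, h1⟩)
      · rw [if_neg h1] at hq
        exact absurd rfl hq
  · rintro (⟨u, hu, rfl⟩ | ⟨u, hu, rfl⟩ | ⟨hc, rfl⟩)
    · refine ⟨hu, ?_⟩
      rw [h.q_x hu]
      have := h.hx1 (rk G ρ x u)
      omega
    · refine ⟨hu, ?_⟩
      rw [h.q_y hu]
      have := h.hy1 (rk G ρ y u)
      omega
    · refine ⟨h.hzb hc, ?_⟩
      rw [h.q_zb]
      exact hc

lemma q_bij (L : ℕ) (hxL : ∀ i < r, xl i ≤ L) (hyL : ∀ i < r, yl i ≤ L) (hcL : c ≤ L)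
    (hcov : ∀ l, 1 ≤ l → l ≤ L → (∃ i < r, xl i = l) ∨ (∃ i < r, yl i = l) ∨ c = l) :
    Set.BijOn (qq G xl yl c ρ x y z b) (QE G (qq G xl yl c ρ x y z b) : Set (Sym2 V)) (Set.Icc 1 L) := by
  refine ⟨?_, ?_, ?_⟩
  · intro e he
    rw [Finset.mem_coe, h.mem_Q] at he
    rw [Set.mem_Icc]
    rcases he with ⟨u, hu, rfl⟩ | ⟨u, hu, rfl⟩ | ⟨hc, rfl⟩
    · rw [h.q_x hu]
      exact ⟨h.hx1 _, hxL _ (by rw [← h.hreg x]; exact rk_lt hu)⟩
    · rw [h.q_y hu]
      exact ⟨h.hy1 _, hyL _ (by rw [← h.hreg y]; exact rk_lt hu)⟩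
    · rw [h.q_zb]
      exact ⟨Nat.one_le_iff_ne_zero.mpr hc, hcL⟩
  · intro e he e' he' hee
    rw [Finset.mem_coe, h.mem_Q] at he he'
    rcases he with ⟨u, hu, rfl⟩ | ⟨u, hu, rfl⟩ | ⟨hc, rfl⟩ <;>
      rcases he' with ⟨v, hv, rfl⟩ | ⟨v, hv, rfl⟩ | ⟨hc, rfl⟩
    · rw [h.q_x hu, h.q_x hv] at hee
      rw [rk_inj h.hρ hu hv (h.hxl.injective hee)]
    · rw [h.q_x hu, h.q_y hv] at hee
      exact absurd hee (h.hdis _ _)
    · rw [h.q_x hu, h.q_zb] at hee
      exact absurd hee (h.hxc _)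
    · rw [h.q_y hu, h.q_x hv] at hee
      exact absurd hee.symm (h.hdis _ _)
    · rw [h.q_y hu, h.q_y hv] at hee
      rw [rk_inj h.hρ hu hv (h.hyl.injective hee)]
    · rw [h.q_y hu, h.q_zb] at hee
      exact absurd hee (h.hyc _)
    · rw [h.q_zb, h.q_x hv] at hee
      exact absurd hee.symm (h.hxc _)
    · rw [h.q_zb, h.q_y hv] at hee
      exact absurd hee.symm (h.hyc _)
    · rfl
  · intro l hl
    rw [Set.mem_Icc] at hl
    rcases hcov l hl.1 hl.2 with ⟨i, hi, hil⟩ | ⟨i, hi, hil⟩ | hcl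
    · obtain ⟨u, hu, hui⟩ := exists_rk h.hρ x (i := i) (by rw [h.hreg]; exact hi)
      refine ⟨s(x, u), ?_, ?_⟩
      · rw [Finset.mem_coe, h.mem_Q]
        exact Or.inl ⟨u, hu, rfl⟩
      · rw [h.q_x hu, hui, hil]
    · obtain ⟨u, hu, hui⟩ := exists_rk h.hρ y (i := i) (by rw [h.hreg]; exact hi)
      refine ⟨s(y, u), ?_, ?_⟩
      · rw [Finset.mem_coe, h.mem_Q]
        exact Or.inr (Or.inl ⟨u, hu, rfl⟩)
      · rw [h.q_y hu, hui, hil]
    · refine ⟨s(z, b), ?_, ?_⟩
      · rw [Finset.mem_coe, h.mem_Q]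
        exact Or.inr (Or.inr ⟨by omega, rfl⟩)
      · rw [h.q_zb, hcl]

omit h in
lemma card_of_bij {q : Sym2 V → ℕ} {L : ℕ} {S : Finset (Sym2 V)}
    (hb : Set.BijOn q (S : Set (Sym2 V)) (Set.Icc 1 L)) : S.card = L := by
  have h1 : S.image q = Finset.Icc 1 L := by
    apply Finset.coe_injective
    rw [Finset.coe_image, hb.image_eq, Finset.coe_Icc]
  have h2 := congrArg Finset.card h1
  rw [Finset.card_image_of_injOn hb.injOn, Nat.card_Icc] at h2
  omega

omit h in
lemma pool_iff {u v : V} (huv : G.Adj u v) (hx : x ∉ s(u, v)) (hy : y ∉ s(u, v)) :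
    s(u, v) ∈ PE G (qq G xl yl c ρ x y z b) ↔ (c = 0 ∨ s(u, v) ≠ s(z, b)) := by
  rw [mem_PE]
  rw [Sym2.mem_iff, not_or] at hx hy
  rw [q_v (Ne.symm hx.1) (Ne.symm hy.1), if_neg (Ne.symm hx.2), if_neg (Ne.symm hy.2)]
  by_cases h1 : s(u, v) = s(z, b)
  · rw [if_pos h1]
    constructor
    · rintro ⟨_, h2⟩
      left; simpa using h2
    · rintro (h2 | h2)
      · exact ⟨huv, by simpa using h2⟩
      · exact absurd h1 h2
  · rw [if_neg h1]
    exact ⟨fun _ => Or.inr h1, fun _ => ⟨huv, rfl⟩⟩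

end Cfg

end

end Pool.Agent.helper6.LA
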